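import Pool.Agent.Helper25.Defs

/-!
Uniform approximation on bounded sets by a group of homeomorphisms.
-/

open Set Metric Topology Filter
open scoped NNReal

namespace Pool.Agent.Helper25

/-- `h` is approximable by the group `G`: for every bounded set `B` and every `ε > 0` there is
`g ∈ G` with `dist (g p) (h p) < ε` for all `p ∈ B`. -/
def Approximable {X : Type*} [PseudoMetricSpace X] (G : Subgroup (X ≃ₜ X)) (h : X ≃ₜ X) : Prop :=
  ∀ B : Set X, Bornology.IsBounded B → ∀ ε : ℝ, 0 < ε → ∃ g ∈ G, ∀ p ∈ B, dist (g p) (h p) < ε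

/-- `h` is uniformly approximable on the set `B` by elements of `G`. -/
def ApproxOn {X : Type*} [PseudoMetricSpace X] (G : Subgroup (X ≃ₜ X)) (h : X → X) (B : Set X) :
    Prop :=
  ∀ ε : ℝ, 0 < ε → ∃ g ∈ G, ∀ p ∈ B, dist (g p) (h p) < ε

section general

variable {X : Type*} [MetricSpace X] {G : Subgroup (X ≃ₜ X)}

theorem ApproxOn.mono {h : X → X} {A B : Set X} (hAB : A ⊆ B) (hB : ApproxOn G h B) :
    ApproxOn G h A := fun ε hε =>
  let ⟨g, hg, hd⟩ := hB ε hε
  ⟨g, hg, fun p hp => hd p (hAB hp)⟩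

theorem approximable_of_mem {h : X ≃ₜ X} (hh : h ∈ G) : Approximable G h :=
  fun _ _ ε hε => ⟨h, hh, fun p _ => by simpa using hε⟩

theorem approxOn_of_mem {h : X ≃ₜ X} (hh : h ∈ G) (B : Set X) : ApproxOn G h B :=
  fun ε hε => ⟨h, hh, fun p _ => by simpa using hε⟩

theorem Approximable.mono {G' : Subgroup (X ≃ₜ X)} (hG : G ≤ G') {h : X ≃ₜ X}
    (hh : Approximable G h) : Approximable G' h := fun B hB ε hε =>
  let ⟨g, hg, hd⟩ := hh B hB ε hε
  ⟨g, hG hg, hd⟩

/-- Composition: `a` approximable globally and `e` approximable on `B`. -/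
theorem approxOn_comp [ProperSpace X] {a : X ≃ₜ X} (ha : Approximable G a) {e : X → X}
    {B : Set X} (he : ApproxOn G e B) (hB : Bornology.IsBounded (e '' B)) :
    ApproxOn G (fun x => a (e x)) B := by
  intro ε hε
  -- bounded neighbourhood of the image
  set K : Set X := cthickening 1 (e '' B) with hK
  have hKb : Bornology.IsBounded K := hB.cthickening
  have hKc : IsCompact K := isCompact_of_isClosed_isBounded isClosed_cthickening hKb
  obtain ⟨g₁, hg₁, hd₁⟩ := ha K hKb (ε / 2) (by linarith)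
  have huc : UniformContinuousOn a K := hKc.uniformContinuousOn_of_continuous a.continuous.continuousOn
  rw [Metric.uniformContinuousOn_iff] at huc
  obtain ⟨δ, hδ, huc⟩ := huc (ε / 2) (by linarith)
  obtain ⟨g₂, hg₂, hd₂⟩ := he (min δ 1) (by positivity)
  refine ⟨g₁ * g₂, G.mul_mem hg₁ hg₂, fun p hp => ?_⟩
  have h1 : e p ∈ K := self_subset_cthickening _ (mem_image_of_mem _ hp)
  have h2 : g₂ p ∈ K := by
    refine mem_cthickening_of_dist_le _ (e p) _ _ (mem_image_of_mem _ hp) ?_
    exact ((hd₂ p hp).le.trans (min_le_right _ _))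
  have h3 := hd₁ _ h2
  have h4 := huc _ h2 _ h1 (lt_of_lt_of_le (hd₂ p hp) (min_le_left _ _))
  calc dist ((g₁ * g₂) p) (a (e p)) ≤ dist (g₁ (g₂ p)) (a (g₂ p)) + dist (a (g₂ p)) (a (e p)) := by
        simpa using dist_triangle _ _ _
    _ < ε / 2 + ε / 2 := add_lt_add h3 h4
    _ = ε := by ring

theorem image_bounded [ProperSpace X] (h : X ≃ₜ X) {B : Set X} (hB : Bornology.IsBounded B) :
    Bornology.IsBounded (h '' B) := by
  have : IsCompact (closure B) := hB.isCompact_closure
  exact ((this.image h.continuous).isBounded).subset (image_mono subset_closure)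

theorem Approximable.mul [ProperSpace X] {a b : X ≃ₜ X} (ha : Approximable G a)
    (hb : Approximable G b) : Approximable G (a * b) := by
  intro B hB
  exact approxOn_comp ha (e := b) (B := B) (hb B hB) (image_bounded b hB)

end general

section normed

variable {E : Type*} [NormedAddCommGroup E] [NormedSpace ℝ E] [ProperSpace E]

/-- If `g` is close to `h` on a ball then `g⁻¹` is close to `h⁻¹` on the image of a smaller
ball. -/
theorem inv_close_local (h : E ≃ₜ E) (x₀ : E) {ρ r ε : ℝ} (hε : 0 < ε) (hr : ρ + ε ≤ r) :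
    ∃ δ > 0, ∀ g : E ≃ₜ E, (∀ x ∈ closedBall x₀ r, dist (g x) (h x) < δ) →
      ∀ w ∈ closedBall x₀ ρ, dist (g.symm (h w)) w < ε := by
  have hKc : IsCompact (h '' closedBall x₀ r) := (isCompact_closedBall x₀ r).image h.continuous
  have huc : UniformContinuousOn h.symm (h '' closedBall x₀ r) :=
    hKc.uniformContinuousOn_of_continuous h.symm.continuous.continuousOn
  rw [Metric.uniformContinuousOn_iff] at huc
  obtain ⟨η, hη, huc⟩ := huc ε hε
  refine ⟨η / 2, by linarith, fun g hg w hw => ?_⟩
  by_contra hcon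
  push Not at hcon
  have hwr : w ∈ closedBall x₀ r := closedBall_subset_closedBall (by linarith) hw
  -- the path
  set φ : ℝ → ℝ := fun t => dist (g.symm (AffineMap.lineMap (g w) (h w) t)) w with hφ
  have hcont : Continuous φ := by
    have h1 : Continuous fun t : ℝ => (AffineMap.lineMap (g w) (h w) t : E) :=
      AffineMap.lineMap_continuous
    exact (g.symm.continuous.comp h1).dist continuous_const
  have h0 : φ 0 = 0 := by simp [hφ]
  have h1 : ε ≤ φ 1 := by simpa [hφ] using hcon
  have hmem : ε ∈ Icc (φ 0) (φ 1) := ⟨by rw [h0]; exact hε.le, h1⟩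
  obtain ⟨t, ht, htε⟩ := intermediate_value_Icc (zero_le_one) hcont.continuousOn hmem
  set u : E := g.symm (AffineMap.lineMap (g w) (h w) t) with hu
  have huw : dist u w = ε := htε
  have hur : u ∈ closedBall x₀ r := by
    rw [mem_closedBall] at hw ⊢
    calc dist u x₀ ≤ dist u w + dist w x₀ := dist_triangle _ _ _
      _ ≤ ε + ρ := add_le_add huw.le hw
      _ ≤ r := by linarith
  have hgu : g u = AffineMap.lineMap (g w) (h w) t := by simp [hu]
  have hd1 : dist (g u) (h w) ≤ dist (g w) (h w) := by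
    rw [hgu, dist_lineMap_right]
    have : ‖1 - t‖ ≤ 1 := by
      rw [Real.norm_eq_abs, abs_le]; constructor <;> linarith [ht.1, ht.2]
    calc ‖1 - t‖ * dist (g w) (h w) ≤ 1 * dist (g w) (h w) :=
          mul_le_mul_of_nonneg_right this dist_nonneg
      _ = _ := one_mul _
  have hd2 : dist (h u) (h w) < η := by
    calc dist (h u) (h w) ≤ dist (h u) (g u) + dist (g u) (h w) := dist_triangle _ _ _
      _ < η / 2 + η / 2 := by
        refine add_lt_add ?_ (lt_of_le_of_lt hd1 (hg w hwr))
        rw [dist_comm]; exact hg u hur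
      _ = η := by ring
  have := huc (h u) (mem_image_of_mem _ hur) (h w) (mem_image_of_mem _ hwr) hd2
  simp only [Homeomorph.symm_apply_apply] at this
  linarith

theorem Approximable.inv {G : Subgroup (E ≃ₜ E)} {a : E ≃ₜ E} (ha : Approximable G a) :
    Approximable G a⁻¹ := by
  intro B hB ε hε
  have hb : Bornology.IsBounded (a.symm '' B) := image_bounded a.symm hB
  obtain ⟨ρ, hρ⟩ := hb.subset_closedBall 0
  obtain ⟨δ, hδ, hd⟩ := inv_close_local a 0 (ρ := ρ) (r := ρ + ε) hε le_rfl
  obtain ⟨g, hg, hgd⟩ := ha (closedBall 0 (ρ + ε)) isBounded_closedBall δ hδ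
  refine ⟨g⁻¹, G.inv_mem hg, fun p hp => ?_⟩
  have := hd g hgd (a.symm p) (hρ (mem_image_of_mem _ hp))
  simpa using this

/-- The group of all homeomorphisms approximable by `G`. -/
def approxSubgroup (G : Subgroup (E ≃ₜ E)) : Subgroup (E ≃ₜ E) where
  carrier := {h | Approximable G h}
  one_mem' := approximable_of_mem G.one_mem
  mul_mem' ha hb := Approximable.mul ha hb
  inv_mem' ha := Approximable.inv ha

theorem mem_approxSubgroup {G : Subgroup (E ≃ₜ E)} {h : E ≃ₜ E} :
    h ∈ approxSubgroup G ↔ Approximable G h := Iff.rfl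

theorem le_approxSubgroup (G : Subgroup (E ≃ₜ E)) : G ≤ approxSubgroup G :=
  fun _ hh => approximable_of_mem hh

theorem approxOn_idem {G : Subgroup (E ≃ₜ E)} {h : E → E} {B : Set E}
    (hBb : Bornology.IsBounded B)
    (hh : ApproxOn (approxSubgroup G) h B) : ApproxOn G h B := by
  intro ε hε
  obtain ⟨a, ha, had⟩ := hh (ε / 2) (by linarith)
  obtain ⟨g, hg, hgd⟩ := ha B hBb (ε / 2) (by linarith)
  refine ⟨g, hg, fun p hp => ?_⟩
  calc dist (g p) (h p) ≤ dist (g p) (a p) + dist (a p) (h p) := dist_triangle _ _ _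
    _ < ε / 2 + ε / 2 := add_lt_add (hgd p hp) (had p hp)
    _ = ε := by ring

theorem approximable_idem {G : Subgroup (E ≃ₜ E)} {h : E ≃ₜ E}
    (hh : Approximable (approxSubgroup G) h) : Approximable G h :=
  fun B hB => approxOn_idem hB (hh B hB)

theorem approximable_trans {G G' : Subgroup (E ≃ₜ E)} (hG : ∀ g ∈ G, Approximable G' g)
    {h : E ≃ₜ E} (hh : Approximable G h) : Approximable G' h :=
  approximable_idem (hh.mono (fun g hg => hG g hg))

end normed

end Pool.Agent.Helper25
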