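import Pool.Agent.Helper25.Diffeo

/-!
Conical homeomorphisms: a positively homogeneous homeomorphism which away from the origin locally
coincides with approximable ones, and is the identity on some open cone, is approximable.
-/

open Set Metric Topology Filter
open scoped NNReal

namespace Pool.Agent.Helper25

variable {E : Type*} [NormedAddCommGroup E] [NormedSpace ℝ E]

section decomposition

/-- The homeomorphisms `id + t u` for `t ∈ [0,1]`. -/
theorem exists_path [CompleteSpace E] {K : ℝ≥0} (hK : K < 1) {u : E → E} (hu : LipschitzWith K u)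
    (t : ℝ) (ht : t ∈ Icc (0 : ℝ) 1) : ∃ s : E ≃ₜ E, ∀ x, s x = x + t • u x := by
  apply exists_homeo_add hK
  refine LipschitzWith.of_dist_le_mul fun x y => ?_
  have := hu.dist_le_mul x y
  rw [dist_eq_norm] at this ⊢
  rw [← smul_sub, norm_smul, Real.norm_eq_abs, abs_of_nonneg ht.1]
  calc t * ‖u x - u y‖ ≤ 1 * ‖u x - u y‖ := by gcongr; exact ht.2
    _ ≤ _ := by rw [one_mul]; exact this

/-- A homeomorphism `s` with `s - id` Lipschitz with constant `< 1` is a product of
homeomorphisms which are as close to the identity as we like and whose supports are contained in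
the support of `s`. -/
theorem small_decomposition [CompleteSpace E] {K : ℝ≥0} (hK : K < 1) {s : E ≃ₜ E}
    (hs : LipschitzWith K (fun x => s x - x)) {C : ℝ} (hC : ∀ x, ‖s x - x‖ ≤ C)
    {κ : ℝ≥0} (hκ : 0 < κ) {H : Subgroup (E ≃ₜ E)}
    (hH : ∀ t : E ≃ₜ E, LipschitzWith κ (fun x => t x - x) → (∀ x, ‖t x - x‖ ≤ κ) →
      (∀ x, s x = x → t x = x) → t ∈ H) : s ∈ H := by
  set u : E → E := fun x => s x - x with hu
  have hK' : (0 : ℝ) < 1 - K := by
    have : (K : ℝ) < 1 := by exact_mod_cast hK
    linarith
  have hκ' : (0 : ℝ) < κ := by exact_mod_cast hκ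
  obtain ⟨N, hN⟩ : ∃ N : ℕ, max (K * (1 - K)⁻¹ : ℝ) C / κ < N := exists_nat_gt _
  set N' : ℕ := N + 1 with hN'
  have hN0 : (0 : ℝ) < N' := by positivity
  have hNb : max (K * (1 - K)⁻¹ : ℝ) C / κ < N' := by
    refine hN.trans ?_
    rw [hN']; push_cast; linarith
  have hN1 : (K * (1 - K)⁻¹ : ℝ) / N' ≤ κ := by
    rw [div_le_iff₀ hN0]
    rw [div_lt_iff₀ hκ'] at hNb
    linarith [le_max_left (K * (1 - K)⁻¹ : ℝ) C, mul_comm (κ : ℝ) N']
  have hN2 : C / N' ≤ κ := by
    rw [div_le_iff₀ hN0]
    rw [div_lt_iff₀ hκ'] at hNb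
    linarith [le_max_right (K * (1 - K)⁻¹ : ℝ) C, mul_comm (κ : ℝ) N']
  have hex : ∀ j : ℕ, ∃ f : E ≃ₜ E, j ≤ N' → ∀ x, f x = x + ((j : ℝ) / N') • u x := by
    intro j
    by_cases hj : j ≤ N'
    · obtain ⟨f, hf⟩ := exists_path hK hs ((j : ℝ) / N')
        ⟨by positivity, by rw [div_le_one hN0]; exact_mod_cast hj⟩
      exact ⟨f, fun _ => hf⟩
    · exact ⟨1, fun h => absurd h hj⟩
  choose F hF using hex
  have key : ∀ j, j ≤ N' → F j ∈ H := by
    intro j
    induction j with
    | zero =>
      intro _
      have : F 0 = 1 := by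
        ext x; rw [hF 0 (by omega)]; simp
      rw [this]; exact H.one_mem
    | succ j ih =>
      intro hj
      have h1 := ih (by omega)
      have hj' : j ≤ N' := by omega
      have hdisp : ∀ x, F (j + 1) x - F j x = ((1 : ℝ) / N') • u x := by
        intro x
        rw [hF _ hj, hF _ hj', add_sub_add_left_eq_sub, ← sub_smul]
        congr 1
        push_cast
        ring
      have hdisp' : (fun y => (F (j + 1) * (F j)⁻¹) y - y) =
          fun y => ((1 : ℝ) / N') • u ((F j).symm y) := by
        funext y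
        have := hdisp ((F j).symm y)
        rw [Homeomorph.apply_symm_apply] at this
        simpa using this
      have hFs : LipschitzWith K (fun x => F j x - x) := by
        refine LipschitzWith.of_dist_le_mul fun x y => ?_
        have := hs.dist_le_mul x y
        rw [dist_eq_norm] at this ⊢
        rw [hF _ hj', hF _ hj', add_sub_cancel_left, add_sub_cancel_left, ← smul_sub, norm_smul,
          Real.norm_eq_abs, abs_of_nonneg (by positivity)]
        have h01 : (j : ℝ) / N' ≤ 1 := by rw [div_le_one hN0]; exact_mod_cast hj'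
        calc (j : ℝ) / N' * ‖u x - u y‖ ≤ 1 * ‖u x - u y‖ := by gcongr
          _ ≤ _ := by rw [one_mul]; exact this
      have hinv := lipschitz_symm_of_small hK hFs
      have h2 : F (j + 1) * (F j)⁻¹ ∈ H := by
        apply hH
        · rw [hdisp']
          refine LipschitzWith.of_dist_le_mul fun x y => ?_
          have e1 := hs.dist_le_mul ((F j).symm x) ((F j).symm y)
          have e2 := hinv.dist_le_mul x y
          rw [dist_eq_norm] at e1 ⊢
          rw [← smul_sub, norm_smul, Real.norm_eq_abs, abs_of_nonneg (by positivity)]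
          calc (1 : ℝ) / N' * ‖u ((F j).symm x) - u ((F j).symm y)‖
              ≤ 1 / N' * (K * (((1 - K)⁻¹ : ℝ≥0) * dist x y)) := by
                gcongr
                exact e1.trans (by gcongr)
            _ = (K * ((1 - K)⁻¹ : ℝ≥0) : ℝ) / N' * dist x y := by ring
            _ ≤ κ * dist x y := by gcongr
        · intro y
          have hy2 : (F (j + 1) * (F j)⁻¹) y - y = ((1 : ℝ) / N') • u ((F j).symm y) :=
            congrFun hdisp' y
          rw [hy2, norm_smul, Real.norm_eq_abs, abs_of_nonneg (by positivity)]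
          calc (1 : ℝ) / N' * ‖u ((F j).symm y)‖ ≤ 1 / N' * C := by gcongr; exact hC _
            _ = C / N' := by ring
            _ ≤ κ := hN2
        · intro y hy
          have hu0 : u y = 0 := by simp [hu, hy]
          have hFy : F j y = y := by rw [hF _ hj', hu0, smul_zero, add_zero]
          have hFy' : (F j).symm y = y := by rw [Homeomorph.symm_apply_eq, hFy]
          have hy2 : (F (j + 1) * (F j)⁻¹) y - y = ((1 : ℝ) / N') • u ((F j).symm y) :=
            congrFun hdisp' y
          rw [hFy', hu0, smul_zero] at hy2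
          exact sub_eq_zero.mp hy2
      have h4 : F (j + 1) = (F (j + 1) * (F j)⁻¹) * F j := by group
      rw [h4]; exact H.mul_mem h2 h1
  have : F N' = s := by
    ext x
    rw [hF N' le_rfl, div_self hN0.ne', one_smul]
    simp [hu]
  rw [← this]; exact key N' le_rfl

/-- Conjugates `h s h⁻¹` with `s - id` Lipschitz with constant `< 1` and `s` supported in a compact
set of points at which `h` is locally approximable. -/
theorem conj_approximable_of_compact [ProperSpace E] {G : Subgroup (E ≃ₜ E)} (hG : ContainsSmall G)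
    {h : E ≃ₜ E} {S : Set E} (hS : IsCompact S) (hloc : ∀ x ∈ S, ∃ U ∈ 𝓝 x, ApproxOn G h U)
    {K : ℝ≥0} (hK : K < 1) {s : E ≃ₜ E} (hs : LipschitzWith K (fun x => s x - x))
    (hsupp : ∀ x, x ∉ S → s x = x) : Approximable G (h * s * h⁻¹) := by
  obtain ⟨δ, hδ, κ, hκ, hfrag⟩ := fragGood_of_compact hG hS hloc
  obtain ⟨C, hC0, hC⟩ : ∃ C : ℝ, 0 ≤ C ∧ ∀ x, ‖s x - x‖ ≤ C := by
    obtain ⟨C, hC⟩ := (hS.image (f := fun x => s x - x) (by fun_prop)).isBounded.exists_norm_le
    refine ⟨max C 0, le_max_right _ _, fun x => ?_⟩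
    by_cases hx : x ∈ S
    · exact (hC _ (mem_image_of_mem _ hx)).trans (le_max_left _ _)
    · rw [hsupp x hx, sub_self, norm_zero]; exact le_max_right _ _
  have : s ∈ (approxSubgroup G).comap (MulAut.conj h).toMonoidHom := by
    refine small_decomposition hK hs hC hκ fun t ht1 ht2 ht3 => ?_
    have : Approximable G (h * t * h⁻¹) := hfrag t ht1 ht2 (fun x hx => ht3 x (hsupp x
      (fun hc => hx (self_subset_thickening hδ _ hc))))
    exact this
  exact this

end decomposition

end Pool.Agent.Helper25
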