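import Pool.Agent.Helper25.Radial

/-!
The cone theorem: a positively homogeneous homeomorphism of a finite-dimensional normed space which
away from the origin locally coincides with approximable homeomorphisms and which is the identity on
some open cone is approximable.
-/

open Set Metric Topology Filter
open scoped NNReal

namespace Pool.Agent.Helper25

variable {E : Type*} [NormedAddCommGroup E] [NormedSpace ℝ E]

theorem IsConic.map_zero {L : E ≃ₜ E} (hL : IsConic L) : L 0 = 0 := by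
  have h1 := hL 2 (by norm_num) 0
  rw [smul_zero, two_smul] at h1
  exact left_eq_add.mp h1

theorem IsConic.mul {L M : E ≃ₜ E} (hL : IsConic L) (hM : IsConic M) : IsConic (L * M : E ≃ₜ E) := by
  intro t ht x
  simp only [Homeomorph.mul_apply]
  rw [hM t ht, hL t ht]

theorem IsConic.inv {L : E ≃ₜ E} (hL : IsConic L) : IsConic (L⁻¹ : E ≃ₜ E) := by
  intro t ht x
  simp only [Homeomorph.inv_apply]
  rw [Homeomorph.symm_apply_eq, hL t ht, Homeomorph.apply_symm_apply]

theorem IsConic.one : IsConic (1 : E ≃ₜ E) := fun _ _ _ => rfl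

theorem IsConic.pow {L : E ≃ₜ E} (hL : IsConic L) (n : ℕ) : IsConic (L ^ n : E ≃ₜ E) := by
  induction n with
  | zero => simpa using IsConic.one
  | succ n ih => rw [pow_succ]; exact ih.mul hL

theorem IsConic.ne_zero {L : E ≃ₜ E} (hL : IsConic L) {x : E} (hx : x ≠ 0) : L x ≠ 0 := by
  intro h
  apply hx
  apply L.injective
  rw [h, hL.map_zero]

/-- continuity of radial maps -/
theorem continuous_radial [ProperSpace E] {ρ : E → ℝ} (hρ : ∀ t : ℝ, 0 < t → ∀ x, ρ (t • x) = ρ x)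
    (hc : ∀ x, x ≠ 0 → ContinuousAt ρ x) : Continuous (fun x : E => ρ x • x) := by
  rw [continuous_iff_continuousAt]
  intro x
  by_cases hx : x = 0
  · subst hx
    have hcs : ContinuousOn ρ (sphere (0 : E) 1) := fun z hz =>
      (hc z (ne_of_mem_sphere hz one_ne_zero)).continuousWithinAt
    obtain ⟨C, hC⟩ := ((isCompact_sphere (0 : E) 1).image_of_continuousOn hcs).isBounded.exists_norm_le
    rw [ContinuousAt, smul_zero]
    have hb : ∀ x : E, ‖ρ x • x‖ ≤ C * ‖x‖ := by
      intro x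
      by_cases hx : x = 0
      · subst hx; simp
      have hxn : 0 < ‖x‖ := norm_pos_iff.mpr hx
      rw [norm_smul]
      apply mul_le_mul_of_nonneg_right _ hxn.le
      have h1 : ρ x = ρ (‖x‖⁻¹ • x) := (hρ _ (by positivity) x).symm
      rw [h1]
      apply hC
      apply mem_image_of_mem
      rw [mem_sphere_zero_iff_norm, norm_smul, norm_inv, norm_norm, inv_mul_cancel₀ hxn.ne']
    have h2 : Tendsto (fun x : E => C * ‖x‖) (𝓝 0) (𝓝 0) := by
      have : Continuous (fun x : E => C * ‖x‖) := by fun_prop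
      simpa using this.tendsto 0
    exact squeeze_zero_norm hb h2
  · exact (hc x hx).smul continuousAt_id

/-- The radial part of a positively homogeneous homeomorphism. -/
theorem exists_radialPart [ProperSpace E] {L : E ≃ₜ E} (hL : IsConic L) :
    ∃ R : E ≃ₜ E, IsConic R ∧ (∀ x, ∃ c : ℝ, 0 < c ∧ R x = c • x) ∧
      (∀ x, R x = (‖L x‖ * ‖x‖⁻¹) • x) ∧ ∀ x, R.symm x = (‖L x‖ * ‖x‖⁻¹)⁻¹ • x := by
  set ρ : E → ℝ := fun x => ‖L x‖ * ‖x‖⁻¹ with hρ
  have hρh : ∀ t : ℝ, 0 < t → ∀ x, ρ (t • x) = ρ x := by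
    intro t ht x
    simp only [hρ]
    rw [hL t ht, norm_smul, norm_smul, mul_inv, Real.norm_eq_abs, abs_of_pos ht]
    have := ht.ne'
    field_simp
  have hρpos : ∀ x, x ≠ 0 → 0 < ρ x := by
    intro x hx
    have h1 : 0 < ‖x‖ := norm_pos_iff.mpr hx
    have h2 : 0 < ‖L x‖ := norm_pos_iff.mpr (hL.ne_zero hx)
    positivity
  have hρc : ∀ x, x ≠ 0 → ContinuousAt ρ x := by
    intro x hx
    have h1 : ContinuousAt (fun x => ‖L x‖) x := L.continuous.norm.continuousAt
    exact h1.mul (continuousAt_id.norm.inv₀ (norm_ne_zero_iff.mpr hx))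
  have hρ' : ∀ t : ℝ, 0 < t → ∀ x, (ρ (t • x))⁻¹ = (ρ x)⁻¹ := fun t ht x => by rw [hρh t ht]
  have hρc' : ∀ x, x ≠ 0 → ContinuousAt (fun x => (ρ x)⁻¹) x := fun x hx =>
    (hρc x hx).inv₀ (hρpos x hx).ne'
  let R : E ≃ₜ E :=
    { toFun := fun x => ρ x • x
      invFun := fun x => (ρ x)⁻¹ • x
      left_inv := fun x => by
        by_cases hx : x = 0
        · subst hx; simp
        · simp only
          rw [hρh _ (hρpos x hx), smul_smul, inv_mul_cancel₀ (hρpos x hx).ne', one_smul]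
      right_inv := fun x => by
        by_cases hx : x = 0
        · subst hx; simp
        · simp only
          rw [hρh _ (inv_pos.mpr (hρpos x hx)), smul_smul, mul_inv_cancel₀ (hρpos x hx).ne',
            one_smul]
      continuous_toFun := continuous_radial hρh hρc
      continuous_invFun := continuous_radial (ρ := fun x => (ρ x)⁻¹) hρ' hρc' }
  refine ⟨R, ?_, ?_, fun x => rfl, fun x => rfl⟩
  · intro t ht x
    change ρ (t • x) • (t • x) = t • (ρ x • x)
    rw [hρh t ht, smul_comm]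
  · intro x
    by_cases hx : x = 0
    · exact ⟨1, one_pos, by subst hx; change ρ 0 • (0 : E) = _; simp⟩
    · exact ⟨ρ x, hρpos x hx, rfl⟩

/-- `ContainsSmall` passes to the approximation group. -/
theorem ContainsSmall.approx [ProperSpace E] {G : Subgroup (E ≃ₜ E)} (hG : ContainsSmall G) :
    ContainsSmall (approxSubgroup G) := by
  obtain ⟨κ, hκ, h⟩ := hG
  exact ⟨κ, hκ, fun s hs => approximable_of_mem (h s hs)⟩

/-- Conjugates of small conical homeomorphisms by a norm-preserving conical homeomorphism. -/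
theorem conj_conic_approximable [ProperSpace E] {G : Subgroup (E ≃ₜ E)} (hG : ContainsSmall G)
    {L : E ≃ₜ E} (hL : IsConic L) (hLn : ∀ x, ‖L x‖ = ‖x‖)
    (hloc : ∀ y, y ≠ 0 → ∃ a : E ≃ₜ E, Approximable G a ∧ ∀ᶠ z in 𝓝 y, L z = a z)
    {T : E ≃ₜ E} (hT : IsConic T) {κ : ℝ≥0} (hκ : 12 * κ < 1)
    (hTs : LipschitzWith κ (fun x => T x - x)) : Approximable G (L * T * L⁻¹) := by
  have hLs : ∀ x, ‖L.symm x‖ = ‖x‖ := fun x => by
    have := hLn (L.symm x); rw [Homeomorph.apply_symm_apply] at this; exact this.symm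
  have hT0 := hT.map_zero
  set u : E → E := fun x => T x - x with hu
  have hu0 : u 0 = 0 := by simp [hu, hT0]
  intro B hB ε hε
  obtain ⟨R, hR1, hBR⟩ : ∃ R : ℝ, 1 ≤ R ∧ B ⊆ closedBall 0 R := by
    obtain ⟨R, hR⟩ := hB.subset_closedBall 0
    exact ⟨max R 1, le_max_right _ _, hR.trans (closedBall_subset_closedBall (le_max_left _ _))⟩
  have hR : 0 < R := by linarith
  set δ : ℝ := min (1 / 2) (ε / 16) with hδ
  have hδ0 : 0 < δ := by positivity
  have hδR : 2 * δ ≤ R := by
    have : δ ≤ 1 / 2 := min_le_left _ _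
    linarith
  -- the cutoff map
  set q : ℝ → E → E := fun r x => (max 0 (min 1 (2 - ‖x‖ / r)) : ℝ) • x with hq
  have hqL : ∀ r, 0 < r → LipschitzWith 3 (q r) := fun r hr => lipschitz_cutoff_radial r hr
  have hq1 : ∀ r, 0 < r → ∀ x : E, ‖x‖ ≤ r → q r x = x := by
    intro r hr x hx
    have h1 : ‖x‖ / r ≤ 1 := by rw [div_le_iff₀ hr]; simpa using hx
    simp only [hq]
    rw [min_eq_left (by linarith), max_eq_right zero_le_one, one_smul]
  have hq2 : ∀ r, 0 < r → ∀ x : E, 2 * r ≤ ‖x‖ → q r x = 0 := by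
    intro r hr x hx
    have : 2 ≤ ‖x‖ / r := by rw [le_div_iff₀ hr]; exact hx
    simp only [hq]
    rw [max_eq_left, zero_smul]
    exact (min_le_right _ _).trans (by linarith)
  set π : E → E := fun x => q R x - q δ (q R x) with hπ
  have hπL : LipschitzWith 12 π := by
    have h1 : LipschitzWith (3 + 3 * 3) π := (hqL R hR).sub ((hqL δ hδ0).comp (hqL R hR))
    have e : (3 + 3 * 3 : ℝ≥0) = 12 := by norm_num
    rwa [e] at h1
  have hπ1 : ∀ x : E, 2 * δ ≤ ‖x‖ → ‖x‖ ≤ R → π x = x := by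
    intro x h1 h2
    simp only [hπ]
    rw [hq1 R hR x h2, hq2 δ hδ0 x h1, sub_zero]
  have hπ2 : ∀ x : E, ‖x‖ < δ ∨ 2 * R < ‖x‖ → π x = 0 := by
    intro x hx
    simp only [hπ]
    rcases hx with hx | hx
    · rw [hq1 R hR x (by linarith), hq1 δ hδ0 x hx.le, sub_self]
    · rw [hq2 R hR x hx.le, hq1 δ hδ0 0 (by simpa using hδ0.le), sub_self]
  have hπ0 : π 0 = 0 := hπ2 0 (Or.inl (by simpa using hδ0))
  have hvL : LipschitzWith (12 * κ) (fun x => u (π x)) := by
    have := hTs.comp hπL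
    rwa [mul_comm] at this
  obtain ⟨s, hs⟩ := exists_homeo_add hκ hvL
  have hsL : LipschitzWith (12 * κ) (fun x => s x - x) := by
    have : (fun x => s x - x) = fun x => u (π x) := by
      funext x; rw [hs]; abel
    rw [this]; exact hvL
  set S : Set E := closedBall 0 (2 * R) \ ball 0 δ with hS
  have hSc : IsCompact S := (isCompact_closedBall 0 (2 * R)).diff isOpen_ball
  have hA : Approximable G (L * s * L⁻¹) := by
    apply approximable_idem
    refine conj_approximable_of_compact hG.approx hSc ?_ hκ hsL ?_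
    · intro x hx
      have hx0 : x ≠ 0 := by
        rintro rfl
        exact hx.2 (by simpa using hδ0)
      obtain ⟨a, ha, hae⟩ := hloc x hx0
      refine ⟨{z | L z = a z}, hae, fun ε' hε' => ⟨a, ha, fun z hz => ?_⟩⟩
      rw [show L z = a z from hz, dist_self]; exact hε'
    · intro x hx
      have : ‖x‖ < δ ∨ 2 * R < ‖x‖ := by
        by_contra hcon
        push Not at hcon
        apply hx
        refine ⟨by simpa using hcon.2, ?_⟩
        simpa using hcon.1
      rw [hs, hπ2 x this, hu0, add_zero]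
  obtain ⟨g, hg, hgd⟩ := hA B hB (ε / 2) (by linarith)
  refine ⟨g, hg, fun y hy => ?_⟩
  have hyR : ‖y‖ ≤ R := by simpa using hBR hy
  set x := L.symm y with hx
  have hxn : ‖x‖ = ‖y‖ := hLs y
  have hcmp : dist (L (s x)) (L (T x)) ≤ ε / 2 := by
    by_cases hxδ : 2 * δ ≤ ‖x‖
    · rw [hs, hπ1 x hxδ (by rw [hxn]; exact hyR)]
      simp only [hu, add_sub_cancel, dist_self]
      linarith
    · push Not at hxδ
      have h1 : ‖T x‖ ≤ 2 * ‖x‖ := by
        have h2 := hTs.dist_le_mul x 0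
        rw [dist_eq_norm, hu0, sub_zero, dist_zero_right] at h2
        have h3 : ‖T x‖ ≤ ‖u x‖ + ‖x‖ := by
          have : T x = u x + x := by simp [hu]
          rw [this]; exact norm_add_le _ _
        have hκ1 : (κ : ℝ) ≤ 1 := by
          have : 12 * (κ : ℝ) < 1 := by exact_mod_cast hκ
          have h0 : (0 : ℝ) ≤ κ := κ.2
          linarith
        have h5 : 0 ≤ ‖x‖ := norm_nonneg x
        nlinarith
      have h1' : ‖s x‖ ≤ 2 * ‖x‖ := by
        have h2 := hvL.dist_le_mul x 0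
        simp only [hπ0, hu0] at h2
        rw [dist_eq_norm, sub_zero, dist_zero_right] at h2
        have h3 : ‖s x‖ ≤ ‖x‖ + ‖u (π x)‖ := by
          rw [hs]; exact norm_add_le _ _
        have hκ1 : ((12 * κ : ℝ≥0) : ℝ) ≤ 1 := by exact_mod_cast hκ.le
        have h5 : 0 ≤ ‖x‖ := norm_nonneg x
        nlinarith
      calc dist (L (s x)) (L (T x)) ≤ ‖L (s x)‖ + ‖L (T x)‖ := by
            rw [dist_eq_norm]; exact norm_sub_le _ _
        _ = ‖s x‖ + ‖T x‖ := by rw [hLn, hLn]
        _ ≤ 2 * ‖x‖ + 2 * ‖x‖ := add_le_add h1' h1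
        _ ≤ 8 * δ := by linarith
        _ ≤ ε / 2 := by
            have : δ ≤ ε / 16 := min_le_right _ _
            linarith
  have h6 := hgd y hy
  simp only [Homeomorph.mul_apply, Homeomorph.inv_apply, ← hx] at h6 ⊢
  calc dist (g y) (L (T x)) ≤ dist (g y) (L (s x)) + dist (L (s x)) (L (T x)) := dist_triangle _ _ _
    _ < ε / 2 + ε / 2 := add_lt_add_of_lt_of_le h6 hcmp
    _ = ε := by ring

/-- The contraction `T x = x - κ ‖x‖ p`. -/
theorem exists_push [CompleteSpace E] {p : E} (hp : ‖p‖ = 1) {κ : ℝ≥0} (hκ : κ < 1) :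
    ∃ T : E ≃ₜ E, IsConic T ∧ LipschitzWith κ (fun x => T x - x) ∧
      ∀ x, T x = x - ((κ : ℝ) * ‖x‖) • p := by
  have hL : LipschitzWith κ (fun x : E => -(((κ : ℝ) * ‖x‖) • p)) := by
    refine LipschitzWith.of_dist_le_mul fun x y => ?_
    rw [dist_neg_neg, dist_eq_norm, ← sub_smul, norm_smul, hp, mul_one, ← mul_sub, norm_mul,
      dist_eq_norm, Real.norm_eq_abs, NNReal.abs_eq, Real.norm_eq_abs]
    gcongr
    exact abs_norm_sub_norm_le x y
  obtain ⟨T, hT⟩ := exists_homeo_add hκ hL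
  have hT' : ∀ x, T x = x - ((κ : ℝ) * ‖x‖) • p := fun x => by rw [hT, sub_eq_add_neg]
  refine ⟨T, ?_, ?_, hT'⟩
  · intro t ht x
    rw [hT', hT', norm_smul, Real.norm_eq_abs, abs_of_pos ht, smul_sub, smul_smul]
    congr 2; ring
  · have : (fun x => T x - x) = fun x : E => -(((κ : ℝ) * ‖x‖) • p) := by
      funext x; rw [hT]; abel
    rw [this]; exact hL

/-- The cone theorem in the norm-preserving case. -/
theorem cone_approximable_of_norm [ProperSpace E] {G : Subgroup (E ≃ₜ E)} (hG : ContainsSmall G)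
    {L : E ≃ₜ E} (hL : IsConic L) (hLn : ∀ x, ‖L x‖ = ‖x‖)
    (hloc : ∀ y, y ≠ 0 → ∃ a : E ≃ₜ E, Approximable G a ∧ ∀ᶠ z in 𝓝 y, L z = a z)
    {p : E} (hp : ‖p‖ = 1) {c : ℝ} (hc : 0 < c)
    (hid : ∀ x, ‖x - ‖x‖ • p‖ < c * ‖x‖ → L x = x) : Approximable G L := by
  set κ : ℝ≥0 := 1 / 20 with hκ
  have hκr : (κ : ℝ) = 1 / 20 := by rw [hκ]; push_cast; norm_num
  have hκ12 : 12 * κ < 1 := by
    rw [← NNReal.coe_lt_coe]; push_cast; rw [hκr]; norm_num
  have hκ1 : κ < 1 := by
    rw [← NNReal.coe_lt_coe]; push_cast; rw [hκr]; norm_num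
  obtain ⟨T, hTc, hTs, hT⟩ := exists_push hp hκ1
  have hLTL : Approximable G (L * T * L⁻¹) := conj_conic_approximable hG hL hLn hloc hTc hκ12 hTs
  have hTA : Approximable G T := by
    have := conj_conic_approximable hG (L := 1) IsConic.one (fun x => rfl)
      (fun y _ => ⟨1, approximable_of_mem G.one_mem, Eventually.of_forall fun z => rfl⟩) hTc hκ12 hTs
    simpa using this
  -- iterates
  have hTN : ∀ x : E, ‖x‖ = 1 → c ≤ ‖x - p‖ → ∀ N : ℕ, ∃ S : ℝ, κ * (c / 2) * N ≤ S ∧
      (T ^ N) x = x - S • p := by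
    intro x hx hxp N
    induction N with
    | zero => exact ⟨0, by simp, by simp⟩
    | succ N ih =>
      obtain ⟨S, hS, hSe⟩ := ih
      have hS0 : 0 ≤ S := le_trans (by positivity) hS
      refine ⟨S + κ * ‖x - S • p‖, ?_, ?_⟩
      · have h1 : c / 2 ≤ ‖x - S • p‖ := by
          have h2 : |1 - S| ≤ ‖x - S • p‖ := by
            have := abs_norm_sub_norm_le x (S • p)
            rwa [norm_smul, hx, hp, mul_one, Real.norm_eq_abs, abs_of_nonneg hS0] at this
          have h3 : ‖x - p‖ ≤ ‖x - S • p‖ + |1 - S| := by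
            have e : x - p = (x - S • p) - (1 - S) • p := by rw [sub_smul, one_smul]; abel
            rw [e]
            refine (norm_sub_le _ _).trans ?_
            rw [norm_smul, hp, mul_one, Real.norm_eq_abs]
          linarith
        have h4 : (κ : ℝ) * (c / 2) ≤ κ * ‖x - S • p‖ := by gcongr
        push_cast
        linarith
      · rw [pow_succ', Homeomorph.mul_apply, hSe, hT, add_smul]
        abel
  intro B hB ε hε
  obtain ⟨R, hR1, hBR⟩ : ∃ R : ℝ, 1 ≤ R ∧ B ⊆ closedBall 0 R := by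
    obtain ⟨R, hR⟩ := hB.subset_closedBall 0
    exact ⟨max R 1, le_max_right _ _, hR.trans (closedBall_subset_closedBall (le_max_left _ _))⟩
  have hR : 0 < R := by linarith
  have huc : UniformContinuousOn L (closedBall 0 R) :=
    (isCompact_closedBall 0 R).uniformContinuousOn_of_continuous L.continuous.continuousOn
  rw [Metric.uniformContinuousOn_iff] at huc
  obtain ⟨η, hη, huc⟩ := huc (ε / 2) (by linarith)
  set ε' : ℝ := η / (4 * R) with hε'
  have hε'0 : 0 < ε' := by positivity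
  obtain ⟨N, hN⟩ : ∃ N : ℕ, (1 + 2 / ε') / (κ * (c / 2)) < N := exists_nat_gt _
  have hκc : 0 < (κ : ℝ) * (c / 2) := by rw [hκr]; positivity
  have hN' : 1 + 2 / ε' < κ * (c / 2) * N := by
    rw [div_lt_iff₀ hκc] at hN; linarith
  -- normalise
  have hTNc : IsConic (T ^ N : E ≃ₜ E) := hTc.pow N
  obtain ⟨ρ, hρc, hρr, hρ, hρs⟩ := exists_radialPart hTNc
  set t : E ≃ₜ E := T ^ N * ρ⁻¹ with ht
  have htc : IsConic t := hTNc.mul hρc.inv
  have htx : ∀ x, t x = (‖(T ^ N) x‖ * ‖x‖⁻¹)⁻¹ • (T ^ N) x := by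
    intro x
    by_cases hx : x = 0
    · subst hx; rw [htc.map_zero, hTNc.map_zero, smul_zero]
    · have h1 : 0 < ‖x‖ := norm_pos_iff.mpr hx
      have h2 : 0 < ‖(T ^ N) x‖ := norm_pos_iff.mpr (hTNc.ne_zero hx)
      rw [ht, Homeomorph.mul_apply, Homeomorph.inv_apply, hρs, hTNc _ (by positivity)]
  have htn : ∀ x, ‖t x‖ = ‖x‖ := by
    intro x
    by_cases hx : x = 0
    · subst hx; rw [htc.map_zero]
    · have h1 : 0 < ‖x‖ := norm_pos_iff.mpr hx
      have h2 : 0 < ‖(T ^ N) x‖ := norm_pos_iff.mpr (hTNc.ne_zero hx)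
      rw [htx, norm_smul, norm_inv, norm_mul, norm_inv, norm_norm, norm_norm]
      field_simp
  -- compression
  have hcomp : ∀ x : E, ¬ (‖x - ‖x‖ • p‖ < c * ‖x‖) → ‖t x + ‖x‖ • p‖ ≤ ε' * ‖x‖ := by
    intro x hx
    by_cases hx0 : x = 0
    · subst hx0; rw [htc.map_zero]; simp
    have hxn : 0 < ‖x‖ := norm_pos_iff.mpr hx0
    push Not at hx
    set z : E := ‖x‖⁻¹ • x with hz
    have hzn : ‖z‖ = 1 := by
      rw [hz, norm_smul, norm_inv, norm_norm, inv_mul_cancel₀ hxn.ne']
    have hxz : x = ‖x‖ • z := by rw [hz, smul_smul, mul_inv_cancel₀ hxn.ne', one_smul]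
    have hzp : c ≤ ‖z - p‖ := by
      have e : ‖x - ‖x‖ • p‖ = ‖x‖ * ‖z - p‖ := by
        conv_lhs => rw [hxz]
        rw [norm_smul, norm_norm, hzn, mul_one, ← smul_sub, norm_smul, norm_norm]
      rw [e] at hx
      have : ‖x‖ * c ≤ ‖x‖ * ‖z - p‖ := by linarith
      exact le_of_mul_le_mul_left this hxn
    obtain ⟨S, hS, hSe⟩ := hTN z hzn hzp N
    have hS1 : 1 + 2 / ε' < S := hN'.trans_le hS
    have hε2 : 0 < 2 / ε' := by positivity
    have hS0 : 0 < S := by linarith
    have hnS : |‖z - S • p‖ - S| ≤ 1 := by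
      have := abs_norm_sub_norm_le (z - S • p) (-(S • p))
      rw [sub_neg_eq_add, sub_add_cancel, hzn, norm_neg, norm_smul, hp, mul_one, Real.norm_eq_abs,
        abs_of_pos hS0] at this
      exact this
    have hnS' : S - 1 ≤ ‖z - S • p‖ := by linarith [(abs_le.mp hnS).1]
    have hpos : 0 < ‖z - S • p‖ := by linarith
    have htz : t z = ‖z - S • p‖⁻¹ • (z - S • p) := by
      rw [htx, hSe, hzn, inv_one, mul_one]
    have h7 : ‖t z + p‖ ≤ ε' := by
      have e : t z + p = ‖z - S • p‖⁻¹ • (z + (‖z - S • p‖ - S) • p) := by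
        rw [htz, smul_sub, smul_add, sub_smul, smul_sub, smul_smul ‖z - S • p‖⁻¹ ‖z - S • p‖,
          inv_mul_cancel₀ hpos.ne', one_smul]
        abel
      rw [e, norm_smul, norm_inv, norm_norm, inv_mul_le_iff₀ hpos]
      calc ‖z + (‖z - S • p‖ - S) • p‖ ≤ ‖z‖ + ‖(‖z - S • p‖ - S) • p‖ := norm_add_le _ _
        _ = 1 + |‖z - S • p‖ - S| := by rw [hzn, norm_smul, hp, mul_one, Real.norm_eq_abs]
        _ ≤ 2 := by linarith
        _ ≤ ‖z - S • p‖ * ε' := by
            have h8 : 2 / ε' ≤ ‖z - S • p‖ := by linarith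
            rw [div_le_iff₀ hε'0] at h8
            exact h8
    have e2 : t x + ‖x‖ • p = ‖x‖ • (t z + p) := by
      conv_lhs => rw [hxz]
      rw [htc _ hxn, norm_smul, norm_norm, hzn, mul_one, smul_add]
    rw [e2, norm_smul, norm_norm, mul_comm]
    gcongr
  -- group membership
  have hρA : Approximable G ρ := radial_approximable hG hρc hρr
  have hLρL : Approximable G (L * ρ * L⁻¹) := by
    refine radial_approximable hG ((hL.mul hρc).mul hL.inv) fun x => ?_
    obtain ⟨d, hd, hde⟩ := hρr (L.symm x)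
    refine ⟨d, hd, ?_⟩
    simp only [Homeomorph.mul_apply, Homeomorph.inv_apply]
    rw [hde, hL d hd, Homeomorph.apply_symm_apply]
  have hLTNL : Approximable G (L * T ^ N * L⁻¹) := by
    have e : L * T ^ N * L⁻¹ = (L * T * L⁻¹) ^ N := by rw [conj_pow]
    rw [e]; exact (approxSubgroup G).pow_mem hLTL N
  have htA : Approximable G t :=
    ((approxSubgroup G).pow_mem hTA N : Approximable G (T ^ N)).mul hρA.inv
  have hLtL : Approximable G (L * t * L⁻¹) := by
    have e : L * t * L⁻¹ = (L * T ^ N * L⁻¹) * (L * ρ * L⁻¹)⁻¹ := by rw [ht]; group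
    rw [e]; exact hLTNL.mul hLρL.inv
  set a : E ≃ₜ E := (L * t * L⁻¹) * t⁻¹ with ha
  have haA : Approximable G a := hLtL.mul htA.inv
  obtain ⟨g, hg, hgd⟩ := haA B hB (ε / 2) (by linarith)
  refine ⟨g, hg, fun y hy => ?_⟩
  have hyR : ‖y‖ ≤ R := by simpa using hBR hy
  -- compare `a` and `L`
  set x := t.symm y with hx
  have hyx : y = t x := by simp [hx]
  have hxn : ‖x‖ = ‖y‖ := by rw [hyx, htn]
  set x' := L.symm x with hx'
  have hxx' : x = L x' := by simp [hx']
  have hx'n : ‖x'‖ = ‖x‖ := by rw [hxx', hLn]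
  have hay : a y = L (t x') := by
    simp only [ha, Homeomorph.mul_apply, Homeomorph.inv_apply, ← hx, ← hx']
  have hclose : dist (t x') y < η := by
    by_cases hxD : ‖x - ‖x‖ • p‖ < c * ‖x‖
    · have h9 : L x = x := hid x hxD
      have h10 : x' = x := by rw [hx', Homeomorph.symm_apply_eq, h9]
      rw [h10, ← hyx, dist_self]; exact hη
    · have hxD' : ¬ (‖x' - ‖x'‖ • p‖ < c * ‖x'‖) := by
        intro hcon
        have h9 : L x' = x' := hid x' hcon
        rw [← hxx'] at h9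
        rw [← h9] at hcon
        exact hxD hcon
      have h11 := hcomp x hxD
      have h12 := hcomp x' hxD'
      rw [hx'n] at h12
      rw [← hyx] at h11
      calc dist (t x') y = ‖(t x' + ‖x‖ • p) - (y + ‖x‖ • p)‖ := by
            rw [dist_eq_norm]; congr 1; abel
        _ ≤ ‖t x' + ‖x‖ • p‖ + ‖y + ‖x‖ • p‖ := norm_sub_le _ _
        _ ≤ ε' * ‖x‖ + ε' * ‖x‖ := add_le_add h12 h11
        _ ≤ ε' * R + ε' * R := by rw [hxn]; gcongr
        _ = η / 2 := by rw [hε']; field_simp; norm_num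
        _ < η := by linarith
  have htx'R : t x' ∈ closedBall (0 : E) R := by
    rw [mem_closedBall_zero_iff, htn, hx'n, hxn]; exact hyR
  have hyR' : y ∈ closedBall (0 : E) R := by simpa using hyR
  have h13 := huc _ htx'R _ hyR' hclose
  have h14 := hgd y hy
  rw [hay] at h14
  calc dist (g y) (L y) ≤ dist (g y) (L (t x')) + dist (L (t x')) (L y) := dist_triangle _ _ _
    _ < ε / 2 + ε / 2 := add_lt_add h14 h13
    _ = ε := by ring

/-- **Cone theorem**. -/
theorem cone_approximable [ProperSpace E] {G : Subgroup (E ≃ₜ E)} (hG : ContainsSmall G)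
    {L : E ≃ₜ E} (hL : IsConic L)
    (hloc : ∀ y, y ≠ 0 → ∃ a : E ≃ₜ E, Approximable G a ∧ ∀ᶠ z in 𝓝 y, L z = a z)
    {p : E} (hp : ‖p‖ = 1) {c : ℝ} (hc : 0 < c)
    (hid : ∀ x, ‖x - ‖x‖ • p‖ < c * ‖x‖ → L x = x) : Approximable G L := by
  obtain ⟨R, hRc, hRr, hR, hRs⟩ := exists_radialPart hL
  have hRA : Approximable G R := radial_approximable hG hRc hRr
  set L₁ : E ≃ₜ E := L * R⁻¹ with hL₁
  have hL₁c : IsConic L₁ := hL.mul hRc.inv
  have hL₁x : ∀ x, L₁ x = (‖L x‖ * ‖x‖⁻¹)⁻¹ • L x := by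
    intro x
    by_cases hx : x = 0
    · subst hx; rw [hL₁c.map_zero, hL.map_zero, smul_zero]
    · have h1 : 0 < ‖x‖ := norm_pos_iff.mpr hx
      have h2 : 0 < ‖L x‖ := norm_pos_iff.mpr (hL.ne_zero hx)
      rw [hL₁, Homeomorph.mul_apply, Homeomorph.inv_apply, hRs, hL _ (by positivity)]
  have h1 : Approximable G L₁ := by
    refine cone_approximable_of_norm hG hL₁c ?_ ?_ hp hc ?_
    · intro x
      by_cases hx : x = 0
      · subst hx; rw [hL₁c.map_zero]
      · have h1 : 0 < ‖x‖ := norm_pos_iff.mpr hx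
        have h2 : 0 < ‖L x‖ := norm_pos_iff.mpr (hL.ne_zero hx)
        rw [hL₁x, norm_smul, norm_inv, norm_mul, norm_inv, norm_norm, norm_norm]
        field_simp
    · intro y hy
      have hy' : R.symm y ≠ 0 := hRc.inv.ne_zero hy
      obtain ⟨a, ha, hae⟩ := hloc _ hy'
      refine ⟨a * R⁻¹, ha.mul hRA.inv, ?_⟩
      have h2 : Tendsto R.symm (𝓝 y) (𝓝 (R.symm y)) := R.symm.continuous.tendsto y
      filter_upwards [h2.eventually hae] with z hz
      simp only [hL₁, Homeomorph.mul_apply, Homeomorph.inv_apply]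
      exact hz
    · intro x hx
      have h3 := hid x hx
      by_cases hx0 : x = 0
      · subst hx0; exact hL₁c.map_zero
      · have h4 : 0 < ‖x‖ := norm_pos_iff.mpr hx0
        rw [hL₁x, h3, mul_inv_cancel₀ h4.ne', inv_one, one_smul]
  have h2 : L = L₁ * R := by rw [hL₁]; group
  rw [h2]; exact h1.mul hRA

end Pool.Agent.Helper25
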