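import Mathlib

/-!
Definitions for problem MP_0907b2_gt: approximability of homeomorphisms of Euclidean space by
groups generated by coordinate-restricted homeomorphisms.
-/

namespace Pool.Agent.Helper25

open Topology

/-- `h` is approximable by the members of the set `S` of homeomorphisms, uniformly on bounded
sets: for every bounded set `B` and every `ε > 0` there is `g ∈ S` with `dist (g p) (h p) < ε` for
all `p ∈ B`. -/
def ApproximableBy {X : Type*} [PseudoMetricSpace X] (S : Set (X ≃ₜ X)) (h : X ≃ₜ X) : Prop :=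
  ∀ B : Set X, Bornology.IsBounded B → ∀ ε : ℝ, 0 < ε → ∃ g ∈ S, ∀ p ∈ B, dist (g p) (h p) < ε

/-- The set of all homeomorphisms of `E^n` changing only one coordinate. -/
def oneCoordinate (n : ℕ) : Set (EuclideanSpace ℝ (Fin n) ≃ₜ EuclideanSpace ℝ (Fin n)) :=
  {h | ∃ i : Fin n, ∀ x : EuclideanSpace ℝ (Fin n), ∀ j : Fin n, j ≠ i → h x j = x j}

/-- The group generated by the homeomorphisms of `E^n` changing only one coordinate (type A). -/
def groupA (n : ℕ) : Subgroup (EuclideanSpace ℝ (Fin n) ≃ₜ EuclideanSpace ℝ (Fin n)) :=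
  Subgroup.closure (oneCoordinate n)

/-- The set of all homeomorphisms of `E^3` of the form
`(x, y, z) ↦ (f (y, z), g (x, z), k (x, y))` with `f`, `g`, `k` continuous. -/
def zeroDiagonal : Set (EuclideanSpace ℝ (Fin 3) ≃ₜ EuclideanSpace ℝ (Fin 3)) :=
  {h | ∃ f g k : ℝ × ℝ → ℝ, Continuous f ∧ Continuous g ∧ Continuous k ∧
    ∀ p : EuclideanSpace ℝ (Fin 3),
      h p 0 = f (p 1, p 2) ∧ h p 1 = g (p 0, p 2) ∧ h p 2 = k (p 0, p 1)}

/-- The group generated by the type B homeomorphisms of `E^3`. -/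
def groupB : Subgroup (EuclideanSpace ℝ (Fin 3) ≃ₜ EuclideanSpace ℝ (Fin 3)) :=
  Subgroup.closure zeroDiagonal

/-- A map is piecewise linear if near every point it coincides at each point with one of finitely
many affine maps. -/
def IsPiecewiseLinear {V : Type*} [NormedAddCommGroup V] [NormedSpace ℝ V] (h : V → V) : Prop :=
  ∀ x : V, ∃ U ∈ 𝓝 x, ∃ S : Set (V →ᵃ[ℝ] V), S.Finite ∧ ∀ y ∈ U, ∃ A ∈ S, h y = A y

end Pool.Agent.Helper25
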