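import Pool.Agent.Helper25.Local

/-!
Homeomorphisms which are locally Lipschitz-small perturbations of linear isomorphisms, in
particular `C¹` diffeomorphisms, are approximable.
-/

open Set Metric Topology Filter
open scoped NNReal

namespace Pool.Agent.Helper25

variable {E : Type*} [NormedAddCommGroup E] [NormedSpace ℝ E] [FiniteDimensional ℝ E]

/-- The group contains all invertible linear maps. -/
def ContainsLinear (G : Subgroup (E ≃ₜ E)) : Prop := ∀ A : E ≃L[ℝ] E, A.toHomeomorph ∈ G

/-- If `h` is strictly differentiable at `x` with invertible derivative then `h` coincides near `x`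
with an element of `G`. -/
theorem eventually_eq_mem_of_hasStrictFDerivAt {G : Subgroup (E ≃ₜ E)} (hG : ContainsSmall G)
    (hL : ContainsLinear G) {h : E → E} {A : E ≃L[ℝ] E} {x : E}
    (hx : HasStrictFDerivAt h (A : E →L[ℝ] E) x) : ∃ g ∈ G, ∀ᶠ y in 𝓝 x, g y = h y := by
  obtain ⟨κ, hκ, hsmall⟩ := hG
  set C : ℝ≥0 := lipschitzExtensionConstant E * ‖(A.symm : E →L[ℝ] E)‖₊ with hC
  set c : ℝ≥0 := min κ (1 / 2) / (C + 1) with hc
  have hc0 : 0 < c := by positivity
  have hCc : C * c ≤ min κ (1 / 2) := by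
    rw [hc, mul_div_assoc']
    rw [div_le_iff₀ (by positivity)]
    rw [mul_comm]
    gcongr
    exact le_self_add
  obtain ⟨s, hs, happ⟩ := hx.approximates_deriv_on_nhds (c := c) (Or.inr hc0)
  have hu : LipschitzOnWith (‖(A.symm : E →L[ℝ] E)‖₊ * c) (fun y => A.symm (h y) - y) s := by
    refine LipschitzOnWith.of_dist_le_mul fun y hy z hz => ?_
    have h1 := happ y hy z hz
    rw [dist_eq_norm, dist_eq_norm]
    have e : A.symm (h y) - y - (A.symm (h z) - z) =
        (A.symm : E →L[ℝ] E) (h y - h z - (A : E →L[ℝ] E) (y - z)) := by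
      simp only [ContinuousLinearEquiv.coe_coe, map_sub, ContinuousLinearEquiv.symm_apply_apply]
      abel
    rw [e]
    refine (ContinuousLinearMap.le_opNorm _ _).trans ?_
    push_cast
    rw [mul_assoc]
    gcongr
    exact h1
  obtain ⟨u, huL, hus⟩ := hu.extend_finite_dimension
  have huL' : LipschitzWith (min κ (1 / 2)) u := by
    refine huL.weaken ?_
    rw [← mul_assoc]; exact hCc
  have h1 : min κ (1 / 2) < 1 := lt_of_le_of_lt (min_le_right _ _) (by
    rw [← NNReal.coe_lt_coe]; norm_num)
  obtain ⟨t, ht⟩ := exists_homeo_add h1 huL'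
  have htG : t ∈ G := by
    apply hsmall
    have : (fun x => t x - x) = u := by
      funext y; rw [ht]; abel
    rw [this]; exact huL'.weaken (min_le_left _ _)
  refine ⟨A.toHomeomorph * t, G.mul_mem (hL A) htG, ?_⟩
  filter_upwards [hs] with y hy
  rw [Homeomorph.mul_apply, ht, ← hus hy]
  change A (y + (A.symm (h y) - y)) = h y
  rw [add_sub_cancel, ContinuousLinearEquiv.apply_symm_apply]

/-- A homeomorphism with invertible strict derivative everywhere is approximable. -/
theorem approximable_of_hasStrictFDerivAt {G : Subgroup (E ≃ₜ E)} (hG : ContainsSmall G)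
    (hL : ContainsLinear G) {h : E ≃ₜ E}
    (hd : ∀ x, ∃ A : E ≃L[ℝ] E, HasStrictFDerivAt h (A : E →L[ℝ] E) x) : Approximable G h := by
  haveI : ProperSpace E := FiniteDimensional.proper ℝ E
  refine approximable_of_local hG fun x => ?_
  obtain ⟨A, hA⟩ := hd x
  obtain ⟨g, hg, he⟩ := eventually_eq_mem_of_hasStrictFDerivAt hG hL hA
  refine ⟨{y | g y = h y}, he, fun ε hε => ⟨g, hg, fun p hp => ?_⟩⟩
  rw [show g p = h p from hp, dist_self]; exact hε

/-- A `C¹` diffeomorphism is approximable. -/
theorem approximable_of_contDiff {G : Subgroup (E ≃ₜ E)} (hG : ContainsSmall G)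
    (hL : ContainsLinear G) {h : E ≃ₜ E} (h1 : ContDiff ℝ 1 h) (h2 : ContDiff ℝ 1 h.symm) :
    Approximable G h := by
  refine approximable_of_hasStrictFDerivAt hG hL fun x => ?_
  have hs := h1.contDiffAt.hasStrictFDerivAt (x := x) one_ne_zero
  have hs' := h2.contDiffAt.hasStrictFDerivAt (x := h x) one_ne_zero
  have c1 : (fderiv ℝ h.symm (h x)).comp (fderiv ℝ h x) = ContinuousLinearMap.id ℝ E := by
    have := (hs'.hasFDerivAt.comp x hs.hasFDerivAt)
    have e : (h.symm ∘ h : E → E) = id := by funext y; simp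
    rw [e] at this
    exact this.unique (hasFDerivAt_id x)
  have c2 : (fderiv ℝ h x).comp (fderiv ℝ h.symm (h x)) = ContinuousLinearMap.id ℝ E := by
    have hs'' : HasFDerivAt h (fderiv ℝ h x) (h.symm (h x)) := by simpa using hs.hasFDerivAt
    have := (hs''.comp (h x) hs'.hasFDerivAt)
    have e : (h ∘ h.symm : E → E) = id := by funext y; simp
    rw [e] at this
    exact this.unique (hasFDerivAt_id (h x))
  refine ⟨ContinuousLinearEquiv.equivOfInverse (fderiv ℝ h x) (fderiv ℝ h.symm (h x)) ?_ ?_, ?_⟩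
  · intro v; exact DFunLike.congr_fun c1 v
  · intro v; exact DFunLike.congr_fun c2 v
  · convert hs using 1
    exact ContinuousLinearMap.ext fun v => rfl

end Pool.Agent.Helper25
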