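import Pool.Agent.Helper25.Small

/-!
Fragmentation: if `h` is locally approximable at all points of a compact set `K` then `h s h⁻¹` is
approximable for all sufficiently small `s` supported near `K`.
-/

open Set Metric Topology Filter
open scoped NNReal

namespace Pool.Agent.Helper25

variable {E : Type*} [NormedAddCommGroup E] [NormedSpace ℝ E] [ProperSpace E]

/-- Conjugating an element `s ∈ G` supported in a ball near which `h` is approximable. -/
theorem conj_approximable {G : Subgroup (E ≃ₜ E)} {h : E ≃ₜ E} {x₀ : E} {r : ℝ} (hr : 0 < r)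
    (hh : ApproxOn G h (closedBall x₀ (4 * r))) {s : E ≃ₜ E} (hs : s ∈ G)
    (hsupp : ∀ x, x ∉ closedBall x₀ r → s x = x) : Approximable G (h * s * h⁻¹) := by
  intro B _ ε hε
  -- `s` preserves the ball of radius `r`
  have hs1 : ∀ x ∈ closedBall x₀ r, s x ∈ closedBall x₀ r := by
    intro x hx
    by_contra hcon
    have h1 := hsupp _ hcon
    have h2 : s x = x := s.injective h1
    rw [h2] at hcon
    exact hcon hx
  have hs3 : ∀ x ∈ closedBall x₀ (3 * r), s x ∈ closedBall x₀ (3 * r) := by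
    intro x hx
    by_cases hx' : x ∈ closedBall x₀ r
    · exact closedBall_subset_closedBall (by linarith) (hs1 x hx')
    · rw [hsupp x hx']; exact hx
  have huc : UniformContinuousOn (fun x => h (s x)) (closedBall x₀ (3 * r)) :=
    (isCompact_closedBall x₀ (3 * r)).uniformContinuousOn_of_continuous
      (h.continuous.comp s.continuous).continuousOn
  rw [Metric.uniformContinuousOn_iff] at huc
  obtain ⟨η, hη, huc⟩ := huc (ε / 2) (by linarith)
  obtain ⟨δ₁, hδ₁, hd₁⟩ := inv_close_local h x₀ (ρ := 2 * r) (r := 3 * r) (ε := min η r)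
    (lt_min hη hr) (by linarith [min_le_right η r])
  have hopen : IsOpen (h '' ball x₀ (2 * r)) := h.isOpenMap _ isOpen_ball
  have hcomp : IsCompact (h '' closedBall x₀ r) := (isCompact_closedBall x₀ r).image h.continuous
  obtain ⟨δ₂, hδ₂, hd₂⟩ := hcomp.exists_thickening_subset_open hopen
    (image_mono (closedBall_subset_ball (by linarith)))
  obtain ⟨g, hg, hgd⟩ := hh (min (min δ₁ δ₂) (ε / 2)) (lt_min (lt_min hδ₁ hδ₂) (by linarith))
  refine ⟨g * s * g⁻¹, G.mul_mem (G.mul_mem hg hs) (G.inv_mem hg), fun y _ => ?_⟩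
  set w := h.symm y with hw
  set z := g.symm y with hz
  have hyw : h w = y := by simp [hw]
  have hyz : g z = y := by simp [hz]
  have hgoal : dist (g (s z)) (h (s w)) < ε := by
    by_cases hw2 : w ∈ closedBall x₀ (2 * r)
    · have h1 : dist z w < min η r := by
        have := hd₁ g (fun x hx => lt_of_lt_of_le
          (hgd x (closedBall_subset_closedBall (by linarith) hx))
          ((min_le_left _ _).trans (min_le_left _ _))) w hw2
        rwa [hyw] at this
      have hw3 : w ∈ closedBall x₀ (3 * r) := closedBall_subset_closedBall (by linarith) hw2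
      have hz3 : z ∈ closedBall x₀ (3 * r) := by
        rw [mem_closedBall] at hw2 ⊢
        calc dist z x₀ ≤ dist z w + dist w x₀ := dist_triangle _ _ _
          _ ≤ r + 2 * r := add_le_add (h1.le.trans (min_le_right _ _)) hw2
          _ = 3 * r := by ring
      have h2 := huc z hz3 w hw3 (lt_of_lt_of_le h1 (min_le_left _ _))
      have h3 : dist (g (s z)) (h (s z)) < ε / 2 :=
        lt_of_lt_of_le (hgd _ (closedBall_subset_closedBall (by linarith) (hs3 z hz3)))
          (min_le_right _ _)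
      calc dist (g (s z)) (h (s w)) ≤ dist (g (s z)) (h (s z)) + dist (h (s z)) (h (s w)) :=
            dist_triangle _ _ _
        _ < ε / 2 + ε / 2 := add_lt_add h3 h2
        _ = ε := by ring
    · have hw1 : w ∉ closedBall x₀ r := fun hc =>
        hw2 (closedBall_subset_closedBall (by linarith) hc)
      rw [hsupp w hw1, hyw]
      by_cases hz1 : z ∈ closedBall x₀ r
      · exfalso
        have h1 : dist (g z) (h z) < δ₂ :=
          lt_of_lt_of_le (hgd _ (closedBall_subset_closedBall (by linarith) hz1))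
            ((min_le_left _ _).trans (min_le_right _ _))
        have h2 : y ∈ thickening δ₂ (h '' closedBall x₀ r) := by
          rw [mem_thickening_iff]
          exact ⟨h z, mem_image_of_mem _ hz1, by rw [← hyz]; exact h1⟩
        obtain ⟨w', hw', hw'y⟩ := hd₂ h2
        have : w' = w := h.injective (by rw [hw'y, hyw])
        rw [this] at hw'
        exact hw2 (ball_subset_closedBall hw')
      · rw [hsupp z hz1, hyz, dist_self]; exact hε
  simpa [hw, hz] using hgoal

/-- `h s h⁻¹` is approximable for all small `s` supported near `S`. -/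
def FragGood (G : Subgroup (E ≃ₜ E)) (h : E ≃ₜ E) (S : Set E) : Prop :=
  ∃ δ : ℝ, 0 < δ ∧ ∃ κ : ℝ≥0, 0 < κ ∧ ∀ s : E ≃ₜ E, LipschitzWith κ (fun x => s x - x) →
    (∀ x, ‖s x - x‖ ≤ κ) → (∀ x, x ∉ thickening δ S → s x = x) → Approximable G (h * s * h⁻¹)

theorem FragGood.mono {G : Subgroup (E ≃ₜ E)} {h : E ≃ₜ E} {S T : Set E} (hST : S ⊆ T)
    (hT : FragGood G h T) : FragGood G h S := by
  obtain ⟨δ, hδ, κ, hκ, hs⟩ := hT
  exact ⟨δ, hδ, κ, hκ, fun s h1 h2 h3 => hs s h1 h2
    (fun x hx => h3 x (fun hc => hx (thickening_subset_of_subset δ hST hc)))⟩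

theorem FragGood.empty {G : Subgroup (E ≃ₜ E)} {h : E ≃ₜ E} : FragGood G h ∅ := by
  refine ⟨1, one_pos, 1, one_pos, fun s _ _ h3 => ?_⟩
  have : s = 1 := by
    ext x; simpa using h3 x (by simp)
  rw [this]
  simpa using approximable_of_mem G.one_mem

omit [NormedSpace ℝ E] [ProperSpace E] in
/-- Lipschitz constant of a product of a bounded Lipschitz scalar function and a bounded Lipschitz
vector function. -/
theorem lipschitz_smul [NormedSpace ℝ E] {χ : E → ℝ} {u : E → E} {a b c : ℝ≥0} {C : ℝ≥0}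
    (hχ : LipschitzWith a χ) (hχb : ∀ x, |χ x| ≤ b) (hu : LipschitzWith c u)
    (hub : ∀ x, ‖u x‖ ≤ C) : LipschitzWith (b * c + a * C) (fun x => χ x • u x) := by
  refine LipschitzWith.of_dist_le_mul fun x y => ?_
  have h1 := hχ.dist_le_mul x y
  have h2 := hu.dist_le_mul x y
  rw [Real.dist_eq] at h1
  rw [dist_eq_norm] at h2
  rw [dist_eq_norm]
  have e : χ x • u x - χ y • u y = χ x • (u x - u y) + (χ x - χ y) • u y := by
    rw [smul_sub, sub_smul]; abel
  rw [e]
  push_cast
  calc ‖χ x • (u x - u y) + (χ x - χ y) • u y‖ ≤ ‖χ x • (u x - u y)‖ + ‖(χ x - χ y) • u y‖ :=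
        norm_add_le _ _
    _ = |χ x| * ‖u x - u y‖ + |χ x - χ y| * ‖u y‖ := by
        rw [norm_smul, norm_smul, Real.norm_eq_abs, Real.norm_eq_abs]
    _ ≤ b * (c * dist x y) + (a * dist x y) * C := by
        gcongr
        · exact hχb x
        · exact hub y
    _ = (b * c + a * C) * dist x y := by ring

theorem FragGood.union {G : Subgroup (E ≃ₜ E)} {h : E ≃ₜ E} {S T : Set E}
    (hS : FragGood G h S) (hT : FragGood G h T) : FragGood G h (S ∪ T) := by
  rcases S.eq_empty_or_nonempty with rfl | hSne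
  · simpa using hT
  obtain ⟨δ₁, hδ₁, κ₁, hκ₁, hs₁⟩ := hS
  obtain ⟨δ₂, hδ₂, κ₂, hκ₂, hs₂⟩ := hT
  obtain ⟨d, hd, hd1, hd2⟩ : ∃ d : ℝ≥0, 0 < d ∧ (2 * d : ℝ) ≤ δ₁ ∧ (2 * d : ℝ) ≤ δ₂ := by
    refine ⟨⟨min δ₁ δ₂ / 2, by positivity⟩, ?_, ?_, ?_⟩
    · exact_mod_cast (by positivity : (0:ℝ) < min δ₁ δ₂ / 2)
    · change 2 * (min δ₁ δ₂ / 2) ≤ δ₁
      linarith [min_le_left δ₁ δ₂]
    · change 2 * (min δ₁ δ₂ / 2) ≤ δ₂
      linarith [min_le_right δ₁ δ₂]
  -- choose `κ`
  obtain ⟨κ, hκ, hκa, hκb, hκc, hκd, hκe⟩ : ∃ κ : ℝ≥0, 0 < κ ∧ (1 * κ + d⁻¹ * κ) ≤ κ₁ ∧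
      2 * (1 * κ + d⁻¹ * κ) ≤ κ₂ ∧ 2 * (1 * κ + d⁻¹ * κ) ≤ 1 ∧ κ ≤ κ₁ ∧ κ < d ∧ κ ≤ κ₂ := by
    have hpos : 0 < 1 + d⁻¹ := by positivity
    refine ⟨min (min κ₁ κ₂) (min 1 d) / (2 * (1 + d⁻¹)) , by positivity, ?_, ?_, ?_, ?_, ?_⟩
    · have : (1 * (min (min κ₁ κ₂) (min 1 d) / (2 * (1 + d⁻¹))) +
        d⁻¹ * (min (min κ₁ κ₂) (min 1 d) / (2 * (1 + d⁻¹)))) =
          min (min κ₁ κ₂) (min 1 d) / 2 := by field_simp
      rw [this]
      calc min (min κ₁ κ₂) (min 1 d) / 2 ≤ min (min κ₁ κ₂) (min 1 d) := half_le_self zero_le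
        _ ≤ κ₁ := (min_le_left _ _).trans (min_le_left _ _)
    · have : 2 * (1 * (min (min κ₁ κ₂) (min 1 d) / (2 * (1 + d⁻¹))) +
        d⁻¹ * (min (min κ₁ κ₂) (min 1 d) / (2 * (1 + d⁻¹)))) =
          min (min κ₁ κ₂) (min 1 d) := by field_simp
      rw [this]
      exact (min_le_left _ _).trans (min_le_right _ _)
    · have : 2 * (1 * (min (min κ₁ κ₂) (min 1 d) / (2 * (1 + d⁻¹))) +
        d⁻¹ * (min (min κ₁ κ₂) (min 1 d) / (2 * (1 + d⁻¹)))) =
          min (min κ₁ κ₂) (min 1 d) := by field_simp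
      rw [this]
      exact (min_le_right _ _).trans (min_le_left _ _)
    · calc min (min κ₁ κ₂) (min 1 d) / (2 * (1 + d⁻¹)) ≤ min (min κ₁ κ₂) (min 1 d) := by
            apply div_le_self zero_le
            have : (1 : ℝ≥0) ≤ 1 + d⁻¹ := le_self_add
            nlinarith
        _ ≤ κ₁ := (min_le_left _ _).trans (min_le_left _ _)
    · have h1 : min (min κ₁ κ₂) (min 1 d) / (2 * (1 + d⁻¹)) ≤ min (min κ₁ κ₂) (min 1 d) / 2 := by
        apply div_le_div_of_nonneg_left zero_le (by norm_num)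
        have : (1 : ℝ≥0) ≤ 1 + d⁻¹ := le_self_add
        nlinarith
      have hm : 0 < min (min κ₁ κ₂) (min 1 d) := by positivity
      constructor
      · calc _ ≤ _ := h1
          _ < min (min κ₁ κ₂) (min 1 d) := half_lt_self hm
          _ ≤ d := (min_le_right _ _).trans (min_le_right _ _)
      · calc _ ≤ _ := h1
          _ ≤ min (min κ₁ κ₂) (min 1 d) := half_le_self zero_le
          _ ≤ κ₂ := (min_le_left _ _).trans (min_le_right _ _)
  set k : ℝ≥0 := 1 * κ + d⁻¹ * κ with hk
  have hk1 : k ≤ 1 / 2 := by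
    have : 2 * k ≤ 1 := hκc
    rw [le_div_iff₀ (by norm_num)]; rwa [mul_comm]
  have hk1' : k < 1 := lt_of_le_of_lt hk1 (by
    rw [← NNReal.coe_lt_coe]; norm_num)
  refine ⟨d, by exact_mod_cast hd, κ, hκ, fun s h1 h2 h3 => ?_⟩
  -- the cutoff function
  set S₁ : Set E := thickening d S with hS₁
  have hS₁ne : S₁.Nonempty := hSne.mono (self_subset_thickening (by exact_mod_cast hd) S)
  set χ : E → ℝ := fun x => max 0 (1 - infDist x S₁ / d) with hχ
  have hdR : (0 : ℝ) < d := by exact_mod_cast hd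
  have hχL : LipschitzWith d⁻¹ χ := by
    have h4 : LipschitzWith d⁻¹ (fun x : E => 1 - infDist x S₁ / d) := by
      refine LipschitzWith.of_dist_le_mul fun x y => ?_
      have := (lipschitz_infDist_pt S₁).dist_le_mul x y
      rw [Real.dist_eq] at this ⊢
      have e : 1 - infDist x S₁ / d - (1 - infDist y S₁ / d) =
        -((infDist x S₁ - infDist y S₁) / d) := by ring
      rw [e, abs_neg, abs_div, abs_of_pos hdR]
      rw [div_le_iff₀ hdR]
      push_cast
      have h5 : (d : ℝ)⁻¹ * dist x y * d = dist x y := by field_simp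
      rw [h5]
      simpa using this
    exact (LipschitzWith.const_max h4 0)
  have hχ0 : ∀ x, 0 ≤ χ x := fun x => le_max_left _ _
  have hχ1 : ∀ x, χ x ≤ 1 := by
    intro x
    apply max_le zero_le_one
    have : 0 ≤ infDist x S₁ / d := div_nonneg infDist_nonneg hdR.le
    linarith
  have hχS : ∀ x ∈ S₁, χ x = 1 := by
    intro x hx
    simp [hχ, infDist_zero_of_mem hx]
  have hχsupp : ∀ x, χ x ≠ 0 → x ∈ thickening δ₁ S := by
    intro x hx
    have h4 : infDist x S₁ < d := by
      by_contra hcon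
      push Not at hcon
      apply hx
      have : 1 ≤ infDist x S₁ / d := by rw [le_div_iff₀ hdR]; simpa using hcon
      simp only [hχ]
      rw [max_eq_left]
      linarith
    rw [infDist_lt_iff hS₁ne] at h4
    obtain ⟨y, hy, hxy⟩ := h4
    rw [hS₁, mem_thickening_iff] at hy
    obtain ⟨z, hz, hyz⟩ := hy
    rw [mem_thickening_iff]
    refine ⟨z, hz, ?_⟩
    calc dist x z ≤ dist x y + dist y z := dist_triangle _ _ _
      _ < d + d := add_lt_add hxy hyz
      _ = 2 * d := by ring
      _ ≤ δ₁ := hd1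
  set u : E → E := fun x => s x - x with hu
  have hL1 : LipschitzWith k (fun x => χ x • u x) := by
    refine lipschitz_smul hχL (b := 1) (fun x => ?_) h1 h2
    rw [abs_of_nonneg (hχ0 x)]; simpa using hχ1 x
  have hL2 : LipschitzWith k (fun x => (1 - χ x) • u x) := by
    refine lipschitz_smul (a := d⁻¹) (b := 1) ?_ (fun x => ?_) h1 h2
    · have h4 : LipschitzWith (0 + d⁻¹) (fun x => (1 : ℝ) - χ x) := (LipschitzWith.const 1).sub hχL
      simpa using h4
    · rw [abs_of_nonneg (by linarith [hχ1 x])]; simpa using hχ0 x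
  obtain ⟨s₁, hs₁e⟩ := exists_homeo_add hk1' hL1
  -- first factor
  have hA : Approximable G (h * s₁ * h⁻¹) := by
    refine hs₁ s₁ ?_ ?_ ?_
    · have e : (fun x => s₁ x - x) = fun x => χ x • u x := by
        funext x; rw [hs₁e]; abel
      rw [e]
      exact hL1.weaken hκa
    · intro x
      have e : s₁ x - x = χ x • u x := by rw [hs₁e]; abel
      rw [e, norm_smul, Real.norm_eq_abs, abs_of_nonneg (hχ0 x)]
      calc χ x * ‖u x‖ ≤ 1 * κ := mul_le_mul (hχ1 x) (h2 x) (norm_nonneg _) zero_le_one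
        _ = κ := one_mul _
        _ ≤ κ₁ := by exact_mod_cast hκd
    · intro x hx
      have h4 : χ x = 0 := by
        by_contra hc; exact hx (hχsupp x hc)
      rw [hs₁e, h4, zero_smul, add_zero]
  -- second factor
  set s₂ : E ≃ₜ E := s * s₁⁻¹ with hs₂e
  have hdisp : ∀ x, s₂ (s₁ x) - s₁ x = (1 - χ x) • u x := by
    intro x
    simp only [hs₂e, Homeomorph.mul_apply, Homeomorph.inv_apply, Homeomorph.symm_apply_apply]
    rw [hs₁e, sub_smul, one_smul]
    calc s x - (x + χ x • u x) = (s x - x) - χ x • u x := by abel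
      _ = u x - χ x • u x := rfl
  have hdisp' : (fun y => s₂ y - y) = fun y => (1 - χ (s₁.symm y)) • u (s₁.symm y) := by
    funext y
    have := hdisp (s₁.symm y)
    rwa [Homeomorph.apply_symm_apply] at this
  have hs₁small : LipschitzWith k (fun x => s₁ x - x) := by
    have e : (fun x => s₁ x - x) = fun x => χ x • u x := by
      funext x; rw [hs₁e]; abel
    rw [e]; exact hL1
  have hinv := lipschitz_symm_of_small hk1' hs₁small
  have hB : Approximable G (h * s₂ * h⁻¹) := by
    refine hs₂ s₂ ?_ ?_ ?_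
    · rw [hdisp']
      have h5 := hL2.comp hinv
      refine LipschitzWith.weaken h5 ?_
      have h6 : (1 - k)⁻¹ ≤ 2 := by
        have h7 : (2 : ℝ≥0)⁻¹ ≤ 1 - k := by
          rw [← NNReal.coe_le_coe, NNReal.coe_sub hk1'.le]
          have : (k : ℝ) ≤ 1 / 2 := by exact_mod_cast hk1
          push_cast
          linarith
        exact inv_le_of_inv_le₀ (by norm_num) h7
      calc k * (1 - k)⁻¹ ≤ k * 2 := mul_le_mul_right h6 k
        _ = 2 * k := mul_comm _ _
        _ ≤ κ₂ := hκb
    · intro y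
      have hy2 : s₂ y - y = (1 - χ (s₁.symm y)) • u (s₁.symm y) := congrFun hdisp' y
      rw [hy2, norm_smul, Real.norm_eq_abs,
        abs_of_nonneg (by linarith [hχ1 (s₁.symm y)])]
      calc (1 - χ (s₁.symm y)) * ‖u (s₁.symm y)‖ ≤ 1 * κ :=
            mul_le_mul (by linarith [hχ0 (s₁.symm y)]) (h2 _) (norm_nonneg _) zero_le_one
        _ = κ := one_mul _
        _ ≤ κ₂ := by exact_mod_cast hκe.2
    · intro y hy
      by_contra hne
      apply hy
      set x := s₁.symm y with hx
      have hyx : y = s₁ x := by simp [hx]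
      have h5 : (1 - χ x) • u x ≠ 0 := by
        rw [← hdisp x, ← hyx]
        exact sub_ne_zero.mpr hne
      have h6 : u x ≠ 0 := fun hc => h5 (by rw [hc, smul_zero])
      have h7 : χ x ≠ 1 := fun hc => h5 (by rw [hc, sub_self, zero_smul])
      have h8 : x ∈ thickening d (S ∪ T) := by
        by_contra hc
        exact h6 (by simp [hu, h3 x hc])
      rw [thickening_union] at h8
      have h9 : x ∈ thickening d T := by
        rcases h8 with h8 | h8
        · exact absurd (hχS x h8) h7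
        · exact h8
      rw [mem_thickening_iff] at h9 ⊢
      obtain ⟨z, hz, hxz⟩ := h9
      refine ⟨z, hz, ?_⟩
      have h10 : dist y x ≤ κ := by
        rw [hyx, hs₁e, dist_eq_norm, add_sub_cancel_left, norm_smul, Real.norm_eq_abs,
          abs_of_nonneg (hχ0 x)]
        calc χ x * ‖u x‖ ≤ 1 * κ := mul_le_mul (hχ1 x) (h2 x) (norm_nonneg _) zero_le_one
          _ = κ := one_mul _
      have h11 : (κ : ℝ) < d := by exact_mod_cast hκe.1
      calc dist y z ≤ dist y x + dist x z := dist_triangle _ _ _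
        _ < d + d := add_lt_add (lt_of_le_of_lt h10 h11) hxz
        _ = 2 * d := by ring
        _ ≤ δ₂ := hd2
  have hfin : h * s * h⁻¹ = (h * s₂ * h⁻¹) * (h * s₁ * h⁻¹) := by
    rw [hs₂e]; group
  rw [hfin]
  exact hB.mul hA

/-- Fragmentation lemma. -/
theorem fragGood_of_compact {G : Subgroup (E ≃ₜ E)} (hG : ContainsSmall G) {h : E ≃ₜ E}
    {K : Set E} (hK : IsCompact K) (hloc : ∀ x ∈ K, ∃ U ∈ 𝓝 x, ApproxOn G h U) :
    FragGood G h K := by
  obtain ⟨κ, hκ, hsmall⟩ := hG
  refine hK.induction_on (p := fun S => FragGood G h S) FragGood.empty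
    (fun S T hST hT => hT.mono hST) (fun S T hS hT => hS.union hT) ?_
  intro x hx
  obtain ⟨U, hU, hUa⟩ := hloc x hx
  obtain ⟨R, hR, hRU⟩ := Metric.mem_nhds_iff.mp hU
  set r : ℝ := R / 8 with hr
  have hr0 : 0 < r := by positivity
  refine ⟨ball x (r / 2), mem_nhdsWithin_of_mem_nhds (ball_mem_nhds x (by positivity)), r / 2,
    by positivity, κ, hκ, fun s h1 _ h3 => ?_⟩
  refine conj_approximable (x₀ := x) hr0 (hUa.mono ?_) (hsmall s h1) ?_
  · refine (closedBall_subset_ball ?_).trans hRU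
    rw [hr]; linarith
  · intro y hy
    apply h3
    intro hc
    apply hy
    have hc' := Metric.thickening_ball x (r / 2) (r / 2) hc
    rw [add_halves] at hc'
    exact ball_subset_closedBall hc'

end Pool.Agent.Helper25
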