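import Pool.Agent.Helper25.ConeThm

/-!
Germs of piecewise linear homeomorphisms are conical.
-/

open Set Metric Topology Filter
open scoped NNReal

namespace Pool.Agent.Helper25

variable {E : Type*} [NormedAddCommGroup E] [NormedSpace ℝ E]

/-- a map coinciding at each point with one of finitely many linear maps -/
def IsSelection (L : E → E) : Prop :=
  ∃ S : Set (E →ₗ[ℝ] E), S.Finite ∧ ∀ x, ∃ A ∈ S, L x = A x

theorem IsSelection.isPiecewiseLinear {L : E → E} (hL : IsSelection L) : IsPiecewiseLinear L := by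
  obtain ⟨S, hS, h⟩ := hL
  intro x
  refine ⟨univ, univ_mem, (fun A : E →ₗ[ℝ] E => A.toAffineMap) '' S, hS.image _, fun y _ => ?_⟩
  obtain ⟨A, hA, hy⟩ := h y
  exact ⟨A.toAffineMap, mem_image_of_mem _ hA, by simpa using hy⟩

variable [FiniteDimensional ℝ E]

theorem local_selection {h : E ≃ₜ E} (hh : IsPiecewiseLinear h) (x : E) :
    ∃ r > 0, ∃ S : Set (E →ₗ[ℝ] E), S.Finite ∧
      ∀ v : E, ‖v‖ < r → ∃ B ∈ S, h (x + v) - h x = B v := by
  obtain ⟨U, hU, S, hS, hsel⟩ := hh x
  have h1 : ∀ᶠ y in 𝓝 x, ∀ A ∈ {A | A ∈ S ∧ A x ≠ h x}, h y ≠ A y := by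
    rw [eventually_all_finite (hS.subset fun A hA => hA.1)]
    rintro A ⟨_, hA⟩
    have hc : Continuous A := A.continuous_of_finiteDimensional
    have h2 : ∀ᶠ y in 𝓝 x, h y - A y ≠ 0 := by
      apply ContinuousAt.eventually_ne
      · exact (h.continuous.sub hc).continuousAt
      · exact sub_ne_zero.mpr hA.symm
    filter_upwards [h2] with y hy
    exact sub_ne_zero.mp hy
  obtain ⟨r, hr, hr'⟩ := Metric.eventually_nhds_iff_ball.mp (h1.and (eventually_mem_set.mpr hU))
  refine ⟨r, hr, (fun A : E →ᵃ[ℝ] E => A.linear) '' S, hS.image _, fun v hv => ?_⟩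
  obtain ⟨h3, h4⟩ := hr' (x + v) (by simpa [mem_ball, dist_eq_norm] using hv)
  obtain ⟨A, hA, hAe⟩ := hsel _ h4
  refine ⟨A.linear, mem_image_of_mem _ hA, ?_⟩
  have h5 : A x = h x := by
    by_contra hne
    exact h3 A ⟨hA, hne⟩ hAe
  have h6 : A (x + v) = A.linear v + A x := by
    have := A.map_vadd x v
    simpa [vadd_eq_add, add_comm] using this
  rw [hAe, h6, h5, add_sub_cancel_right]

omit [FiniteDimensional ℝ E] in
/-- A continuous selection of finitely many linear maps on a ball is positively homogeneous. -/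
theorem homogeneous_of_selection {q : E → E} (hq : Continuous q) {r : ℝ}
    {S : Set (E →ₗ[ℝ] E)} (hS : S.Finite) (hsel : ∀ v : E, ‖v‖ < r → ∃ B ∈ S, q v = B v)
    {v : E} (hv : ‖v‖ < r) {t : ℝ} (ht : 0 < t) (ht1 : t ≤ 1) : q (t • v) = t • q v := by
  set τ : ℝ → E := fun s => s⁻¹ • q (s • v) with hτ
  have hcont : ContinuousOn τ (Ioc 0 1) := by
    intro s hs
    apply ContinuousAt.continuousWithinAt
    have h1 : ContinuousAt (fun s : ℝ => s⁻¹) s := continuousAt_inv₀ hs.1.ne'
    exact h1.smul (hq.continuousAt.comp (by fun_prop))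
  have hconn : IsPreconnected (τ '' Ioc 0 1) := isPreconnected_Ioc.image τ hcont
  have hfin : (τ '' Ioc 0 1).Finite := by
    refine (hS.image (fun B : E →ₗ[ℝ] E => B v)).subset ?_
    rintro _ ⟨s, hs, rfl⟩
    have h1 : ‖s • v‖ < r := by
      rw [norm_smul, Real.norm_eq_abs, abs_of_pos hs.1]
      calc s * ‖v‖ ≤ 1 * ‖v‖ := by gcongr; exact hs.2
        _ < r := by rwa [one_mul]
    obtain ⟨B, hB, hBe⟩ := hsel _ h1
    refine ⟨B, hB, ?_⟩
    simp only [hτ]
    rw [hBe, map_smul, smul_smul, inv_mul_cancel₀ hs.1.ne', one_smul]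
  have hsub : (τ '' Ioc 0 1).Subsingleton := by
    by_contra hne
    rw [Set.not_subsingleton_iff] at hne
    exact hconn.infinite_of_nontrivial hne hfin
  have h1 : τ t = τ 1 := hsub (mem_image_of_mem _ ⟨ht, ht1⟩) (mem_image_of_mem _ ⟨one_pos, le_rfl⟩)
  simp only [hτ, inv_one, one_smul] at h1
  rw [← h1, smul_smul, mul_inv_cancel₀ ht.ne', one_smul]

omit [NormedSpace ℝ E] [FiniteDimensional ℝ E] in
theorem interior_biUnion_empty {ι : Type*} {S : Set ι} (hS : S.Finite) {T : ι → Set E}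
    (hc : ∀ i ∈ S, IsClosed (T i)) (he : ∀ i ∈ S, interior (T i) = ∅) :
    interior (⋃ i ∈ S, T i) = ∅ := by
  induction S, hS using Set.Finite.induction_on with
  | empty => simp
  | @insert a s _ _ ih =>
    rw [biUnion_insert, interior_union_isClosed_of_interior_empty (hc a (mem_insert _ _))
      (ih (fun i hi => hc i (mem_insert_of_mem _ hi)) (fun i hi => he i (mem_insert_of_mem _ hi)))]
    exact he a (mem_insert _ _)

/-- A continuous injective selection can be made from the injective linear maps only. -/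
theorem injective_selection {q : E → E} (hq : Continuous q) (hinj : Function.Injective q) {r : ℝ}
    {S : Set (E →ₗ[ℝ] E)} (hS : S.Finite) (hsel : ∀ v : E, ‖v‖ < r → ∃ B ∈ S, q v = B v)
    {v : E} (hv : ‖v‖ < r) : ∃ B ∈ S, Function.Injective B ∧ q v = B v := by
  by_contra hcon
  push Not at hcon
  set T : (E →ₗ[ℝ] E) → Set E := fun B => {w | q w = B w} with hT
  have hTc : ∀ B : E →ₗ[ℝ] E, IsClosed (T B) := fun B =>
    isClosed_eq hq B.continuous_of_finiteDimensional
  set S₁ : Set (E →ₗ[ℝ] E) := {B | B ∈ S ∧ Function.Injective B} with hS₁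
  set S₂ : Set (E →ₗ[ℝ] E) := {B | B ∈ S ∧ ¬ Function.Injective B} with hS₂
  have hS₁f : S₁.Finite := hS.subset fun B hB => hB.1
  have hS₂f : S₂.Finite := hS.subset fun B hB => hB.1
  have hint : interior (⋃ B ∈ S₂, T B) = ∅ := by
    refine interior_biUnion_empty hS₂f (fun B _ => hTc B) ?_
    intro B hB
    by_contra hne
    obtain ⟨w, hw⟩ := nonempty_iff_ne_empty.mpr hne
    apply hB.2
    rw [← LinearMap.ker_eq_bot, LinearMap.ker_eq_bot']
    intro z hz
    by_contra hz0
    obtain ⟨ρ, hρ, hρs⟩ := Metric.mem_nhds_iff.mp (mem_interior_iff_mem_nhds.mp hw)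
    have hzn : 0 < ‖z‖ := norm_pos_iff.mpr hz0
    set s : ℝ := ρ / (2 * ‖z‖) with hs
    have hs0 : 0 < s := by positivity
    have h1 : w + s • z ∈ T B := by
      apply hρs
      rw [mem_ball, dist_eq_norm, add_sub_cancel_left, norm_smul, Real.norm_eq_abs, abs_of_pos hs0,
        hs]
      field_simp
      linarith
    have h2 : w ∈ T B := interior_subset hw
    have h3 : q (w + s • z) = q w := by
      rw [show q (w + s • z) = B (w + s • z) from h1, show q w = B w from h2, map_add, map_smul, hz,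
        smul_zero, add_zero]
    have h4 := hinj h3
    rw [add_eq_left, smul_eq_zero] at h4
    rcases h4 with h4 | h4
    · exact hs0.ne' h4
    · exact hz0 h4
  have hopen : IsOpen (ball (0 : E) r ∩ (⋃ B ∈ S₁, T B)ᶜ) :=
    isOpen_ball.inter (hS₁f.isClosed_biUnion fun B _ => hTc B).isOpen_compl
  have hsub : ball (0 : E) r ∩ (⋃ B ∈ S₁, T B)ᶜ ⊆ ⋃ B ∈ S₂, T B := by
    rintro w ⟨hw1, hw2⟩
    obtain ⟨B, hB, hBe⟩ := hsel w (by simpa using hw1)
    by_cases hBi : Function.Injective B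
    · exact absurd (mem_biUnion (show B ∈ S₁ from ⟨hB, hBi⟩) (show w ∈ T B from hBe)) hw2
    · exact mem_biUnion (show B ∈ S₂ from ⟨hB, hBi⟩) (show w ∈ T B from hBe)
  have h5 := interior_maximal hsub hopen
  rw [hint] at h5
  have h6 : v ∈ ball (0 : E) r ∩ (⋃ B ∈ S₁, T B)ᶜ := by
    refine ⟨by simpa using hv, ?_⟩
    simp only [mem_compl_iff, mem_iUnion, not_exists]
    rintro B ⟨hB1, hB2⟩ hB3
    exact hcon B hB1 hB2 hB3
  exact h5 h6

omit [FiniteDimensional ℝ E] in
/-- The blow-up of a map which is positively homogeneous near the origin. -/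
theorem exists_blowup {q : E → E} (hq : Continuous q) {r : ℝ} (hr : 0 < r)
    (hhom : ∀ v : E, ‖v‖ < r → ∀ t : ℝ, 0 < t → t ≤ 1 → q (t • v) = t • q v) :
    ∃ L : E → E, Continuous L ∧ ∀ v : E, ∀ t : ℝ, 0 < t → ‖t • v‖ < r → L v = t⁻¹ • q (t • v) := by
  set c : E → ℝ := fun v => r / (2 * (1 + ‖v‖)) with hc
  have hc0 : ∀ v, 0 < c v := fun v => by
    have : 0 ≤ ‖v‖ := norm_nonneg v
    simp only [hc]; positivity
  have hcv : ∀ v, ‖c v • v‖ < r := by
    intro v
    have h0 : 0 ≤ ‖v‖ := norm_nonneg v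
    rw [norm_smul, Real.norm_eq_abs, abs_of_pos (hc0 v)]
    simp only [hc]
    rw [div_mul_eq_mul_div, div_lt_iff₀ (by positivity)]
    nlinarith
  have hcc : Continuous c := by
    simp only [hc]
    refine continuous_const.div (by fun_prop) fun v => ?_
    have : 0 ≤ ‖v‖ := norm_nonneg v
    positivity
  refine ⟨fun v => (c v)⁻¹ • q (c v • v), ?_, ?_⟩
  · exact (hcc.inv₀ fun v => (hc0 v).ne').smul (hq.comp (hcc.smul continuous_id))
  · intro v t ht htv
    simp only
    rcases le_total t (c v) with h1 | h1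
    · have h2 : q (t • v) = (t / c v) • q (c v • v) := by
        rw [← hhom (c v • v) (hcv v) (t / c v) (div_pos ht (hc0 v))
          ((div_le_one (hc0 v)).mpr h1), smul_smul, div_mul_cancel₀ _ (hc0 v).ne']
      rw [h2, smul_smul]
      congr 1
      have := (hc0 v).ne'
      field_simp
    · have h2 : q (c v • v) = (c v / t) • q (t • v) := by
        rw [← hhom (t • v) htv (c v / t) (div_pos (hc0 v) ht) ((div_le_one ht).mpr h1), smul_smul,
          div_mul_cancel₀ _ ht.ne']
      rw [h2, smul_smul]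
      congr 1
      have := (hc0 v).ne'
      field_simp

omit [NormedSpace ℝ E] [FiniteDimensional ℝ E] in
theorem exists_small_pos [NormedSpace ℝ E] (v w : E) {r r' : ℝ} (hr : 0 < r) (hr' : 0 < r') :
    ∃ t : ℝ, 0 < t ∧ t ≤ 1 ∧ ‖t • v‖ < r ∧ ‖t • w‖ < r' := by
  have hv : 0 ≤ ‖v‖ := norm_nonneg v
  have hw : 0 ≤ ‖w‖ := norm_nonneg w
  set t : ℝ := min 1 (min (r / (1 + ‖v‖)) (r' / (1 + ‖w‖))) / 2 with ht
  have hm : 0 < min 1 (min (r / (1 + ‖v‖)) (r' / (1 + ‖w‖))) := by positivity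
  have ht0 : 0 < t := by positivity
  refine ⟨t, ht0, ?_, ?_, ?_⟩
  · have : min 1 (min (r / (1 + ‖v‖)) (r' / (1 + ‖w‖))) ≤ 1 := min_le_left _ _
    linarith
  · rw [norm_smul, Real.norm_eq_abs, abs_of_pos ht0]
    have h1 : t < r / (1 + ‖v‖) := by
      have : min 1 (min (r / (1 + ‖v‖)) (r' / (1 + ‖w‖))) ≤ r / (1 + ‖v‖) :=
        (min_le_right _ _).trans (min_le_left _ _)
      linarith
    rw [lt_div_iff₀ (by positivity)] at h1
    nlinarith
  · rw [norm_smul, Real.norm_eq_abs, abs_of_pos ht0]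
    have h1 : t < r' / (1 + ‖w‖) := by
      have : min 1 (min (r / (1 + ‖v‖)) (r' / (1 + ‖w‖))) ≤ r' / (1 + ‖w‖) :=
        (min_le_right _ _).trans (min_le_right _ _)
      linarith
    rw [lt_div_iff₀ (by positivity)] at h1
    nlinarith

/-- **Germs of piecewise linear homeomorphisms are conical piecewise linear homeomorphisms.** -/
theorem exists_germ {h : E ≃ₜ E} (hh : IsPiecewiseLinear h) (x : E) :
    ∃ L : E ≃ₜ E, IsConic L ∧ IsSelection L ∧ ∃ r > 0, ∀ v : E, ‖v‖ < r → h (x + v) = h x + L v := by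
  obtain ⟨r, hr, S, hS, hsel⟩ := local_selection hh x
  set q : E → E := fun v => h (x + v) - h x with hq
  have hqc : Continuous q := by
    have := h.continuous
    fun_prop
  have hqi : Function.Injective q := by
    intro v w hvw
    simp only [hq] at hvw
    exact add_left_cancel (h.injective (sub_left_injective hvw))
  have hhom : ∀ v : E, ‖v‖ < r → ∀ t : ℝ, 0 < t → t ≤ 1 → q (t • v) = t • q v :=
    fun v hv t ht ht1 => homogeneous_of_selection hqc hS hsel hv ht ht1
  -- the inverse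
  set p : E → E := fun w => h.symm (h x + w) - x with hp
  have hpc : Continuous p := by
    have := h.symm.continuous
    fun_prop
  have hp0 : p 0 = 0 := by simp [hp]
  have hqp : ∀ w, q (p w) = w := by intro w; simp [hq, hp]
  have hpq : ∀ v, p (q v) = v := by intro v; simp [hq, hp]
  obtain ⟨r', hr', hpr⟩ : ∃ r' > 0, ∀ w : E, ‖w‖ < r' → ‖p w‖ < r := by
    have h1 : Tendsto p (𝓝 0) (𝓝 0) := by
      have := hpc.tendsto 0; rwa [hp0] at this
    have h2 : ∀ᶠ w in 𝓝 (0 : E), p w ∈ ball (0 : E) r := h1.eventually (ball_mem_nhds 0 hr)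
    obtain ⟨r', hr', h3⟩ := Metric.eventually_nhds_iff_ball.mp h2
    exact ⟨r', hr', fun w hw => by simpa using h3 w (by simpa using hw)⟩
  let f : (E →ₗ[ℝ] E) → (E →ₗ[ℝ] E) := fun B => by
    classical
    exact if hB : Function.Injective B then ((LinearEquiv.ofInjectiveEndo B hB).symm : E →ₗ[ℝ] E)
      else 0
  have hselp : ∀ w : E, ‖w‖ < r' → ∃ B ∈ f '' S, p w = B w := by
    intro w hw
    obtain ⟨B, hB, hBi, hBe⟩ := injective_selection hqc hqi hS hsel (hpr w hw)
    refine ⟨f B, mem_image_of_mem _ hB, ?_⟩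
    have h1 : f B = ((LinearEquiv.ofInjectiveEndo B hBi).symm : E →ₗ[ℝ] E) := dif_pos hBi
    rw [h1, LinearEquiv.coe_coe, LinearEquiv.eq_symm_apply]
    rw [hqp] at hBe
    exact hBe.symm
  have hhomp : ∀ w : E, ‖w‖ < r' → ∀ t : ℝ, 0 < t → t ≤ 1 → p (t • w) = t • p w :=
    fun w hw t ht ht1 => homogeneous_of_selection hpc (hS.image f) hselp hw ht ht1
  obtain ⟨L, hLc, hL⟩ := exists_blowup hqc hr hhom
  obtain ⟨M, hMc, hM⟩ := exists_blowup hpc hr' hhomp
  let H : E ≃ₜ E :=
    { toFun := L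
      invFun := M
      left_inv := fun v => by
        obtain ⟨t, ht, ht1, htv, htw⟩ := exists_small_pos v (L v) hr hr'
        have h1 : t • L v = q (t • v) := by
          rw [hL v t ht htv, smul_smul, mul_inv_cancel₀ ht.ne', one_smul]
        rw [hM (L v) t ht htw, h1, hpq, smul_smul, inv_mul_cancel₀ ht.ne', one_smul]
      right_inv := fun w => by
        obtain ⟨t, ht, ht1, htw, htv⟩ := exists_small_pos w (M w) hr' hr
        have h1 : t • M w = p (t • w) := by
          rw [hM w t ht htw, smul_smul, mul_inv_cancel₀ ht.ne', one_smul]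
        rw [hL (M w) t ht htv, h1, hqp, smul_smul, inv_mul_cancel₀ ht.ne', one_smul]
      continuous_toFun := hLc
      continuous_invFun := hMc }
  refine ⟨H, ?_, ?_, r, hr, ?_⟩
  · intro s hs v
    change L (s • v) = s • L v
    obtain ⟨t, ht, ht1, htv, htw⟩ := exists_small_pos (s • v) (s • v) hr hr
    rw [hL (s • v) t ht htv, hL v (t * s) (by positivity) (by rwa [← smul_smul]), smul_smul,
      smul_smul]
    congr 1
    have := hs.ne'
    field_simp
  · refine ⟨S, hS, fun v => ?_⟩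
    change ∃ A ∈ S, L v = A v
    obtain ⟨t, ht, ht1, htv, htw⟩ := exists_small_pos v v hr hr
    obtain ⟨B, hB, hBe⟩ := hsel _ htv
    refine ⟨B, hB, ?_⟩
    rw [hL v t ht htv]
    change t⁻¹ • (h (x + t • v) - h x) = B v
    rw [hBe, map_smul, smul_smul, inv_mul_cancel₀ ht.ne', one_smul]
  · intro v hv
    change h (x + v) = h x + L v
    rw [hL v 1 one_pos (by simpa using hv)]
    simp [hq]

end Pool.Agent.Helper25
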