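import Mathlib

/-!
Continuous real functions on compact sets are uniform limits of Lipschitz functions.
-/

open Set Metric Topology Filter
open scoped NNReal

namespace Pool.Agent.Helper25

theorem exists_lipschitz_approx {X : Type*} [PseudoMetricSpace X] {S : Set X} (hS : IsCompact S)
    {f : X → ℝ} (hf : ContinuousOn f S) {ε : ℝ} (hε : 0 < ε) :
    ∃ (K M : ℝ≥0) (g : X → ℝ), LipschitzWith K g ∧ (∀ x, |g x| ≤ M) ∧ ∀ x ∈ S, |g x - f x| ≤ ε := by
  rcases S.eq_empty_or_nonempty with rfl | hne
  · exact ⟨0, 0, fun _ => 0, LipschitzWith.const 0, fun x => by simp, fun x hx => absurd hx (by simp)⟩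
  have huc := hS.uniformContinuousOn_of_continuous hf
  rw [Metric.uniformContinuousOn_iff] at huc
  obtain ⟨δ, hδ, huc⟩ := huc ε hε
  obtain ⟨M₀, hM₀⟩ := (hS.image_of_continuousOn hf).isBounded.exists_norm_le
  have hM : ∀ y ∈ S, |f y| ≤ M₀ := fun y hy => by
    simpa using hM₀ _ (mem_image_of_mem f hy)
  have hM0 : 0 ≤ M₀ := by
    obtain ⟨y, hy⟩ := hne
    exact (abs_nonneg _).trans (hM y hy)
  set K : ℝ≥0 := ⟨2 * M₀ / δ, by positivity⟩ with hK
  have hKe : (K : ℝ) = 2 * M₀ / δ := rfl
  haveI : Nonempty S := hne.to_subtype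
  set g : X → ℝ := fun x => ⨅ y : S, (f y + K * dist x y) with hg
  have hbdd : ∀ x : X, BddBelow (range fun y : S => f y + K * dist x y) := by
    intro x
    refine ⟨-M₀, ?_⟩
    rintro _ ⟨y, rfl⟩
    have h1 := (abs_le.mp (hM y y.2)).1
    have h2 : 0 ≤ (K : ℝ) * dist x y := by positivity
    simp only
    linarith
  have hgL : LipschitzWith K g := by
    refine LipschitzWith.of_le_add_mul K fun x x' => ?_
    rw [← sub_le_iff_le_add]
    refine le_ciInf fun y => ?_
    have h1 : g x ≤ f y + K * dist x y := ciInf_le (hbdd x) y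
    have h2 : dist x y ≤ dist x x' + dist x' y := dist_triangle _ _ _
    have h3 : (K : ℝ) * dist x y ≤ K * (dist x x' + dist x' y) := by gcongr
    linarith
  have hgf : ∀ x ∈ S, |g x - f x| ≤ ε := by
    intro x hx
    rw [abs_le]
    constructor
    · have : f x - ε ≤ g x := by
        refine le_ciInf fun y => ?_
        by_cases hxy : dist x y < δ
        · have h1 := huc x hx y y.2 hxy
          rw [Real.dist_eq, abs_lt] at h1
          have h2 : 0 ≤ (K : ℝ) * dist x y := by positivity
          linarith [h1.2]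
        · push Not at hxy
          have h1 : 2 * M₀ ≤ K * dist x y := by
            rw [hKe, div_mul_eq_mul_div, le_div_iff₀ hδ]
            gcongr
          have h2 := (abs_le.mp (hM y y.2)).1
          have h3 := (abs_le.mp (hM x hx)).2
          linarith
      linarith
    · have : g x ≤ f x + K * dist x x := ciInf_le (hbdd x) (⟨x, hx⟩ : S)
      rw [dist_self, mul_zero, add_zero] at this
      linarith
  set M : ℝ≥0 := ⟨M₀, hM0⟩ with hMd
  have hMe : (M : ℝ) = M₀ := rfl
  refine ⟨K, M, fun x => max (-M₀) (min (g x) M₀), ?_, ?_, ?_⟩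
  · exact (hgL.min_const M₀).const_max (-M₀)
  · intro x
    rw [abs_le, hMe]
    exact ⟨le_max_left _ _, max_le (by linarith) (min_le_right _ _)⟩
  · intro x hx
    have h1 := abs_le.mp (hM x hx)
    have h2 := abs_le.mp (hgf x hx)
    rw [abs_le]
    simp only
    rcases le_total (g x) M₀ with h3 | h3
    · rw [min_eq_left h3]
      rcases le_total (-M₀) (g x) with h4 | h4
      · rw [max_eq_right h4]; exact h2
      · rw [max_eq_left h4]; constructor <;> linarith [h1.1, h2.1]
    · rw [min_eq_right h3, max_eq_right (by linarith)]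
      constructor <;> linarith [h1.2, h2.2]

end Pool.Agent.Helper25
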