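import Pool.Agent.Helper25.Frag

/-!
The localization theorem: a homeomorphism which is locally approximable is approximable.
-/

open Set Metric Topology Filter
open scoped NNReal

namespace Pool.Agent.Helper25

variable {E : Type*} [NormedAddCommGroup E] [NormedSpace ℝ E]

/-- The cut-off radial field. -/
theorem lipschitz_cutoff_radial (R : ℝ) (hR : 0 < R) :
    LipschitzWith 3 (fun x : E => (max 0 (min 1 (2 - ‖x‖ / R)) : ℝ) • x) := by
  set θ : E → ℝ := fun x => max 0 (min 1 (2 - ‖x‖ / R)) with hθ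
  have hθ0 : ∀ x, 0 ≤ θ x := fun x => le_max_left _ _
  have hθ1 : ∀ x, θ x ≤ 1 := fun x => max_le zero_le_one (min_le_left _ _)
  have hθL : ∀ x y, |θ x - θ y| ≤ ‖x - y‖ / R := by
    intro x y
    have h1 : |θ x - θ y| ≤ |min 1 (2 - ‖x‖ / R) - min 1 (2 - ‖y‖ / R)| := by
      have := abs_max_sub_max_le_abs (min 1 (2 - ‖x‖ / R)) (min 1 (2 - ‖y‖ / R)) 0
      simpa [hθ, max_comm] using this
    have h2 : |min 1 (2 - ‖x‖ / R) - min 1 (2 - ‖y‖ / R)| ≤ |(2 - ‖x‖ / R) - (2 - ‖y‖ / R)| := by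
      have := abs_min_sub_min_le_max 1 (2 - ‖x‖ / R) 1 (2 - ‖y‖ / R)
      simpa using this
    have h3 : |(2 - ‖x‖ / R) - (2 - ‖y‖ / R)| ≤ ‖x - y‖ / R := by
      have e : (2 - ‖x‖ / R) - (2 - ‖y‖ / R) = -((‖x‖ - ‖y‖) / R) := by ring
      rw [e, abs_neg, abs_div, abs_of_pos hR]
      gcongr
      exact abs_norm_sub_norm_le x y
    exact h1.trans (h2.trans h3)
  have hθout : ∀ x : E, 2 * R ≤ ‖x‖ → θ x = 0 := by
    intro x hx
    have : 2 ≤ ‖x‖ / R := by rw [le_div_iff₀ hR]; exact hx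
    simp only [hθ]
    rw [max_eq_left]
    exact (min_le_right _ _).trans (by linarith)
  have key : ∀ x y : E, ‖x‖ ≤ 2 * R → ‖θ x • x - θ y • y‖ ≤ 3 * ‖x - y‖ := by
    intro x y hx
    have e : θ x • x - θ y • y = θ y • (x - y) + (θ x - θ y) • x := by
      rw [smul_sub, sub_smul]; abel
    rw [e]
    calc ‖θ y • (x - y) + (θ x - θ y) • x‖ ≤ ‖θ y • (x - y)‖ + ‖(θ x - θ y) • x‖ :=
          norm_add_le _ _
      _ = θ y * ‖x - y‖ + |θ x - θ y| * ‖x‖ := by
          rw [norm_smul, norm_smul, Real.norm_eq_abs, Real.norm_eq_abs, abs_of_nonneg (hθ0 y)]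
      _ ≤ 1 * ‖x - y‖ + (‖x - y‖ / R) * (2 * R) := by
          gcongr
          · exact hθ1 y
          · exact hθL x y
      _ = 3 * ‖x - y‖ := by field_simp; ring
  refine LipschitzWith.of_dist_le_mul fun x y => ?_
  rw [dist_eq_norm, dist_eq_norm]
  push_cast
  by_cases hx : ‖x‖ ≤ 2 * R
  · exact key x y hx
  · by_cases hy : ‖y‖ ≤ 2 * R
    · have := key y x hy
      rw [norm_sub_rev, norm_sub_rev x y]; exact this
    · push Not at hx hy
      have h1 := hθout x hx.le
      have h2 := hθout y hy.le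
      change ‖θ x • x - θ y • y‖ ≤ _
      rw [h1, h2, zero_smul, zero_smul, sub_zero, norm_zero]
      positivity

/-- A small homeomorphism which is a homothety on a ball and the identity outside a larger one. -/
theorem exists_cutoff_scaling [CompleteSpace E] {R : ℝ} (hR : 0 < R) {κ : ℝ≥0} (hκ : 3 * κ < 1) :
    ∃ s : E ≃ₜ E, LipschitzWith (3 * κ) (fun x => s x - x) ∧ (∀ x, ‖s x - x‖ ≤ κ * (2 * R)) ∧
      (∀ x, ‖x‖ ≤ R → s x = (1 + (κ : ℝ)) • x) ∧ (∀ x, 2 * R ≤ ‖x‖ → s x = x) := by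
  set θ : E → ℝ := fun x => max 0 (min 1 (2 - ‖x‖ / R)) with hθ
  have h3 : LipschitzWith (3 * κ) (fun x : E => (κ : ℝ) • (θ x • x)) := by
    have h1 := lipschitz_cutoff_radial (E := E) R hR
    refine LipschitzWith.of_dist_le_mul fun x y => ?_
    have h2 := h1.dist_le_mul x y
    rw [dist_eq_norm] at h2 ⊢
    rw [← smul_sub, norm_smul, Real.norm_eq_abs, NNReal.abs_eq]
    push_cast at h2 ⊢
    calc (κ : ℝ) * ‖θ x • x - θ y • y‖ ≤ κ * (3 * dist x y) := by gcongr
      _ = 3 * κ * dist x y := by ring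
  obtain ⟨s, hs⟩ := exists_homeo_add hκ h3
  have hsd : ∀ x, s x - x = (κ : ℝ) • (θ x • x) := fun x => by rw [hs]; abel
  refine ⟨s, ?_, ?_, ?_, ?_⟩
  · have : (fun x => s x - x) = (fun x : E => (κ : ℝ) • (θ x • x)) := funext hsd
    rw [this]; exact h3
  · intro x
    rw [hsd, norm_smul, Real.norm_eq_abs, NNReal.abs_eq]
    apply mul_le_mul_of_nonneg_left _ (NNReal.coe_nonneg κ)
    by_cases hx : ‖x‖ ≤ 2 * R
    · rw [norm_smul, Real.norm_eq_abs, abs_of_nonneg (le_max_left _ _)]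
      calc θ x * ‖x‖ ≤ 1 * (2 * R) := by
            gcongr
            exact max_le zero_le_one (min_le_left _ _)
        _ = 2 * R := one_mul _
    · push Not at hx
      have : θ x = 0 := by
        have : 2 ≤ ‖x‖ / R := by rw [le_div_iff₀ hR]; exact hx.le
        simp only [hθ]
        rw [max_eq_left]
        exact (min_le_right _ _).trans (by linarith)
      rw [this, zero_smul, norm_zero]
      positivity
  · intro x hx
    have : θ x = 1 := by
      have h1 : ‖x‖ / R ≤ 1 := by rw [div_le_iff₀ hR]; simpa using hx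
      simp only [hθ]
      rw [min_eq_left (by linarith), max_eq_right zero_le_one]
    rw [hs, this, one_smul, add_smul, one_smul]
  · intro x hx
    have : θ x = 0 := by
      have : 2 ≤ ‖x‖ / R := by rw [le_div_iff₀ hR]; exact hx
      simp only [hθ]
      rw [max_eq_left]
      exact (min_le_right _ _).trans (by linarith)
    rw [hs, this, zero_smul, smul_zero, add_zero]

/-- **Localization theorem** for a group `G` containing all Lipschitz-small perturbations of the
identity: a locally approximable homeomorphism is approximable. -/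
theorem approximable_of_local [ProperSpace E] {G : Subgroup (E ≃ₜ E)} (hG : ContainsSmall G)
    {h : E ≃ₜ E} (hloc : ∀ x, ∃ U ∈ 𝓝 x, ApproxOn G h U) : Approximable G h := by
  obtain ⟨κ₀, hκ₀, hsmall⟩ := hG
  intro B hB
  obtain ⟨R, hR1, hBR⟩ : ∃ R : ℝ, 1 ≤ R ∧ B ⊆ closedBall 0 R := by
    obtain ⟨R, hR⟩ := hB.subset_closedBall 0
    exact ⟨max R 1, le_max_right _ _, hR.trans (closedBall_subset_closedBall (le_max_left _ _))⟩
  have hR : 0 < R := by linarith
  obtain ⟨U, hU, hUa⟩ := hloc 0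
  obtain ⟨r₀, hr₀, hrU⟩ := Metric.nhds_basis_closedBall.mem_iff.mp hU
  obtain ⟨δ, hδ, κ₁, hκ₁, hfrag⟩ := fragGood_of_compact ⟨κ₀, hκ₀, hsmall⟩
    (isCompact_closedBall (0 : E) (2 * R)) (fun x _ => hloc x)
  -- choice of κ
  obtain ⟨κ, hκ, hκa, hκb, hκc, hκd⟩ : ∃ κ : ℝ≥0, 0 < κ ∧ 3 * κ < 1 ∧ 3 * κ ≤ κ₀ ∧ 3 * κ ≤ κ₁ ∧
      (κ : ℝ) * (2 * R) ≤ κ₁ := by
    obtain ⟨R', hR'⟩ : ∃ R' : ℝ≥0, (R' : ℝ) = R := ⟨⟨R, hR.le⟩, rfl⟩
    have hR'1 : 1 ≤ R' := by exact_mod_cast (hR'.symm ▸ hR1 : (1 : ℝ) ≤ R')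
    have hR'0 : 0 < R' := lt_of_lt_of_le one_pos hR'1
    set m : ℝ≥0 := min (min κ₀ κ₁) 1 with hm
    have hm0 : 0 < m := by positivity
    have h4 : 3 * (m / (4 * R')) ≤ m * (3 / 4) := by
      rw [← NNReal.coe_le_coe]
      push_cast
      have hmr : (0 : ℝ) < m := by exact_mod_cast hm0
      have hRr : (1 : ℝ) ≤ R' := by exact_mod_cast hR'1
      rw [mul_div_assoc', div_le_iff₀ (by positivity)]
      nlinarith
    have h34 : m * (3 / 4) ≤ m := by
      rw [← NNReal.coe_le_coe]; push_cast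
      have hmr : (0 : ℝ) < m := by exact_mod_cast hm0
      linarith
    refine ⟨m / (4 * R'), by positivity, ?_, ?_, ?_, ?_⟩
    · refine lt_of_le_of_lt h4 ?_
      rw [← NNReal.coe_lt_coe]; push_cast
      have : (m : ℝ) ≤ 1 := by exact_mod_cast (min_le_right _ _ : m ≤ 1)
      linarith
    · exact h4.trans (h34.trans ((min_le_left _ _).trans (min_le_left _ _)))
    · exact h4.trans (h34.trans ((min_le_left _ _).trans (min_le_right _ _)))
    · push_cast
      rw [hR']
      have hm1 : (m : ℝ) ≤ κ₁ := by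
        exact_mod_cast ((min_le_left _ _).trans (min_le_right _ _) : m ≤ κ₁)
      have hmr : (0 : ℝ) < m := by exact_mod_cast hm0
      have : (m : ℝ) / (4 * R) * (2 * R) = m / 2 := by field_simp; norm_num
      rw [this]; linarith
  obtain ⟨s, hs1, hs2, hs3, hs4⟩ := exists_cutoff_scaling (E := E) hR hκa
  set b : E := h 0 with hb
  have hκ1 : κ < 1 := by
    refine lt_of_le_of_lt ?_ hκa
    rw [← NNReal.coe_le_coe]; push_cast
    have : (0 : ℝ) < κ := by exact_mod_cast hκ
    linarith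
  have hκκ₀ : κ ≤ κ₀ := by
    refine le_trans ?_ hκb
    rw [← NNReal.coe_le_coe]; push_cast
    have : (0 : ℝ) < κ := by exact_mod_cast hκ
    linarith
  have htL : LipschitzWith κ (fun y : E => (κ : ℝ) • (y - b)) := by
    refine LipschitzWith.of_dist_le_mul fun x y => ?_
    rw [dist_eq_norm, dist_eq_norm, ← smul_sub, sub_sub_sub_cancel_right, norm_smul,
      Real.norm_eq_abs, NNReal.abs_eq]
  obtain ⟨t, ht⟩ := exists_homeo_add hκ1 htL
  have htG : t ∈ G := by
    apply hsmall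
    have : (fun x => t x - x) = fun y : E => (κ : ℝ) • (y - b) := by
      funext x; rw [ht]; abel
    rw [this]; exact htL.weaken hκκ₀
  have hsG : s ∈ G := hsmall s (hs1.weaken hκb)
  -- number of steps
  have hlam : (1 : ℝ) < 1 + κ := by
    have : (0 : ℝ) < κ := by exact_mod_cast hκ
    linarith
  obtain ⟨N, hN⟩ : ∃ N : ℕ, R / r₀ < (1 + (κ : ℝ)) ^ N := pow_unbounded_of_one_lt _ hlam
  set lam : ℝ := (1 + (κ : ℝ)) ^ N with hlamdef
  have hlam0 : 0 < lam := by positivity
  -- iterates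
  have hSN : ∀ n : ℕ, ∀ x : E, ‖(1 + (κ : ℝ)) ^ n • x‖ ≤ (1 + (κ : ℝ)) * R →
      (s ^ n) x = (1 + (κ : ℝ)) ^ n • x := by
    intro n
    induction n with
    | zero => intro x _; simp
    | succ n ih =>
      intro x hx
      have h5 : ‖(1 + (κ : ℝ)) ^ n • x‖ ≤ R := by
        rw [norm_smul, Real.norm_eq_abs, abs_of_pos (by positivity)] at hx ⊢
        rw [pow_succ] at hx
        have : (1 + (κ : ℝ)) * ((1 + (κ : ℝ)) ^ n * ‖x‖) ≤ (1 + (κ : ℝ)) * R := by
          linarith [hx, mul_comm ((1 + (κ : ℝ)) ^ n) (1 + (κ : ℝ)), mul_assoc (1 + (κ : ℝ))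
            ((1 + (κ : ℝ)) ^ n) ‖x‖, congrArg (· * ‖x‖) (mul_comm ((1 + (κ : ℝ)) ^ n) (1 + (κ : ℝ)))]
        exact le_of_mul_le_mul_left this (by linarith)
      have h6 : ‖(1 + (κ : ℝ)) ^ n • x‖ ≤ (1 + (κ : ℝ)) * R := by
        refine h5.trans ?_
        nlinarith
      rw [pow_succ', Homeomorph.mul_apply, ih x h6, hs3 _ h5, smul_smul, pow_succ']
  have hTN : ∀ n : ℕ, ∀ y : E, (t ^ n) y = b + (1 + (κ : ℝ)) ^ n • (y - b) := by
    intro n
    induction n with
    | zero => intro y; simp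
    | succ n ih =>
      intro y
      rw [pow_succ', Homeomorph.mul_apply, ih y, ht, add_sub_cancel_left, smul_smul, pow_succ',
        add_mul, one_mul, add_smul]
      abel
  have hSinv : ∀ x : E, ‖x‖ ≤ R → (s ^ N).symm x = lam⁻¹ • x := by
    intro x hx
    rw [Homeomorph.symm_apply_eq, hSN N, smul_smul, ← hlamdef, mul_inv_cancel₀ hlam0.ne', one_smul]
    rw [← hlamdef, smul_smul, mul_inv_cancel₀ hlam0.ne', one_smul]
    nlinarith
  -- conjugate
  have hfr : Approximable G (h * s * h⁻¹) := by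
    refine hfrag s (hs1.weaken hκc) (fun x => (hs2 x).trans hκd) ?_
    intro x hx
    apply hs4
    by_contra hc
    push Not at hc
    apply hx
    apply self_subset_thickening hδ
    simpa using hc.le
  have hfrN : Approximable G (h * s ^ N * h⁻¹) := by
    have e : h * s ^ N * h⁻¹ = (h * s * h⁻¹) ^ N := by
      rw [conj_pow]
    rw [e]
    exact (approxSubgroup G).pow_mem hfr N
  set a : E ≃ₜ E := (h * s ^ N * h⁻¹) * (t ^ N)⁻¹ with ha
  have haA : Approximable G a :=
    hfrN.mul (approximable_of_mem (G.inv_mem (G.pow_mem htG N)))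
  set e : E ≃ₜ E := t ^ N * h * (s ^ N)⁻¹ with he
  have hae : ∀ x, a (e x) = h x := by
    intro x
    have : a * e = h := by rw [ha, he]; group
    rw [← this]; rfl
  have heA : ApproxOn G e B := by
    intro ε hε
    obtain ⟨g, hg, hgd⟩ := hUa (ε / lam) (by positivity)
    refine ⟨t ^ N * g * (s ^ N)⁻¹, G.mul_mem (G.mul_mem (G.pow_mem htG N) hg)
      (G.inv_mem (G.pow_mem hsG N)), fun x hx => ?_⟩
    have hxR : ‖x‖ ≤ R := by simpa using hBR hx
    have h7 : lam⁻¹ • x ∈ U := by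
      apply hrU
      rw [mem_closedBall_zero_iff, norm_smul, Real.norm_eq_abs, abs_of_pos (by positivity)]
      rw [inv_mul_le_iff₀ hlam0]
      have h8 : R < lam * r₀ := by
        rwa [div_lt_iff₀ hr₀] at hN
      linarith
    have h9 := hgd _ h7
    simp only [he, Homeomorph.mul_apply, Homeomorph.inv_apply]
    rw [hSinv x hxR, hTN, hTN, ← hlamdef, dist_add_left, dist_eq_norm, ← smul_sub,
      sub_sub_sub_cancel_right, norm_smul, Real.norm_eq_abs, abs_of_pos hlam0, ← dist_eq_norm]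
    rw [lt_div_iff₀ hlam0] at h9
    linarith
  have := approxOn_comp haA heA (image_bounded e hB)
  simp only [hae] at this
  exact this

end Pool.Agent.Helper25
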