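import Pool.Agent.Helper25.Std

/-!
All piecewise linear homeomorphisms are approximable.
-/

open Set Metric Topology Filter
open scoped NNReal

namespace Pool.Agent.Helper25

theorem addRight_apply {E : Type*} [NormedAddCommGroup E] (c x : E) :
    (Homeomorph.addRight c) x = x + c := rfl

/-- The inductive step: if in the quotient dimension all conical piecewise linear homeomorphisms
are approximable then the germs of a conical piecewise linear homeomorphism at nonzero points are
approximable. -/
theorem suspension_approximable {E F : Type*} [NormedAddCommGroup E] [NormedSpace ℝ E]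
    [FiniteDimensional ℝ E] [NormedAddCommGroup F] [NormedSpace ℝ F] [FiniteDimensional ℝ F]
    (ih : ∀ L : F ≃ₜ F, IsConic L → IsSelection L → Approximable (stdGroup F) L)
    (Φ Ψ : E ≃L[ℝ] (F × ℝ)) {M : E ≃ₜ E} (hM : IsConic M) (hMs : IsSelection M)
    (htr : ∀ v : E, ∀ s : ℝ, M (v + s • Φ.symm (0, 1)) = M v + s • Ψ.symm (0, 1)) :
    Approximable (stdGroup E) M := by
  haveI : ProperSpace F := FiniteDimensional.proper ℝ F
  haveI : ProperSpace E := FiniteDimensional.proper ℝ E
  haveI : ProperSpace (F × ℝ) := FiniteDimensional.proper ℝ _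
  -- the conjugate
  set N : (F × ℝ) ≃ₜ (F × ℝ) := (Φ.symm.toHomeomorph.trans M).trans Ψ.toHomeomorph with hN
  have hNa : ∀ x, N x = Ψ (M (Φ.symm x)) := fun x => rfl
  have hNs : ∀ x, N.symm x = Φ (M.symm (Ψ.symm x)) := fun x => rfl
  have hNtr : ∀ w : F, ∀ t : ℝ, N (w, t) = N (w, 0) + (0, t) := by
    intro w t
    have e : ((w, t) : F × ℝ) = (w, 0) + t • (0, 1) := by ext <;> simp
    rw [hNa, e, map_add, map_smul, htr, map_add, map_smul, ContinuousLinearEquiv.apply_symm_apply,
      hNa]
    congr 1
    ext <;> simp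
  have hNtr' : ∀ w : F, ∀ t : ℝ, N.symm (w, t) = N.symm (w, 0) + (0, t) := by
    intro w t
    rw [Homeomorph.symm_apply_eq]
    have h1 : N.symm (w, 0) + (0, t) = ((N.symm (w, 0)).1, (N.symm (w, 0)).2 + t) := by
      ext <;> simp
    have h2 : (w, (0 : ℝ)) = N ((N.symm (w, 0)).1, (N.symm (w, 0)).2) := by simp
    rw [h1, hNtr]
    rw [hNtr] at h2
    have h3 : N ((N.symm (w, 0)).1, 0) + (0, (N.symm (w, 0)).2 + t) =
        (N ((N.symm (w, 0)).1, 0) + (0, (N.symm (w, 0)).2)) + (0, t) := by
      rw [add_assoc]; congr 1; ext <;> simp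
    rw [h3, ← h2]
    ext <;> simp
  set f : F → F := fun w => (N (w, 0)).1 with hf
  set g : F → F := fun w => (N.symm (w, 0)).1 with hg
  have hNf : ∀ w t, (N (w, t)).1 = f w := by intro w t; rw [hNtr]; simp [hf]
  have hNg : ∀ w t, (N.symm (w, t)).1 = g w := by intro w t; rw [hNtr']; simp [hg]
  have hfc : Continuous f := by
    have := N.continuous
    simp only [hf]; fun_prop
  have hgc : Continuous g := by
    have := N.symm.continuous
    simp only [hg]; fun_prop
  let L : F ≃ₜ F :=
    { toFun := f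
      invFun := g
      left_inv := fun w => by
        have h1 : N (w, 0) = (f w, (N (w, 0)).2) := by ext <;> simp [hf]
        have h2 : N.symm (f w, (N (w, 0)).2) = (w, 0) := by rw [← h1]; simp
        have h3 := hNg (f w) (N (w, 0)).2
        rw [h2] at h3
        exact h3.symm
      right_inv := fun w => by
        have h1 : N.symm (w, 0) = (g w, (N.symm (w, 0)).2) := by ext <;> simp [hg]
        have h2 : N (g w, (N.symm (w, 0)).2) = (w, 0) := by rw [← h1]; simp
        have h3 := hNf (g w) (N.symm (w, 0)).2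
        rw [h2] at h3
        exact h3.symm
      continuous_toFun := hfc
      continuous_invFun := hgc }
  have hLc : IsConic L := by
    intro t ht w
    change (N (t • w, 0)).1 = t • (N (w, 0)).1
    have e : ((t • w, 0) : F × ℝ) = t • (w, 0) := by ext <;> simp
    rw [e, hNa, hNa, map_smul, hM t ht, map_smul]
    simp
  have hLs : IsSelection L := by
    obtain ⟨S, hS, hsel⟩ := hMs
    refine ⟨(fun A : E →ₗ[ℝ] E => (LinearMap.fst ℝ F ℝ) ∘ₗ ((Ψ : E →ₗ[ℝ] F × ℝ) ∘ₗ A ∘ₗ
      (Φ.symm : F × ℝ →ₗ[ℝ] E)) ∘ₗ (LinearMap.inl ℝ F ℝ)) '' S, hS.image _, fun w => ?_⟩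
    obtain ⟨A, hA, hAe⟩ := hsel (Φ.symm (w, 0))
    refine ⟨_, mem_image_of_mem _ hA, ?_⟩
    change (N (w, 0)).1 = (Ψ (A (Φ.symm (w, 0)))).1
    rw [hNa, hAe]
  have hLA := ih L hLc hLs
  -- shear
  set φ : F → ℝ := fun w => (N (g w, 0)).2 with hφ
  have hφc : Continuous φ := by
    have := N.continuous
    simp only [hφ]; fun_prop
  have hNe : N = shear φ hφc * prodId L := by
    have hgf : ∀ w, g (f w) = w := L.left_inv
    ext ⟨w, t⟩
    · rw [hNf, Homeomorph.mul_apply, prodId_apply, shear_apply]; rfl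
    · rw [hNtr, Homeomorph.mul_apply, prodId_apply, shear_apply]
      change (N (w, 0)).2 + t = t + (N (g (f w), 0)).2
      rw [hgf, add_comm]
  have hNA : Approximable (stdGroup (F × ℝ)) N := by
    rw [hNe]; exact (shear_approximable hφc).mul (prodId_approximable hLA)
  have hMe : M = conjLin Ψ.symm N * (Φ.trans Ψ.symm).toHomeomorph := by
    ext x
    rw [Homeomorph.mul_apply, conjLin_apply, hNa]
    change M x = Ψ.symm (Ψ (M (Φ.symm (Ψ (Ψ.symm (Φ x))))))
    simp
  rw [hMe]
  exact (conjLin_approximable Ψ.symm hNA).mul (approximable_of_mem (containsLinear_stdGroup _))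

/-- translation-invariance of the germ at `y` of a conical map -/
theorem germ_translation {E : Type*} [NormedAddCommGroup E] [NormedSpace ℝ E]
    {L M : E ≃ₜ E} (hL : IsConic L) (hM : IsConic M) {y : E} {r : ℝ} (hr : 0 < r)
    (hLM : ∀ v : E, ‖v‖ < r → L (y + v) = L y + M v) (v : E) (s : ℝ) :
    M (v + s • y) = M v + s • L y := by
  -- choose a small time
  obtain ⟨t, ht, ht1, htv, htw⟩ := exists_small_pos (v + s • y) v hr (half_pos hr)
  set t' : ℝ := min t (1 / (2 * (1 + |s|))) with ht'
  have hs0 : 0 ≤ |s| := abs_nonneg s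
  have ht'0 : 0 < t' := by positivity
  have ht't : t' ≤ t := min_le_left _ _
  have hts : |t' * s| ≤ 1 / 2 := by
    rw [abs_mul, abs_of_pos ht'0]
    have h1 : t' ≤ 1 / (2 * (1 + |s|)) := min_le_right _ _
    calc t' * |s| ≤ 1 / (2 * (1 + |s|)) * |s| := by gcongr
      _ = |s| / (2 * (1 + |s|)) := by ring
      _ ≤ 1 / 2 := by
        rw [div_le_div_iff₀ (by positivity) (by norm_num)]
        linarith
  have h1s : 1 / 2 ≤ 1 + t' * s := by linarith [(abs_le.mp hts).1]
  have h1s0 : 0 < 1 + t' * s := by linarith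
  have hn1 : ‖t' • (v + s • y)‖ < r := by
    rw [norm_smul, Real.norm_eq_abs, abs_of_pos ht'0]
    rw [norm_smul, Real.norm_eq_abs, abs_of_pos ht] at htv
    exact lt_of_le_of_lt (by gcongr) htv
  have hn2 : ‖(t' / (1 + t' * s)) • v‖ < r := by
    rw [norm_smul, Real.norm_eq_abs, abs_of_pos (by positivity)]
    rw [norm_smul, Real.norm_eq_abs, abs_of_pos ht] at htw
    have h2 : t' / (1 + t' * s) ≤ 2 * t := by
      rw [div_le_iff₀ h1s0]
      nlinarith
    calc t' / (1 + t' * s) * ‖v‖ ≤ (2 * t) * ‖v‖ := by gcongr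
      _ = 2 * (t * ‖v‖) := by ring
      _ < r := by linarith
  have e1 : y + t' • (v + s • y) = (1 + t' * s) • (y + (t' / (1 + t' * s)) • v) := by
    rw [smul_add, smul_add, smul_smul, smul_smul, mul_div_cancel₀ _ h1s0.ne', add_smul, one_smul]
    abel
  have h3 := hLM _ hn1
  rw [e1, hL _ h1s0, hLM _ hn2, hM _ (by positivity), hM _ ht'0, smul_add, smul_smul,
    mul_div_cancel₀ _ h1s0.ne', add_smul, one_smul] at h3
  have h4 : t' • M (v + s • y) = t' • (M v + s • L y) := by
    rw [smul_add, smul_smul]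
    have : L y + (t' * s) • L y + t' • M v = L y + ((t' * s) • L y + t' • M v) := by abel
    rw [this] at h3
    have h5 := add_left_cancel h3
    rw [← h5]; abel
  exact smul_right_injective E ht'0.ne' h4

/-- Conical piecewise linear homeomorphisms are approximable. -/
theorem conic_approximable : ∀ (n : ℕ) (E : Type) [NormedAddCommGroup E] [NormedSpace ℝ E]
    [FiniteDimensional ℝ E], Module.finrank ℝ E = n → ∀ L : E ≃ₜ E, IsConic L → IsSelection L →
      Approximable (stdGroup E) L := by
  intro n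
  induction n with
  | zero =>
    intro E _ _ _ hn L _ _
    haveI : Subsingleton E := Module.finrank_zero_iff.mp hn
    have : L = 1 := by ext x; exact Subsingleton.elim _ _
    rw [this]; exact approximable_of_mem (stdGroup E).one_mem
  | succ n ihn =>
    intro E _ _ _ hn L hL hLs
    haveI : ProperSpace E := FiniteDimensional.proper ℝ E
    have hnt : Nontrivial E := Module.nontrivial_of_finrank_pos (R := ℝ) (by omega)
    -- Step 1 : local approximability
    have hloc : ∀ y, y ≠ 0 → ∃ a : E ≃ₜ E, Approximable (stdGroup E) a ∧ ∀ᶠ z in 𝓝 y, L z = a z := by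
      intro y hy
      obtain ⟨M, hMc, hMs, r, hr, hLM⟩ := exists_germ hLs.isPiecewiseLinear y
      have hLy : L y ≠ 0 := hL.ne_zero hy
      have htr := germ_translation hL hMc hr hLM
      let F : Type := EuclideanSpace ℝ (Fin n)
      have hfr : Module.finrank ℝ E = Module.finrank ℝ (F × ℝ) := by
        rw [hn, Module.finrank_prod]; simp [F]
      let A₀ : E ≃L[ℝ] (F × ℝ) := ContinuousLinearEquiv.ofFinrankEq hfr
      have h01 : ((0, 1) : F × ℝ) ≠ 0 := by
        intro h; simpa using congrArg Prod.snd h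
      obtain ⟨B₁, hB₁⟩ := SeparatingDual.exists_continuousLinearEquiv_apply_eq (R := ℝ)
        (x := A₀ y) (y := ((0, 1) : F × ℝ)) (by simpa using hy) h01
      obtain ⟨B₂, hB₂⟩ := SeparatingDual.exists_continuousLinearEquiv_apply_eq (R := ℝ)
        (x := A₀ (L y)) (y := ((0, 1) : F × ℝ)) (by simpa using hLy) h01
      have hMA : Approximable (stdGroup E) M := by
        refine suspension_approximable (F := F) (ihn F (by simp [F])) (A₀.trans B₁) (A₀.trans B₂)
          hMc hMs ?_
        intro v s
        have e1 : (A₀.trans B₁).symm (0, 1) = y := by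
          rw [ContinuousLinearEquiv.symm_apply_eq]; exact hB₁.symm
        have e2 : (A₀.trans B₂).symm (0, 1) = L y := by
          rw [ContinuousLinearEquiv.symm_apply_eq]; exact hB₂.symm
        rw [e1, e2]; exact htr v s
      refine ⟨Homeomorph.addRight (L y) * M * Homeomorph.addRight (-y),
        ((approximable_of_mem (translation_mem_stdGroup _)).mul hMA).mul
          (approximable_of_mem (translation_mem_stdGroup _)), ?_⟩
      filter_upwards [ball_mem_nhds y hr] with z hz
      have h1 : ‖z - y‖ < r := by simpa [mem_ball, dist_eq_norm] using hz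
      have h2 := hLM (z - y) h1
      rw [add_sub_cancel] at h2
      simp only [Homeomorph.mul_apply, addRight_apply]
      rw [h2, ← sub_eq_add_neg, add_comm]
    -- Step 2 : `L` is linear on some open set
    obtain ⟨S, hS, hsel⟩ := hLs
    set S₁ : Set (E →ₗ[ℝ] E) := {B | B ∈ S ∧ Function.Injective B} with hS₁
    have hS₁f : S₁.Finite := hS.subset fun B hB => hB.1
    have hcov : (⋃ B ∈ S₁, {x | L x = B x}) = univ := by
      rw [eq_univ_iff_forall]
      intro x
      obtain ⟨B, hB, hBi, hBe⟩ := injective_selection L.continuous L.injective (r := ‖x‖ + 1) hS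
        (fun v _ => hsel v) (v := x) (by linarith)
      exact mem_biUnion (show B ∈ S₁ from ⟨hB, hBi⟩) hBe
    obtain ⟨B, hB, hBint⟩ : ∃ B ∈ S₁, (interior {x | L x = B x}).Nonempty := by
      by_contra hcon
      push Not at hcon
      have h1 := interior_biUnion_empty hS₁f
        (T := fun B => {x | L x = B x})
        (fun B _ => isClosed_eq L.continuous B.continuous_of_finiteDimensional)
        (fun B hB => hcon B hB)
      rw [hcov, interior_univ] at h1
      exact (univ_nonempty (α := E)).ne_empty h1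
    obtain ⟨w, hw, hw0⟩ : ∃ w ∈ interior {x | L x = B x}, w ≠ 0 := by
      obtain ⟨w, hw⟩ := hBint
      by_cases hw0 : w = 0
      · subst hw0
        obtain ⟨ρ, hρ, hρs⟩ := Metric.mem_nhds_iff.mp (isOpen_interior.mem_nhds hw)
        obtain ⟨z, hz⟩ := exists_ne (0 : E)
        have hzn : 0 < ‖z‖ := norm_pos_iff.mpr hz
        refine ⟨(ρ / (2 * ‖z‖)) • z, hρs ?_, ?_⟩
        · rw [mem_ball_zero_iff, norm_smul, Real.norm_eq_abs, abs_of_pos (by positivity)]
          field_simp; linarith
        · exact smul_ne_zero (by positivity) hz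
      · exact ⟨w, hw, hw0⟩
    have hwn : 0 < ‖w‖ := norm_pos_iff.mpr hw0
    let A : E ≃L[ℝ] E := (LinearEquiv.ofInjectiveEndo B hB.2).toContinuousLinearEquiv
    have hA : ∀ x, A x = B x := fun x => rfl
    set L₁ : E ≃ₜ E := A.symm.toHomeomorph * L with hL₁
    have hL₁a : ∀ x, L₁ x = A.symm (L x) := fun x => rfl
    have hL₁c : IsConic L₁ := by
      intro t ht x
      rw [hL₁a, hL₁a, hL t ht, map_smul]
    set p : E := ‖w‖⁻¹ • w with hp
    have hpn : ‖p‖ = 1 := by rw [hp, norm_smul, norm_inv, norm_norm, inv_mul_cancel₀ hwn.ne']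
    obtain ⟨ρ, hρ, hρs⟩ := Metric.mem_nhds_iff.mp (mem_interior_iff_mem_nhds.mp hw)
    have hid : ∀ x, ‖x - ‖x‖ • p‖ < ρ / ‖w‖ * ‖x‖ → L₁ x = x := by
      intro x hx
      by_cases hx0 : x = 0
      · subst hx0; simp at hx
      have hxn : 0 < ‖x‖ := norm_pos_iff.mpr hx0
      set z : E := (‖w‖ * ‖x‖⁻¹) • x with hz
      have hxz : x = (‖x‖ * ‖w‖⁻¹) • z := by
        rw [hz, smul_smul]
        have : ‖x‖ * ‖w‖⁻¹ * (‖w‖ * ‖x‖⁻¹) = 1 := by
          have := hxn.ne'; have := hwn.ne'; field_simp
        rw [this, one_smul]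
      have hzw : z ∈ ball w ρ := by
        rw [mem_ball, dist_eq_norm]
        have e : z - w = (‖w‖ * ‖x‖⁻¹) • (x - ‖x‖ • p) := by
          rw [hz, smul_sub, smul_smul, hp, smul_smul]
          have : ‖w‖ * ‖x‖⁻¹ * ‖x‖ * ‖w‖⁻¹ = 1 := by
            have := hxn.ne'; have := hwn.ne'; field_simp
          rw [this, one_smul]
        rw [e, norm_smul, norm_mul, norm_inv, norm_norm, norm_norm]
        calc ‖w‖ * ‖x‖⁻¹ * ‖x - ‖x‖ • p‖ < ‖w‖ * ‖x‖⁻¹ * (ρ / ‖w‖ * ‖x‖) := by gcongr
          _ = ρ := by have := hxn.ne'; have := hwn.ne'; field_simp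
      have h1 : L z = B z := hρs hzw
      have h2 : L₁ z = z := by
        rw [hL₁a, h1, ← hA, ContinuousLinearEquiv.symm_apply_apply]
      rw [hxz, hL₁c _ (by positivity), h2]
    have hL₁A : Approximable (stdGroup E) L₁ := by
      refine cone_approximable containsSmall_stdGroup hL₁c ?_ hpn (by positivity) hid
      intro y hy
      obtain ⟨a, ha, hae⟩ := hloc y hy
      refine ⟨A.symm.toHomeomorph * a,
        (approximable_of_mem (containsLinear_stdGroup _)).mul ha, ?_⟩
      filter_upwards [hae] with z hz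
      rw [hL₁a, hz]; rfl
    have hLe : L = A.toHomeomorph * L₁ := by
      ext x
      rw [Homeomorph.mul_apply, hL₁a]
      change L x = A (A.symm (L x))
      simp
    rw [hLe]
    exact (approximable_of_mem (containsLinear_stdGroup _)).mul hL₁A

/-- **Every piecewise linear homeomorphism is approximable** by products of Lipschitz-small
homeomorphisms and linear maps. -/
theorem piecewiseLinear_approximable {E : Type} [NormedAddCommGroup E] [NormedSpace ℝ E]
    [FiniteDimensional ℝ E] {h : E ≃ₜ E} (hh : IsPiecewiseLinear h) :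
    Approximable (stdGroup E) h := by
  haveI : ProperSpace E := FiniteDimensional.proper ℝ E
  refine approximable_idem (approximable_of_local containsSmall_stdGroup.approx fun x => ?_)
  obtain ⟨L, hLc, hLs, r, hr, hLM⟩ := exists_germ hh x
  have hLA := conic_approximable _ E rfl L hLc hLs
  set a : E ≃ₜ E := Homeomorph.addRight (h x) * L * Homeomorph.addRight (-x) with ha
  have haA : Approximable (stdGroup E) a :=
    ((approximable_of_mem (translation_mem_stdGroup _)).mul hLA).mul
      (approximable_of_mem (translation_mem_stdGroup _))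
  refine ⟨ball x r, ball_mem_nhds x hr, fun ε hε => ⟨a, haA, fun z hz => ?_⟩⟩
  have h1 : ‖z - x‖ < r := by simpa [mem_ball, dist_eq_norm] using hz
  have h2 := hLM (z - x) h1
  rw [add_sub_cancel] at h2
  have h3 : a z = h z := by
    simp only [ha, Homeomorph.mul_apply, addRight_apply]
    rw [h2, ← sub_eq_add_neg, add_comm]
  rw [h3, dist_self]; exact hε

end Pool.Agent.Helper25
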