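import Pool.Agent.Helper25.StdA

/-!
The group of piecewise linear homeomorphisms, and the approximation of small Lipschitz
perturbations of the identity by piecewise linear homeomorphisms.
-/

open Set Metric Topology Filter
open scoped NNReal

namespace Pool.Agent.Helper25

section group

variable {E : Type*} [NormedAddCommGroup E] [NormedSpace ℝ E]

theorem isPiecewiseLinear_affine (A : E →ᵃ[ℝ] E) : IsPiecewiseLinear (A : E → E) :=
  fun _ => ⟨univ, univ_mem, {A}, finite_singleton A, fun _ _ => ⟨A, rfl, rfl⟩⟩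

theorem IsPiecewiseLinear.comp {h g : E → E} (hh : IsPiecewiseLinear h) (hg : IsPiecewiseLinear g)
    (hgc : Continuous g) : IsPiecewiseLinear (h ∘ g) := by
  intro x
  obtain ⟨U, hU, S, hS, hUS⟩ := hg x
  obtain ⟨V, hV, T, hT, hVT⟩ := hh (g x)
  refine ⟨U ∩ g ⁻¹' V, inter_mem hU (hgc.continuousAt hV),
    image2 (fun A B => A.comp B) T S, hT.image2 _ hS, fun y hy => ?_⟩
  obtain ⟨B, hB, hBe⟩ := hUS y hy.1
  obtain ⟨A, hA, hAe⟩ := hVT (g y) hy.2
  refine ⟨A.comp B, mem_image2_of_mem hA hB, ?_⟩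
  rw [Function.comp_apply, hAe, hBe]; rfl

variable [FiniteDimensional ℝ E]

theorem IsPiecewiseLinear.symm {h : E ≃ₜ E} (hh : IsPiecewiseLinear h) :
    IsPiecewiseLinear h.symm := by
  intro y
  set x := h.symm y with hx
  have hy : h x = y := h.apply_symm_apply y
  obtain ⟨r, hr, S, hS, hsel⟩ := local_selection hh x
  set q : E → E := fun v => h (x + v) - h x with hq
  have hqc : Continuous q := by
    have := h.continuous
    fun_prop
  have hqi : Function.Injective q := by
    intro v w hvw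
    simp only [hq] at hvw
    exact add_left_cancel (h.injective (sub_left_injective hvw))
  let f : (E →ₗ[ℝ] E) → (E →ᵃ[ℝ] E) := fun B => by
    classical
    exact if hB : Function.Injective B then
      ((LinearEquiv.ofInjectiveEndo B hB).symm : E →ₗ[ℝ] E).toAffineMap.comp
        (AffineMap.id ℝ E - AffineMap.const ℝ E y) + AffineMap.const ℝ E x
      else 0
  refine ⟨h.symm ⁻¹' (ball x r), h.symm.continuous.continuousAt (by
    rw [← hx]; exact ball_mem_nhds x hr), f '' S, hS.image f, fun z hz => ?_⟩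
  have hv : ‖h.symm z - x‖ < r := by
    rw [← dist_eq_norm]; exact hz
  obtain ⟨B, hB, hBi, hBe⟩ := injective_selection hqc hqi hS hsel hv
  refine ⟨f B, mem_image_of_mem f hB, ?_⟩
  have h1 : f B = ((LinearEquiv.ofInjectiveEndo B hBi).symm : E →ₗ[ℝ] E).toAffineMap.comp
        (AffineMap.id ℝ E - AffineMap.const ℝ E y) + AffineMap.const ℝ E x := dif_pos hBi
  rw [h1]
  have h2 : q (h.symm z - x) = z - y := by
    simp only [hq]
    rw [add_sub_cancel, h.apply_symm_apply, hy]
  rw [h2] at hBe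
  have h3 : h.symm z - x = (LinearEquiv.ofInjectiveEndo B hBi).symm (z - y) := by
    rw [LinearEquiv.eq_symm_apply]
    exact hBe.symm
  change h.symm z = (LinearEquiv.ofInjectiveEndo B hBi).symm (z - y) + x
  rw [← h3, sub_add_cancel]

variable (E) in
/-- The group of piecewise linear homeomorphisms. -/
def plGroup : Subgroup (E ≃ₜ E) where
  carrier := {g | IsPiecewiseLinear g}
  mul_mem' {a b} ha hb := by
    have : IsPiecewiseLinear ((a : E → E) ∘ b) := IsPiecewiseLinear.comp ha hb b.continuous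
    exact this
  one_mem' := isPiecewiseLinear_affine (AffineMap.id ℝ E)
  inv_mem' {a} ha := IsPiecewiseLinear.symm ha

theorem mem_plGroup {g : E ≃ₜ E} : g ∈ plGroup E ↔ IsPiecewiseLinear g := Iff.rfl

theorem containsLinear_plGroup : ContainsLinear (plGroup E) := by
  intro A
  have := isPiecewiseLinear_affine ((A : E →L[ℝ] E) : E →ₗ[ℝ] E).toAffineMap
  exact this

end group

section mcshane

variable {n : ℕ}

/-- the `ℓ¹` distance -/
def distOne (x y : EuclideanSpace ℝ (Fin n)) : ℝ := ∑ j, |x j - y j|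

theorem distOne_nonneg (x y : EuclideanSpace ℝ (Fin n)) : 0 ≤ distOne x y :=
  Finset.sum_nonneg fun _ _ => abs_nonneg _

theorem distOne_triangle (x y z : EuclideanSpace ℝ (Fin n)) :
    distOne x z ≤ distOne x y + distOne y z := by
  unfold distOne
  rw [← Finset.sum_add_distrib]
  exact Finset.sum_le_sum fun j _ => abs_sub_le _ _ _

theorem norm_le_distOne (x y : EuclideanSpace ℝ (Fin n)) : ‖x - y‖ ≤ distOne x y := by
  rw [EuclideanSpace.norm_eq]
  refine Real.sqrt_le_iff.mpr ⟨distOne_nonneg x y, ?_⟩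
  unfold distOne
  have := Finset.sum_sq_le_sq_sum_of_nonneg (s := (Finset.univ : Finset (Fin n)))
    (f := fun j => |x j - y j|) (fun j _ => abs_nonneg _)
  simpa using this

theorem distOne_le (x y : EuclideanSpace ℝ (Fin n)) : distOne x y ≤ n * ‖x - y‖ := by
  unfold distOne
  calc ∑ j, |x j - y j| ≤ ∑ _j : Fin n, ‖x - y‖ := by
        refine Finset.sum_le_sum fun j _ => ?_
        have := PiLp.norm_apply_le (x - y) j
        simpa [Real.norm_eq_abs] using this
    _ = n * ‖x - y‖ := by simp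

/-- The piecewise linear McShane extension from a finite set of points. -/
noncomputable def mcShane (P : Finset (EuclideanSpace ℝ (Fin n))) (hP : P.Nonempty) (κ : ℝ)
    (v : EuclideanSpace ℝ (Fin n) → ℝ) (x : EuclideanSpace ℝ (Fin n)) : ℝ :=
  P.inf' hP fun p => v p + κ * distOne x p

variable {P : Finset (EuclideanSpace ℝ (Fin n))} {hP : P.Nonempty} {κ : ℝ}
  {v : EuclideanSpace ℝ (Fin n) → ℝ}

theorem mcShane_le_add (hκ : 0 ≤ κ) (x y : EuclideanSpace ℝ (Fin n)) :
    mcShane P hP κ v x ≤ mcShane P hP κ v y + κ * distOne x y := by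
  obtain ⟨p, hp, he⟩ := P.exists_mem_eq_inf' hP fun p => v p + κ * distOne y p
  have h1 : mcShane P hP κ v x ≤ v p + κ * distOne x p := P.inf'_le _ hp
  have h2 : mcShane P hP κ v y = v p + κ * distOne y p := he
  have h3 := mul_le_mul_of_nonneg_left (distOne_triangle x y p) hκ
  rw [h2]; linarith

theorem mcShane_lipschitz (hκ : 0 ≤ κ) (x y : EuclideanSpace ℝ (Fin n)) :
    |mcShane P hP κ v x - mcShane P hP κ v y| ≤ κ * (n * ‖x - y‖) := by
  have h1 := mcShane_le_add (P := P) (hP := hP) (v := v) hκ x y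
  have h2 := mcShane_le_add (P := P) (hP := hP) (v := v) hκ y x
  have h3 := mul_le_mul_of_nonneg_left (distOne_le x y) hκ
  have h4 := mul_le_mul_of_nonneg_left (distOne_le y x) hκ
  rw [norm_sub_rev y x] at h4
  rw [abs_le]
  constructor <;> linarith

theorem mcShane_lower (hκ : 0 ≤ κ) (hv : ∀ x y, |v x - v y| ≤ κ * ‖x - y‖)
    (x : EuclideanSpace ℝ (Fin n)) : v x ≤ mcShane P hP κ v x := by
  unfold mcShane
  rw [Finset.le_inf'_iff]
  intro p _
  have h1 := (abs_le.mp (hv x p)).2
  have h2 := mul_le_mul_of_nonneg_left (norm_le_distOne x p) hκ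
  linarith

theorem mcShane_upper (hκ : 0 ≤ κ) (hv : ∀ x y, |v x - v y| ≤ κ * ‖x - y‖)
    {x p : EuclideanSpace ℝ (Fin n)} (hp : p ∈ P) {η : ℝ} (hη : ‖x - p‖ ≤ η) :
    mcShane P hP κ v x ≤ v x + κ * ((n + 1) * η) := by
  have h0 : mcShane P hP κ v x ≤ v p + κ * distOne x p := P.inf'_le _ hp
  have h1 := (abs_le.mp (hv x p)).1
  have h2 := mul_le_mul_of_nonneg_left (distOne_le x p) hκ
  have h3 : κ * ((n + 1) * ‖x - p‖) ≤ κ * ((n + 1) * η) := by gcongr
  linarith

theorem mcShane_attained (x : EuclideanSpace ℝ (Fin n)) :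
    ∃ p ∈ P, mcShane P hP κ v x = v p + κ * distOne x p := by
  obtain ⟨p, hp, he⟩ := P.exists_mem_eq_inf' hP fun p => v p + κ * distOne x p
  exact ⟨p, hp, he⟩

/-- the linear part used in `affFam` -/
noncomputable def linFam (κ : ℝ) (s : Fin n → Fin n → ℝ) :
    EuclideanSpace ℝ (Fin n) →ₗ[ℝ] EuclideanSpace ℝ (Fin n) where
  toFun x := WithLp.toLp 2 fun i => x i + κ * ∑ j, s i j * x j
  map_add' x y := by
    ext i
    simp only [PiLp.add_apply, mul_add, Finset.sum_add_distrib]
    ring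
  map_smul' c x := by
    ext i
    simp only [PiLp.smul_apply, smul_eq_mul, RingHom.id_apply, mul_left_comm _ c,
      ← Finset.mul_sum]
    ring

/-- the affine maps occurring in the approximation -/
noncomputable def affFam (κ : ℝ) (c : EuclideanSpace ℝ (Fin n)) (s : Fin n → Fin n → ℝ) :
    EuclideanSpace ℝ (Fin n) →ᵃ[ℝ] EuclideanSpace ℝ (Fin n) :=
  (linFam κ s).toAffineMap + AffineMap.const ℝ _ c

theorem affFam_apply (κ : ℝ) (c : EuclideanSpace ℝ (Fin n)) (s : Fin n → Fin n → ℝ)
    (x : EuclideanSpace ℝ (Fin n)) (i : Fin n) :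
    affFam κ c s x i = x i + κ * ∑ j, s i j * x j + c i := rfl

/-- Maps whose displacement is a McShane extension are piecewise linear. -/
theorem isPiecewiseLinear_mcShane (u : EuclideanSpace ℝ (Fin n) → EuclideanSpace ℝ (Fin n)) :
    IsPiecewiseLinear fun x : EuclideanSpace ℝ (Fin n) =>
      x + WithLp.toLp 2 fun i => mcShane P hP κ (fun y => u y i) x := by
  classical
  intro x
  let sg : Bool → ℝ := fun b => if b then 1 else -1
  let Λ := (Fin n → P) × (Fin n → Fin n → Bool)
  let A : Λ → (EuclideanSpace ℝ (Fin n) →ᵃ[ℝ] EuclideanSpace ℝ (Fin n)) := fun l =>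
    affFam κ (WithLp.toLp 2 fun i => u (l.1 i) i - κ * ∑ j, sg (l.2 i j) * (l.1 i : EuclideanSpace ℝ (Fin n)) j)
      (fun i j => sg (l.2 i j))
  refine ⟨univ, univ_mem, range A, finite_range A, fun y _ => ?_⟩
  choose p hp hpe using fun i : Fin n => mcShane_attained (P := P) (hP := hP) (κ := κ)
    (v := fun y => u y i) y
  refine ⟨_, mem_range_self (⟨fun i => ⟨p i, hp i⟩, fun i j => decide (0 ≤ y j - p i j)⟩ : Λ), ?_⟩
  ext i
  simp only [A]
  rw [affFam_apply, PiLp.add_apply]
  change y i + mcShane P hP κ (fun y => u y i) y = _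
  rw [hpe i]
  have h1 : distOne y (p i) = ∑ j, sg (decide (0 ≤ y j - p i j)) * (y j - p i j) := by
    unfold distOne
    refine Finset.sum_congr rfl fun j _ => ?_
    by_cases hs : 0 ≤ y j - p i j
    · simp only [sg, hs, decide_true, if_true, one_mul]
      exact abs_of_nonneg hs
    · push Not at hs
      simp only [sg, not_le.mpr hs, decide_false, Bool.false_eq_true, if_false]
      rw [abs_of_neg hs]; ring
  rw [h1]
  have h2 : ∑ j, sg (decide (0 ≤ y j - p i j)) * (y j - p i j) =
      ∑ j, sg (decide (0 ≤ y j - p i j)) * y j - ∑ j, sg (decide (0 ≤ y j - p i j)) * p i j := by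
    rw [← Finset.sum_sub_distrib]
    exact Finset.sum_congr rfl fun j _ => by ring
  rw [h2]
  ring

end mcshane

/-- Small Lipschitz perturbations of the identity are limits of piecewise linear
homeomorphisms. -/
theorem small_approximable_plGroup {n : ℕ} {κ : ℝ≥0} (hκ : (κ : ℝ) * (n + 1) ^ 2 < 1)
    {t : EuclideanSpace ℝ (Fin n) ≃ₜ EuclideanSpace ℝ (Fin n)}
    (ht : LipschitzWith κ (fun x => t x - x)) :
    Approximable (plGroup (EuclideanSpace ℝ (Fin n))) t := by
  intro B hB ε hε
  obtain ⟨R, hR⟩ := hB.exists_norm_le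
  have hv : ∀ i : Fin n, ∀ x y, |(t x - x) i - (t y - y) i| ≤ κ * ‖x - y‖ := by
    intro i x y
    have h1 := ht.dist_le_mul x y
    rw [dist_eq_norm, dist_eq_norm] at h1
    have h2 := PiLp.norm_apply_le ((t x - x) - (t y - y)) i
    rw [PiLp.sub_apply, Real.norm_eq_abs] at h2
    exact h2.trans h1
  set η : ℝ := ε / (2 * (n + 1) ^ 2 * (κ + 1)) with hη
  have hη0 : 0 < η := by positivity
  obtain ⟨P₀, hP₀, hcov⟩ : ∃ P₀ : Finset (EuclideanSpace ℝ (Fin n)), P₀.Nonempty ∧
      ∀ x, ‖x‖ ≤ R → ∃ p ∈ P₀, ‖x - p‖ ≤ η := by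
    classical
    obtain ⟨T, hT, hTc⟩ := Metric.totallyBounded_iff.mp
      (isCompact_closedBall (0 : EuclideanSpace ℝ (Fin n)) R).totallyBounded η hη0
    refine ⟨insert 0 hT.toFinset, Finset.insert_nonempty _ _, fun x hx => ?_⟩
    have := hTc (show x ∈ closedBall 0 R by simpa using hx)
    simp only [mem_iUnion] at this
    obtain ⟨p, hp, hxp⟩ := this
    refine ⟨p, Finset.mem_insert_of_mem (hT.mem_toFinset.mpr hp), ?_⟩
    rw [← dist_eq_norm]; exact (mem_ball.mp hxp).le
  set w : EuclideanSpace ℝ (Fin n) → EuclideanSpace ℝ (Fin n) := fun x =>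
    WithLp.toLp 2 fun i => mcShane P₀ hP₀ κ (fun y => (t y - y) i) x with hw
  -- norm bound from coordinates
  have hcoord : ∀ (z : EuclideanSpace ℝ (Fin n)) (C : ℝ), (∀ i, |z i| ≤ C) → ‖z‖ ≤ n * C := by
    intro z C hz
    have h1 := norm_le_distOne z 0
    rw [sub_zero] at h1
    refine h1.trans ?_
    unfold distOne
    calc ∑ j, |z j - (0 : EuclideanSpace ℝ (Fin n)) j| ≤ ∑ _j : Fin n, C := by
          refine Finset.sum_le_sum fun j _ => ?_
          simpa using hz j
      _ = n * C := by simp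
  have hwL : LipschitzWith (κ * (n + 1) ^ 2) w := by
    refine LipschitzWith.of_dist_le_mul fun x y => ?_
    rw [dist_eq_norm, dist_eq_norm]
    have h1 := hcoord (w x - w y) (κ * (n * ‖x - y‖)) fun i => by
      rw [PiLp.sub_apply]
      exact mcShane_lipschitz (P := P₀) (hP := hP₀) (v := fun y => (t y - y) i)
        κ.coe_nonneg x y
    refine h1.trans ?_
    push_cast
    have h2 : 0 ≤ (κ : ℝ) * ‖x - y‖ := by positivity
    have h3 : (n : ℝ) * n ≤ (n + 1) ^ 2 := by nlinarith [(Nat.cast_nonneg n : (0 : ℝ) ≤ n)]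
    nlinarith
  have hK1 : κ * (n + 1) ^ 2 < 1 := by
    rw [← NNReal.coe_lt_coe]; push_cast; exact hκ
  obtain ⟨g, hg⟩ := exists_homeo_add hK1 hwL
  refine ⟨g, ?_, fun x hx => ?_⟩
  · have h1 : (g : EuclideanSpace ℝ (Fin n) → EuclideanSpace ℝ (Fin n)) = fun x => x + w x :=
      funext hg
    change IsPiecewiseLinear g
    rw [h1]
    exact isPiecewiseLinear_mcShane (P := P₀) (hP := hP₀) (κ := κ) fun y => t y - y
  · obtain ⟨p, hp, hxp⟩ := hcov x (hR x hx)
    rw [dist_eq_norm, hg]
    have e : x + w x - t x = w x - (t x - x) := by abel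
    rw [e]
    have h1 := hcoord (w x - (t x - x)) (κ * ((n + 1) * η)) fun i => by
      rw [PiLp.sub_apply]
      have h2 := mcShane_lower (P := P₀) (hP := hP₀) κ.coe_nonneg (hv i) x
      have h3 := mcShane_upper (P := P₀) (hP := hP₀) κ.coe_nonneg (hv i) hp hxp
      have h4 : w x i = mcShane P₀ hP₀ κ (fun y => (t y - y) i) x := rfl
      rw [h4, abs_of_nonneg (by linarith)]
      linarith
    refine lt_of_le_of_lt h1 ?_
    have h5 : (n : ℝ) * (κ * ((n + 1) * η)) ≤ (n + 1) ^ 2 * (κ + 1) * η := by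
      have hn : (0 : ℝ) ≤ n := Nat.cast_nonneg n
      have hk : (0 : ℝ) ≤ κ := κ.coe_nonneg
      have : (n : ℝ) * (κ * (n + 1)) ≤ (n + 1) ^ 2 * (κ + 1) := by nlinarith [mul_nonneg hn hk]
      nlinarith
    refine lt_of_le_of_lt h5 ?_
    have h6 : ((n : ℝ) + 1) ^ 2 * (κ + 1) * η = ε / 2 := by
      rw [hη]
      have : ((n : ℝ) + 1) ≠ 0 := by positivity
      have : ((κ : ℝ) + 1) ≠ 0 := by positivity
      field_simp
    rw [h6]; linarith

/-- Elements of the standard group are limits of piecewise linear homeomorphisms. -/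
theorem stdGroup_approximable_plGroup {n : ℕ}
    {s : EuclideanSpace ℝ (Fin n) ≃ₜ EuclideanSpace ℝ (Fin n)}
    (hs : s ∈ stdGroup (EuclideanSpace ℝ (Fin n))) :
    Approximable (plGroup (EuclideanSpace ℝ (Fin n))) s := by
  have : stdGroup (EuclideanSpace ℝ (Fin n)) ≤ approxSubgroup (plGroup _) := by
    rw [stdGroup, Subgroup.closure_le]
    rintro s (⟨K, hK, hs⟩ | ⟨A, rfl⟩)
    · have hn : (0 : ℝ) < ((n : ℝ) + 1) ^ 2 := by positivity
      refine small_decomposition_lip hK hs (κ := 1 / (2 * (n + 1) ^ 2)) (by positivity)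
        fun t ht => ?_
      refine small_approximable_plGroup ?_ ht
      push_cast
      rw [div_mul_eq_mul_div, div_lt_one (by positivity)]
      linarith
    · exact approximable_of_mem (containsLinear_plGroup A)
  exact this hs

end Pool.Agent.Helper25
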