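import Pool.Agent.Helper25.Cone
import Pool.Agent.Helper25.LipApprox

/-!
Radial homeomorphisms are approximable.
-/

open Set Metric Topology Filter
open scoped NNReal

namespace Pool.Agent.Helper25

variable {E : Type*} [NormedAddCommGroup E] [NormedSpace ℝ E]

/-- positive homogeneity -/
def IsConic (L : E → E) : Prop := ∀ t : ℝ, 0 < t → ∀ x, L (t • x) = t • L x

theorem unit_dist (x y : E) (hx : x ≠ 0) (hy : y ≠ 0) :
    ‖‖x‖⁻¹ • x - ‖y‖⁻¹ • y‖ * ‖y‖ ≤ 2 * ‖x - y‖ := by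
  have hx' : 0 < ‖x‖ := norm_pos_iff.mpr hx
  have hy' : 0 < ‖y‖ := norm_pos_iff.mpr hy
  have e1 : ‖‖x‖⁻¹ • x - ‖y‖⁻¹ • y‖ * ‖y‖ = ‖(‖y‖ * ‖x‖⁻¹) • x - y‖ := by
    rw [mul_comm]
    nth_rewrite 1 [← abs_of_pos hy']
    rw [← Real.norm_eq_abs, ← norm_smul, smul_sub, smul_smul, smul_smul,
      mul_inv_cancel₀ hy'.ne', one_smul]
  have e2 : (‖y‖ * ‖x‖⁻¹) • x - y = ((‖y‖ - ‖x‖) * ‖x‖⁻¹) • x + (x - y) := by
    rw [sub_mul, mul_inv_cancel₀ hx'.ne', sub_smul, one_smul]; abel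
  rw [e1, e2]
  calc ‖((‖y‖ - ‖x‖) * ‖x‖⁻¹) • x + (x - y)‖ ≤ ‖((‖y‖ - ‖x‖) * ‖x‖⁻¹) • x‖ + ‖x - y‖ :=
        norm_add_le _ _
    _ = |‖y‖ - ‖x‖| + ‖x - y‖ := by
        rw [norm_smul, norm_mul, Real.norm_eq_abs, norm_inv, norm_norm, mul_assoc,
          inv_mul_cancel₀ hx'.ne', mul_one]
    _ ≤ ‖x - y‖ + ‖x - y‖ := by
        gcongr
        rw [norm_sub_rev]; exact abs_norm_sub_norm_le y x
    _ = 2 * ‖x - y‖ := by ring

theorem radial_lipschitz {g : E → ℝ} {a b : ℝ≥0} (hg : LipschitzWith a g) (hb : ∀ x, |g x| ≤ b) :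
    LipschitzWith (b + 2 * a) (fun x : E => g (‖x‖⁻¹ • x) • x) := by
  refine LipschitzWith.of_dist_le_mul fun x y => ?_
  rw [dist_eq_norm, dist_eq_norm]
  push_cast
  by_cases hy : y = 0
  · subst hy
    simp only [smul_zero, sub_zero, norm_smul, Real.norm_eq_abs]
    have h1 := hb (‖x‖⁻¹ • x)
    have h2 : 0 ≤ ‖x‖ := norm_nonneg x
    have h3 : (0 : ℝ) ≤ a := a.2
    nlinarith [mul_le_mul_of_nonneg_right h1 h2, mul_nonneg h3 h2]
  by_cases hx : x = 0
  · subst hx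
    simp only [smul_zero, zero_sub, norm_neg, norm_smul, Real.norm_eq_abs]
    have h1 := hb (‖y‖⁻¹ • y)
    have h2 : 0 ≤ ‖y‖ := norm_nonneg y
    have h3 : (0 : ℝ) ≤ a := a.2
    nlinarith [mul_le_mul_of_nonneg_right h1 h2, mul_nonneg h3 h2]
  have e : g (‖x‖⁻¹ • x) • x - g (‖y‖⁻¹ • y) • y =
      g (‖x‖⁻¹ • x) • (x - y) + (g (‖x‖⁻¹ • x) - g (‖y‖⁻¹ • y)) • y := by
    rw [smul_sub, sub_smul]; abel
  rw [e]
  have h1 := hg.dist_le_mul (‖x‖⁻¹ • x) (‖y‖⁻¹ • y)
  rw [Real.dist_eq, dist_eq_norm] at h1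
  calc ‖g (‖x‖⁻¹ • x) • (x - y) + (g (‖x‖⁻¹ • x) - g (‖y‖⁻¹ • y)) • y‖
      ≤ ‖g (‖x‖⁻¹ • x) • (x - y)‖ + ‖(g (‖x‖⁻¹ • x) - g (‖y‖⁻¹ • y)) • y‖ := norm_add_le _ _
    _ = |g (‖x‖⁻¹ • x)| * ‖x - y‖ + |g (‖x‖⁻¹ • x) - g (‖y‖⁻¹ • y)| * ‖y‖ := by
        rw [norm_smul, norm_smul, Real.norm_eq_abs, Real.norm_eq_abs]
    _ ≤ b * ‖x - y‖ + (a * ‖‖x‖⁻¹ • x - ‖y‖⁻¹ • y‖) * ‖y‖ := by
        gcongr
        exact hb _
    _ = b * ‖x - y‖ + a * (‖‖x‖⁻¹ • x - ‖y‖⁻¹ • y‖ * ‖y‖) := by ring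
    _ ≤ b * ‖x - y‖ + a * (2 * ‖x - y‖) :=
        add_le_add le_rfl (mul_le_mul_of_nonneg_left (unit_dist x y hx hy) (NNReal.coe_nonneg a))
    _ = (b + 2 * a) * ‖x - y‖ := by ring

theorem abs_exp_sub_exp_le {x y : ℝ} (hx : |x| ≤ 1) (hy : |y| ≤ 1) :
    |Real.exp x - Real.exp y| ≤ 3 * |x - y| := by
  wlog hxy : y ≤ x generalizing x y
  · have := this hy hx (le_of_not_ge hxy)
    rwa [abs_sub_comm, abs_sub_comm x y]
  have h1 : Real.exp x - Real.exp y ≤ Real.exp x * (x - y) := by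
    have h2 : 1 - (x - y) ≤ Real.exp (-(x - y)) := by
      have := Real.add_one_le_exp (-(x - y)); linarith
    have h3 : Real.exp y = Real.exp x * Real.exp (-(x - y)) := by
      rw [← Real.exp_add]; congr 1; ring
    rw [h3]
    nlinarith [Real.exp_pos x, mul_le_mul_of_nonneg_left h2 (Real.exp_pos x).le]
  have h4 : Real.exp x ≤ 3 := by
    have : Real.exp x ≤ Real.exp 1 := Real.exp_le_exp.mpr (abs_le.mp hx).2
    have h5 := Real.exp_one_lt_d9
    linarith
  have h6 : 0 ≤ Real.exp x - Real.exp y := by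
    have := Real.exp_le_exp.mpr hxy; linarith
  rw [abs_of_nonneg h6, abs_of_nonneg (by linarith)]
  nlinarith

/-- the function `x ↦ exp (t f(x/‖x‖)) x` -/
noncomputable def radialFun (f : E → ℝ) (t : ℝ) (x : E) : E := Real.exp (t * f (‖x‖⁻¹ • x)) • x

theorem radialFun_unit (f : E → ℝ) (t : ℝ) (x : E) :
    ‖radialFun f t x‖⁻¹ • radialFun f t x = ‖x‖⁻¹ • x := by
  unfold radialFun
  rw [norm_smul, Real.norm_eq_abs, abs_of_pos (Real.exp_pos _), smul_smul, mul_inv]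
  congr 1
  have := (Real.exp_pos (t * f (‖x‖⁻¹ • x))).ne'
  field_simp

theorem radialFun_comp (f : E → ℝ) (s t : ℝ) (x : E) :
    radialFun f s (radialFun f t x) = radialFun f (s + t) x := by
  have h1 : radialFun f s (radialFun f t x) =
      Real.exp (s * f (‖radialFun f t x‖⁻¹ • radialFun f t x)) • radialFun f t x := rfl
  rw [h1, radialFun_unit]
  unfold radialFun
  rw [smul_smul, ← Real.exp_add]
  congr 2; ring

theorem exists_radial_homeo {G : Subgroup (E ≃ₜ E)} (hG : ContainsSmall G) {f : E → ℝ}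
    {K M : ℝ≥0} (hf : LipschitzWith K f) (hM : ∀ x, |f x| ≤ M) :
    ∃ R ∈ G, ∀ x, R x = Real.exp (f (‖x‖⁻¹ • x)) • x := by
  obtain ⟨κ, hκ, hsmall⟩ := hG
  -- small times
  have hdispL : ∀ t : ℝ, |t| * M ≤ 1 →
      LipschitzWith (2 * ‖t‖₊ * M + 2 * (3 * (‖t‖₊ * K))) (fun x => radialFun f t x - x) := by
    intro t ht
    have e : (fun x => radialFun f t x - x) =
        fun x : E => (Real.exp (t * f (‖x‖⁻¹ • x)) - 1) • x := by
      funext x; unfold radialFun; rw [sub_smul, one_smul]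
    rw [e]
    have hb : ∀ x, |t * f x| ≤ 1 := by
      intro x
      rw [abs_mul]
      calc |t| * |f x| ≤ |t| * M := by gcongr; exact hM x
        _ ≤ 1 := ht
    refine radial_lipschitz (g := fun z => Real.exp (t * f z) - 1) ?_ ?_
    · refine LipschitzWith.of_dist_le_mul fun x y => ?_
      have h1 := hf.dist_le_mul x y
      rw [Real.dist_eq] at h1 ⊢
      push_cast
      rw [Real.norm_eq_abs, sub_sub_sub_cancel_right]
      calc |Real.exp (t * f x) - Real.exp (t * f y)| ≤ 3 * |t * f x - t * f y| :=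
            abs_exp_sub_exp_le (hb x) (hb y)
        _ = 3 * (|t| * |f x - f y|) := by rw [← mul_sub, abs_mul]
        _ ≤ 3 * (|t| * (K * dist x y)) := by gcongr
        _ = 3 * (|t| * K) * dist x y := by ring
    · intro x
      push_cast
      rw [Real.norm_eq_abs]
      calc |Real.exp (t * f x) - 1| ≤ 2 * |t * f x| := Real.abs_exp_sub_one_le (hb x)
        _ = 2 * |t| * |f x| := by rw [abs_mul]; ring
        _ ≤ 2 * |t| * M := by gcongr; exact hM x
  have hcont : ∀ t : ℝ, |t| * M ≤ 1 → Continuous (radialFun f t) := by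
    intro t ht
    have h1 := (hdispL t ht).continuous.add continuous_id
    convert h1 using 1
    funext x; simp
  -- number of steps
  set D : ℝ := M + 2 * M + 6 * K with hD
  have hD0 : 0 ≤ D := by positivity
  have hκ' : (0 : ℝ) < κ := by exact_mod_cast hκ
  obtain ⟨N, hN⟩ : ∃ N : ℕ, max 1 (D / min (1 : ℝ) (κ : ℝ)) < N := exists_nat_gt _
  have hN1 : (1 : ℝ) < N := (le_max_left _ _).trans_lt hN
  have hN0 : (0 : ℝ) < N := by linarith
  have hN2 : D / N ≤ min (1 : ℝ) (κ : ℝ) := by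
    rw [div_le_iff₀ hN0]
    have := (le_max_right 1 (D / min (1 : ℝ) (κ : ℝ))).trans_lt hN
    rw [div_lt_iff₀ (by positivity)] at this
    linarith
  set t : ℝ := 1 / N with ht
  have ht0 : 0 < t := by positivity
  have htM : |t| * M ≤ 1 := by
    rw [abs_of_pos ht0, ht]
    have h1 : 1 / (N : ℝ) * M ≤ D / N := by
      rw [one_div_mul_eq_div]; gcongr
      rw [hD]; have : (0 : ℝ) ≤ K := K.2
      have : (0 : ℝ) ≤ M := M.2
      linarith
    exact h1.trans (hN2.trans (min_le_left _ _))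
  have htM' : |(-t)| * M ≤ 1 := by rwa [abs_neg]
  let r : E ≃ₜ E :=
    { toFun := radialFun f t
      invFun := radialFun f (-t)
      left_inv := fun x => by rw [radialFun_comp, neg_add_cancel]; simp [radialFun]
      right_inv := fun x => by rw [radialFun_comp, add_neg_cancel]; simp [radialFun]
      continuous_toFun := hcont t htM
      continuous_invFun := hcont (-t) htM' }
  have hr : ∀ x, r x = radialFun f t x := fun x => rfl
  have hrG : r ∈ G := by
    apply hsmall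
    refine (hdispL t htM).weaken ?_
    rw [← NNReal.coe_le_coe]
    push_cast
    rw [Real.norm_eq_abs, abs_of_pos ht0]
    have h1 : 2 * t * M + 2 * (3 * (t * K)) ≤ D / N := by
      have e : 2 * t * M + 2 * (3 * (t * K)) = (2 * M + 6 * K) / N := by
        rw [ht]; ring
      rw [e]; gcongr
      rw [hD]; have : (0 : ℝ) ≤ M := M.2
      linarith
    exact h1.trans (hN2.trans (min_le_right _ _))
  have hpow : ∀ n : ℕ, ∀ x, (r ^ n) x = radialFun f (n * t) x := by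
    intro n
    induction n with
    | zero => intro x; simp [radialFun]
    | succ n ih =>
      intro x
      rw [pow_succ', Homeomorph.mul_apply, ih, hr, radialFun_comp]
      congr 1; push_cast; ring
  refine ⟨r ^ N, G.pow_mem hrG N, fun x => ?_⟩
  rw [hpow, ht, mul_one_div_cancel hN0.ne']
  simp [radialFun]

/-- Positively homogeneous homeomorphisms preserving all rays are approximable. -/
theorem radial_approximable [ProperSpace E] {G : Subgroup (E ≃ₜ E)} (hG : ContainsSmall G)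
    {R : E ≃ₜ E} (hR : IsConic R) (hray : ∀ x, ∃ c : ℝ, 0 < c ∧ R x = c • x) :
    Approximable G R := by
  intro B hB ε hε
  obtain ⟨R₀, hR₀, hBR⟩ : ∃ R₀ : ℝ, 0 ≤ R₀ ∧ B ⊆ closedBall 0 R₀ := by
    obtain ⟨R₀, h⟩ := hB.subset_closedBall 0
    exact ⟨max R₀ 0, le_max_right _ _, h.trans (closedBall_subset_closedBall (le_max_left _ _))⟩
  have hnorm : ∀ x : E, ‖x‖ = 1 → 0 < ‖R x‖ ∧ R x = ‖R x‖ • x := by
    intro x hx
    obtain ⟨c, hc, hRx⟩ := hray x
    have h1 : ‖R x‖ = c := by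
      rw [hRx, norm_smul, hx, mul_one, Real.norm_eq_abs, abs_of_pos hc]
    rw [h1]; exact ⟨hc, hRx⟩
  set S : Set E := sphere 0 1 with hS
  have hSc : IsCompact S := isCompact_sphere 0 1
  set f : E → ℝ := fun x => Real.log ‖R x‖ with hf
  have hfc : ContinuousOn f S := by
    intro x hx
    have hx1 : ‖x‖ = 1 := by simpa [hS] using hx
    have h1 : ContinuousAt (fun x => ‖R x‖) x := R.continuous.norm.continuousAt
    exact (h1.log (hnorm x hx1).1.ne').continuousWithinAt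
  obtain ⟨Mf, hMf⟩ := (hSc.image_of_continuousOn hfc).isBounded.exists_norm_le
  have hMf' : ∀ x ∈ S, f x ≤ Mf := fun x hx =>
    (le_abs_self _).trans (by simpa using hMf _ (mem_image_of_mem f hx))
  set η : ℝ := min 1 (ε / (4 * Real.exp Mf * (R₀ + 1))) with hη
  have hη0 : 0 < η := by positivity
  obtain ⟨K, M, g, hgL, hgM, hgf⟩ := exists_lipschitz_approx hSc hfc hη0
  obtain ⟨R', hR'G, hR'⟩ := exists_radial_homeo hG hgL hgM
  refine ⟨R', hR'G, fun x hx => ?_⟩
  have hxR : ‖x‖ ≤ R₀ := by simpa using hBR hx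
  by_cases hx0 : x = 0
  · subst hx0
    obtain ⟨c, hc, hRx⟩ := hray 0
    rw [hR', hRx, smul_zero, smul_zero, dist_self]; exact hε
  have hxn : 0 < ‖x‖ := norm_pos_iff.mpr hx0
  set z : E := ‖x‖⁻¹ • x with hz
  have hzn : ‖z‖ = 1 := by
    rw [hz, norm_smul, norm_inv, norm_norm, inv_mul_cancel₀ hxn.ne']
  have hzS : z ∈ S := by simpa [hS] using hzn
  have hxz : x = ‖x‖ • z := by rw [hz, smul_smul, mul_inv_cancel₀ hxn.ne', one_smul]
  have hRx : R x = Real.exp (f z) • x := by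
    have h1 : R x = ‖x‖ • R z := by
      conv_lhs => rw [hxz]
      exact hR _ hxn _
    have h2 : R z = Real.exp (f z) • z := by
      rw [hf, Real.exp_log (hnorm z hzn).1]; exact (hnorm z hzn).2
    rw [h1, h2, smul_comm, ← hxz]
  rw [hR', hRx, dist_eq_norm, ← sub_smul, norm_smul, Real.norm_eq_abs]
  have h3 : |g z - f z| ≤ η := hgf z hzS
  have h4 : |Real.exp (g z) - Real.exp (f z)| ≤ Real.exp Mf * (2 * η) := by
    have e : Real.exp (g z) - Real.exp (f z) = Real.exp (f z) * (Real.exp (g z - f z) - 1) := by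
      rw [mul_sub, ← Real.exp_add, mul_one]; congr 2; ring
    rw [e, abs_mul, abs_of_pos (Real.exp_pos _)]
    have h5 : |Real.exp (g z - f z) - 1| ≤ 2 * |g z - f z| :=
      Real.abs_exp_sub_one_le (h3.trans (min_le_left _ _))
    calc Real.exp (f z) * |Real.exp (g z - f z) - 1| ≤ Real.exp Mf * (2 * |g z - f z|) := by
          gcongr
          exact hMf' z hzS
      _ ≤ Real.exp Mf * (2 * η) := by gcongr
  calc |Real.exp (g z) - Real.exp (f z)| * ‖x‖ ≤ (Real.exp Mf * (2 * η)) * R₀ := by gcongr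
    _ ≤ (Real.exp Mf * (2 * (ε / (4 * Real.exp Mf * (R₀ + 1))))) * R₀ := by
        gcongr; exact min_le_right _ _
    _ = ε / 2 * (R₀ / (R₀ + 1)) := by
        have := (Real.exp_pos Mf).ne'
        field_simp; norm_num
    _ ≤ ε / 2 * 1 := by
        gcongr
        rw [div_le_one (by positivity)]; linarith
    _ < ε := by linarith

end Pool.Agent.Helper25
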