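import Pool.Agent.Helper25.Approx

/-!
Homeomorphisms which are Lipschitz-small perturbations of the identity.
-/

open Set Metric Topology Filter
open scoped NNReal

namespace Pool.Agent.Helper25

variable {E : Type*} [NormedAddCommGroup E] [NormedSpace ℝ E]

/-- If `u` is `K`-Lipschitz with `K < 1` then `x ↦ x + u x` is a homeomorphism. -/
theorem exists_homeo_add [CompleteSpace E] {K : ℝ≥0} (hK : K < 1) {u : E → E}
    (hu : LipschitzWith K u) : ∃ s : E ≃ₜ E, ∀ x, s x = x + u x := by
  classical
  have happ : ApproximatesLinearOn (fun x => x + u x)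
      ((ContinuousLinearEquiv.refl ℝ E : E ≃L[ℝ] E) : E →L[ℝ] E) univ K := by
    intro x _ y _
    have := hu.dist_le_mul x y
    simp only [ContinuousLinearEquiv.coe_refl, ContinuousLinearMap.coe_id', id_eq]
    rw [dist_eq_norm, dist_eq_norm] at this
    have e : x + u x - (y + u y) - (x - y) = u x - u y := by abel
    rw [e]
    exact this
  have hc : Subsingleton E ∨ K < ‖((ContinuousLinearEquiv.refl ℝ E).symm : E →L[ℝ] E)‖₊⁻¹ := by
    rcases subsingleton_or_nontrivial E with h | h
    · exact Or.inl h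
    · right
      have h1 : ‖((ContinuousLinearEquiv.refl ℝ E).symm : E →L[ℝ] E)‖₊ = 1 := by
        have : ((ContinuousLinearEquiv.refl ℝ E).symm : E →L[ℝ] E) = ContinuousLinearMap.id ℝ E := by
          ext x; rfl
        rw [this]
        exact ContinuousLinearMap.nnnorm_id
      rw [h1, inv_one]; exact hK
  refine ⟨happ.toHomeomorph _ hc, fun x => ?_⟩
  rfl

omit [NormedSpace ℝ E] in
/-- Lipschitz bound for the inverse of a small homeomorphism. -/
theorem lipschitz_symm_of_small {K : ℝ≥0} (hK : K < 1) {s : E ≃ₜ E}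
    (hs : LipschitzWith K (fun x => s x - x)) : LipschitzWith (1 - K)⁻¹ s.symm := by
  refine LipschitzWith.of_dist_le_mul fun x y => ?_
  have h := hs.dist_le_mul (s.symm x) (s.symm y)
  simp only [Homeomorph.apply_symm_apply] at h
  have hK' : (0 : ℝ) < 1 - K := by
    have : (K : ℝ) < 1 := by exact_mod_cast hK
    linarith
  have hcoe : (((1 - K)⁻¹ : ℝ≥0) : ℝ) = (1 - (K : ℝ))⁻¹ := by
    rw [NNReal.coe_inv, NNReal.coe_sub hK.le, NNReal.coe_one]
  rw [hcoe]
  rw [inv_mul_eq_div, le_div_iff₀ hK']
  have h2 : dist (s.symm x) (s.symm y) ≤ dist x y + dist (x - s.symm x) (y - s.symm y) := by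
    rw [dist_eq_norm, dist_eq_norm, dist_eq_norm]
    have : s.symm x - s.symm y = (x - y) - (x - s.symm x - (y - s.symm y)) := by abel
    rw [this]
    exact norm_sub_le _ _
  nlinarith [h, h2, dist_nonneg (x := s.symm x) (y := s.symm y)]

omit [NormedSpace ℝ E] in
theorem lipschitz_of_small {K : ℝ≥0} {s : E ≃ₜ E}
    (hs : LipschitzWith K (fun x => s x - x)) : LipschitzWith (1 + K) s := by
  have h1 : LipschitzWith (1 + K) (fun x => x + (s x - x)) := LipschitzWith.id.add hs
  simpa using h1

/-- The group contains all homeomorphisms `s` with `s - id` Lipschitz with constant at most `κ`. -/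
def ContainsSmall (G : Subgroup (E ≃ₜ E)) : Prop :=
  ∃ κ : ℝ≥0, 0 < κ ∧ ∀ s : E ≃ₜ E, LipschitzWith κ (fun x => s x - x) → s ∈ G

end Pool.Agent.Helper25
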