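import Pool.Agent.Helper25.PLGroup

/-!
Smoothing of one-coordinate homeomorphisms.
-/

open Set Metric Topology Filter MeasureTheory
open scoped NNReal ContDiff Convolution

namespace Pool.Agent.Helper25

section monotone

variable {E : Type*} [NormedAddCommGroup E] [NormedSpace ℝ E] [FiniteDimensional ℝ E]

/-- Smoothing preserving monotonicity in a direction. -/
theorem exists_smooth_monotone {f : E → ℝ} (hf : Continuous f) {e : E}
    (hmono : ∀ x, ∀ s t : ℝ, s ≤ t → f (x + s • e) ≤ f (x + t • e)) {δ : ℝ} (hδ : 0 < δ) :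
    ∃ g : E → ℝ, ContDiff ℝ ∞ g ∧
      (∀ a, ∀ η, (∀ x ∈ ball a δ, dist (f x) (f a) ≤ η) → dist (g a) (f a) ≤ η) ∧
      ∀ x, ∀ s t : ℝ, s ≤ t → g (x + s • e) ≤ g (x + t • e) := by
  borelize E
  set φ : ContDiffBump (0 : E) := ⟨δ / 2, δ, half_pos hδ, half_lt_self hδ⟩
  set μ : Measure E := Measure.addHaar
  refine ⟨φ.normed μ ⋆[ContinuousLinearMap.lsmul ℝ ℝ, μ] f, ?_,
    fun a η => φ.dist_normed_convolution_le hf.aestronglyMeasurable, ?_⟩
  · exact φ.hasCompactSupport_normed.contDiff_convolution_left _ φ.contDiff_normed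
      hf.locallyIntegrable
  · intro x s t hst
    have hex : ConvolutionExists (φ.normed μ) f (ContinuousLinearMap.lsmul ℝ ℝ) μ :=
      φ.hasCompactSupport_normed.convolutionExists_left_of_continuous_right _
        φ.continuous_normed.locallyIntegrable hf
    rw [convolution_def, convolution_def]
    refine integral_mono (hex _) (hex _) fun y => ?_
    simp only [ContinuousLinearMap.lsmul_apply, smul_eq_mul]
    refine mul_le_mul_of_nonneg_left ?_ (φ.nonneg_normed y)
    have := hmono (x - y) s t hst
    have e1 : x + s • e - y = x - y + s • e := by abel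
    have e2 : x + t • e - y = x - y + t • e := by abel
    rw [e1, e2]; exact this

end monotone

/-- The group of `C^k` diffeomorphisms. -/
def diffGroup (E : Type*) [NormedAddCommGroup E] [NormedSpace ℝ E] (k : WithTop ℕ∞) :
    Subgroup (E ≃ₜ E) where
  carrier := {g | ContDiff ℝ k g ∧ ContDiff ℝ k g.symm}
  mul_mem' {a b} ha hb := ⟨ha.1.comp hb.1, hb.2.comp ha.2⟩
  one_mem' := ⟨contDiff_id, contDiff_id⟩
  inv_mem' {a} ha := ⟨ha.2, ha.1⟩

theorem diffGroup_mono {E : Type*} [NormedAddCommGroup E] [NormedSpace ℝ E] {k l : WithTop ℕ∞}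
    (h : k ≤ l) : diffGroup E l ≤ diffGroup E k :=
  fun _ hg => ⟨hg.1.of_le h, hg.2.of_le h⟩

theorem containsLinear_diffGroup {E : Type*} [NormedAddCommGroup E] [NormedSpace ℝ E]
    (k : WithTop ℕ∞) : ContainsLinear (diffGroup E k) :=
  fun A => ⟨A.contDiff, A.symm.contDiff⟩

section onecoord

variable {n : ℕ}

/-- the `i`-th basis vector -/
noncomputable def bv (i : Fin n) : EuclideanSpace ℝ (Fin n) := EuclideanSpace.single i 1

theorem bv_same (i : Fin n) : bv i i = 1 := by simp [bv]

theorem bv_ne {i j : Fin n} (h : j ≠ i) : bv i j = 0 := by simp [bv, h]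

theorem norm_bv (i : Fin n) : ‖bv i‖ = 1 := by simp [bv]

theorem continuous_coord (i : Fin n) : Continuous fun x : EuclideanSpace ℝ (Fin n) => x i := by
  fun_prop

/-- Smooth homeomorphism from a smooth function with derivative bounded below in direction `i`. -/
theorem exists_diffeo_of_smooth (i : Fin n) {g : EuclideanSpace ℝ (Fin n) → ℝ}
    (hg : ContDiff ℝ ∞ g) {c : ℝ} (hc : 0 < c)
    (hmono : ∀ x, ∀ s t : ℝ, s ≤ t → g (x + s • bv i) + c * (t - s) ≤ g (x + t • bv i)) :
    ∃ H ∈ diffGroup (EuclideanSpace ℝ (Fin n)) ∞, ∀ x, H x = x + (g x - x i) • bv i := by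
  set F : EuclideanSpace ℝ (Fin n) → EuclideanSpace ℝ (Fin n) :=
    fun x => x + (g x - x i) • bv i with hF
  have hFi : ∀ x, F x i = g x := by
    intro x; simp only [hF, PiLp.add_apply, PiLp.smul_apply, smul_eq_mul, bv_same]; ring
  have hFj : ∀ x j, j ≠ i → F x j = x j := by
    intro x j hj
    simp only [hF, PiLp.add_apply, PiLp.smul_apply, smul_eq_mul, bv_ne hj]; ring
  have hFs : ContDiff ℝ ∞ F := by
    have h1 : ContDiff ℝ ∞ fun x : EuclideanSpace ℝ (Fin n) => x i := by fun_prop
    exact contDiff_id.add ((hg.sub h1).smul contDiff_const)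
  have hgc : Continuous g := hg.continuous
  have hinj : Function.Injective F := by
    intro x y hxy
    have h1 : y = x + (y i - x i) • bv i := by
      ext j
      by_cases hj : j = i
      · subst hj; simp [bv_same]
      · rw [PiLp.add_apply, PiLp.smul_apply, bv_ne hj, smul_zero, add_zero, ← hFj x j hj,
          ← hFj y j hj, hxy]
    have h2 : g x = g y := by rw [← hFi, ← hFi, hxy]
    set t := y i - x i with ht
    have h3 : t = 0 := by
      rcases le_total 0 t with h | h
      · have := hmono x 0 t h
        rw [zero_smul, add_zero, ← h1, h2] at this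
        nlinarith
      · have := hmono x t 0 h
        rw [zero_smul, add_zero, ← h1, h2] at this
        nlinarith
    rw [h3, zero_smul, add_zero] at h1
    exact h1.symm
  have hsurj : Function.Surjective F := by
    intro z
    -- intermediate value theorem on the line through `z`
    have hcont : Continuous fun t : ℝ => g (z + t • bv i) := by fun_prop
    set T : ℝ := (|z i - g z| + 1) / c with hT
    have hT0 : 0 ≤ T := by positivity
    have h1 : z i ≤ g (z + T • bv i) := by
      have := hmono z 0 T hT0
      rw [zero_smul, add_zero] at this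
      have e : c * (T - 0) = |z i - g z| + 1 := by rw [hT]; field_simp; ring
      have := le_abs_self (z i - g z)
      linarith
    have h2 : g (z + (-T) • bv i) ≤ z i := by
      have := hmono z (-T) 0 (by linarith)
      rw [zero_smul, add_zero] at this
      have e : c * (0 - -T) = |z i - g z| + 1 := by rw [hT]; field_simp; ring
      have := neg_abs_le (z i - g z)
      linarith
    obtain ⟨t, ht⟩ := mem_range_of_exists_le_of_exists_ge hcont ⟨-T, h2⟩ ⟨T, h1⟩
    refine ⟨z + t • bv i, ?_⟩
    ext j
    by_cases hj : j = i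
    · subst hj; rw [hFi]; exact ht
    · rw [hFj _ _ hj, PiLp.add_apply, PiLp.smul_apply, bv_ne hj, smul_zero, add_zero]
  -- the derivative
  have hdir : ∀ x, c ≤ fderiv ℝ g x (bv i) := by
    intro x
    have h1 : HasFDerivAt g (fderiv ℝ g x) (x + (0 : ℝ) • bv i) := by
      rw [zero_smul, add_zero]
      exact (hg.differentiable (by simp)).differentiableAt.hasFDerivAt
    have h2 : HasDerivAt (fun t : ℝ => x + t • bv i) (bv i) 0 := by
      have := ((hasDerivAt_id (0 : ℝ)).smul_const (bv i)).const_add x
      simpa using this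
    have h3 : HasDerivAt (fun t : ℝ => g (x + t • bv i)) (fderiv ℝ g x (bv i)) 0 :=
      h1.comp_hasDerivAt (0 : ℝ) h2
    have h4 : HasDerivAt (fun t : ℝ => g (x + t • bv i) - c * t) (fderiv ℝ g x (bv i) - c) 0 := by
      have := h3.sub ((hasDerivAt_id (0 : ℝ)).const_mul c)
      rw [mul_one] at this
      exact this
    have h5 : Monotone (fun t : ℝ => g (x + t • bv i) - c * t) := by
      intro s t hst
      have := hmono x s t hst
      simp only; linarith
    have h6 := h5.deriv_nonneg (x := 0)
    rw [h4.deriv] at h6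
    linarith
  have hder : ∀ x, ∃ A : EuclideanSpace ℝ (Fin n) ≃L[ℝ] EuclideanSpace ℝ (Fin n),
      HasStrictFDerivAt F (A : EuclideanSpace ℝ (Fin n) →L[ℝ] EuclideanSpace ℝ (Fin n)) x := by
    intro x
    have h1 : HasStrictFDerivAt F (fderiv ℝ F x) x :=
      hFs.contDiffAt.hasStrictFDerivAt (by simp)
    have hgd : HasFDerivAt g (fderiv ℝ g x) x :=
      (hg.differentiable (by simp)).differentiableAt.hasFDerivAt
    have h2 : ∀ v, fderiv ℝ F x v = v + (fderiv ℝ g x v - v i) • bv i := by
      intro v
      have hi : HasFDerivAt (fun x : EuclideanSpace ℝ (Fin n) => x i)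
          (EuclideanSpace.proj (𝕜 := ℝ) i) x := (EuclideanSpace.proj (𝕜 := ℝ) i).hasFDerivAt
      have h3 : HasFDerivAt F (ContinuousLinearMap.id ℝ _ +
          (fderiv ℝ g x - EuclideanSpace.proj (𝕜 := ℝ) i).smulRight (bv i)) x :=
        (hasFDerivAt_id x).add ((hgd.sub hi).smul_const (bv i))
      rw [h3.fderiv]
      simp
    have h3 : Function.Injective (fderiv ℝ F x : EuclideanSpace ℝ (Fin n) →ₗ[ℝ]
        EuclideanSpace ℝ (Fin n)) := by
      rw [← LinearMap.ker_eq_bot, LinearMap.ker_eq_bot']
      intro v hv
      have hv' : v + (fderiv ℝ g x v - v i) • bv i = 0 := by rw [← h2]; exact hv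
      have h4 : v = (v i - fderiv ℝ g x v) • bv i := by
        have := eq_neg_of_add_eq_zero_left hv'
        calc v = -((fderiv ℝ g x v - v i) • bv i) := this
          _ = (v i - fderiv ℝ g x v) • bv i := by rw [← neg_smul, neg_sub]
      set a := v i - fderiv ℝ g x v with ha
      have h5 : fderiv ℝ g x v = a * fderiv ℝ g x (bv i) := by
        rw [h4, map_smul, smul_eq_mul]
      have h6 : v i = a := by rw [h4]; simp [bv_same]
      have h7 : a * fderiv ℝ g x (bv i) = 0 := by
        rw [← h5]; linarith
      have h8 : a = 0 := by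
        rcases mul_eq_zero.mp h7 with h | h
        · exact h
        · have := hdir x; linarith
      rw [h4, h8, zero_smul]
    set A := (LinearEquiv.ofInjectiveEndo _ h3).toContinuousLinearEquiv with hA
    refine ⟨A, ?_⟩
    have : (A : EuclideanSpace ℝ (Fin n) →L[ℝ] EuclideanSpace ℝ (Fin n)) = fderiv ℝ F x := by
      ext v; rfl
    rw [this]; exact h1
  choose A hA using hder
  have hopen : IsOpenMap F := isOpenMap_of_hasStrictFDerivAt_equiv hA
  let H : EuclideanSpace ℝ (Fin n) ≃ₜ EuclideanSpace ℝ (Fin n) :=
    (Equiv.ofBijective F ⟨hinj, hsurj⟩).toHomeomorphOfContinuousOpen hFs.continuous hopen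
  have hH : ∀ x, H x = F x := fun x => rfl
  refine ⟨H, ⟨hFs, ?_⟩, fun x => rfl⟩
  exact Homeomorph.contDiff_symm H (f₀' := A) (fun a => (hA a).hasFDerivAt) hFs

/-- Increasing one-coordinate homeomorphisms are limits of smooth diffeomorphisms. -/
theorem smooth_approximable_of_pos {i : Fin n}
    {h : EuclideanSpace ℝ (Fin n) ≃ₜ EuclideanSpace ℝ (Fin n)}
    (hh : ∀ x j, j ≠ i → h x j = x j) (hpos : ∀ x, h x i < h (x + bv i) i) :
    Approximable (diffGroup (EuclideanSpace ℝ (Fin n)) ∞) h := by
  set f : EuclideanSpace ℝ (Fin n) → ℝ := fun x => h x i with hf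
  have hfc : Continuous f := (continuous_coord i).comp h.continuous
  have hline : ∀ x : EuclideanSpace ℝ (Fin n), StrictMono fun t : ℝ => f (x + t • bv i) := by
    intro x
    have hc : Continuous fun t : ℝ => f (x + t • bv i) := hfc.comp (by fun_prop)
    have hinj : Function.Injective fun t : ℝ => f (x + t • bv i) := by
      intro s t hst
      have h1 : h (x + s • bv i) = h (x + t • bv i) := by
        ext j
        by_cases hj : j = i
        · subst hj; exact hst
        · rw [hh _ j hj, hh _ j hj, PiLp.add_apply, PiLp.add_apply, PiLp.smul_apply,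
            PiLp.smul_apply, bv_ne hj, smul_zero, smul_zero]
      have h2 := add_left_cancel (h.injective h1)
      have h3 := congrArg (fun v : EuclideanSpace ℝ (Fin n) => v i) h2
      simpa [bv_same] using h3
    rcases hc.strictMono_of_inj hinj with h2 | h2
    · exact h2
    · exfalso
      have h3 := h2 (show (0 : ℝ) < 1 from one_pos)
      simp only [zero_smul, add_zero, one_smul] at h3
      exact absurd (hpos x) (not_lt.mpr h3.le)
  intro B hB ε hε
  obtain ⟨R, hR0, hR⟩ : ∃ R : ℝ, 0 < R ∧ ∀ x ∈ B, ‖x‖ ≤ R := by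
    obtain ⟨R, hR⟩ := hB.exists_norm_le
    exact ⟨max R 1, by positivity, fun p hp => (hR p hp).trans (le_max_left _ _)⟩
  have huc := (isCompact_closedBall (0 : EuclideanSpace ℝ (Fin n))
    (R + 1)).uniformContinuousOn_of_continuous hfc.continuousOn
  rw [Metric.uniformContinuousOn_iff] at huc
  obtain ⟨δ, hδ, huc⟩ := huc (ε / 3) (by positivity)
  obtain ⟨g, hg, hgf, hgm⟩ := exists_smooth_monotone hfc (e := bv i)
    (fun x s t hst => (hline x).monotone hst) (δ := min δ 1) (by positivity)
  set c : ℝ := ε / (3 * R) with hc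
  have hc0 : 0 < c := by positivity
  obtain ⟨H, hH, hHe⟩ := exists_diffeo_of_smooth i (g := fun x => g x + c * x i) (c := c)
    (by
      have h1 : ContDiff ℝ ∞ fun x : EuclideanSpace ℝ (Fin n) => x i := by fun_prop
      exact hg.add (contDiff_const.mul h1)) hc0 (by
      intro x s t hst
      have := hgm x s t hst
      simp only [PiLp.add_apply, PiLp.smul_apply, smul_eq_mul, bv_same]
      linarith)
  refine ⟨H, hH, fun x hx => ?_⟩
  have hxi : |x i| ≤ R := by
    have := PiLp.norm_apply_le x i
    rw [Real.norm_eq_abs] at this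
    exact this.trans (hR x hx)
  have h1 : dist (g x) (f x) ≤ ε / 3 := by
    refine hgf x _ fun y hy => ?_
    have hy' : dist y x < min δ 1 := hy
    have hy1 : dist y x < δ := hy'.trans_le (min_le_left _ _)
    have hy2 : dist y x < 1 := hy'.trans_le (min_le_right _ _)
    refine (huc y ?_ x ?_ hy1).le
    · rw [mem_closedBall_zero_iff]
      have e : y = (y - x) + x := by abel
      rw [e]
      refine (norm_add_le _ _).trans ?_
      rw [← dist_eq_norm]
      linarith [hR x hx]
    · rw [mem_closedBall_zero_iff]; linarith [hR x hx]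
  have h2 : h x = x + (f x - x i) • bv i := by
    ext j
    by_cases hj : j = i
    · subst hj; simp [bv_same, hf]
    · rw [hh x j hj, PiLp.add_apply, PiLp.smul_apply, bv_ne hj, smul_zero, add_zero]
  rw [dist_eq_norm, hHe, h2]
  have e : x + (g x + c * x i - x i) • bv i - (x + (f x - x i) • bv i) =
      (g x - f x + c * x i) • bv i := by
    rw [add_sub_add_left_eq_sub, ← sub_smul]; congr 1; ring
  rw [e, norm_smul, norm_bv, mul_one, Real.norm_eq_abs]
  rw [Real.dist_eq] at h1
  calc |g x - f x + c * x i| ≤ |g x - f x| + |c * x i| := abs_add_le _ _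
    _ ≤ ε / 3 + c * R := by
        rw [abs_mul, abs_of_pos hc0]
        gcongr
    _ = 2 * ε / 3 := by rw [hc]; field_simp; ring
    _ < ε := by linarith

/-- the reflection in the `i`-th coordinate -/
noncomputable def reflAt (i : Fin n) : EuclideanSpace ℝ (Fin n) ≃L[ℝ] EuclideanSpace ℝ (Fin n) :=
  LinearEquiv.toContinuousLinearEquiv
    { toFun := fun x => x - (2 * x i) • bv i
      map_add' := fun x y => by
        rw [PiLp.add_apply, mul_add, add_smul]; abel
      map_smul' := fun c x => by
        rw [PiLp.smul_apply, smul_eq_mul, RingHom.id_apply, smul_sub, smul_smul]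
        congr 2; ring
      invFun := fun x => x - (2 * x i) • bv i
      left_inv := fun x => by
        change x - (2 * x i) • bv i - (2 * (x - (2 * x i) • bv i) i) • bv i = x
        rw [PiLp.sub_apply, PiLp.smul_apply, bv_same, smul_eq_mul]
        rw [sub_sub, ← add_smul]
        have : 2 * x i + 2 * (x i - 2 * x i * 1) = 0 := by ring
        rw [this, zero_smul, sub_zero]
      right_inv := fun x => by
        change x - (2 * x i) • bv i - (2 * (x - (2 * x i) • bv i) i) • bv i = x
        rw [PiLp.sub_apply, PiLp.smul_apply, bv_same, smul_eq_mul]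
        rw [sub_sub, ← add_smul]
        have : 2 * x i + 2 * (x i - 2 * x i * 1) = 0 := by ring
        rw [this, zero_smul, sub_zero] }

theorem reflAt_apply (i : Fin n) (x : EuclideanSpace ℝ (Fin n)) :
    reflAt i x = x - (2 * x i) • bv i := rfl

/-- One-coordinate homeomorphisms are limits of smooth diffeomorphisms. -/
theorem smooth_approximable_of_oneCoordinate
    {h : EuclideanSpace ℝ (Fin n) ≃ₜ EuclideanSpace ℝ (Fin n)} (hh : h ∈ oneCoordinate n) :
    Approximable (diffGroup (EuclideanSpace ℝ (Fin n)) ∞) h := by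
  obtain ⟨i, hi⟩ := hh
  set D : EuclideanSpace ℝ (Fin n) → ℝ := fun x => h (x + bv i) i - h x i with hD
  have hDc : Continuous D := by
    have h1 : Continuous fun x => h (x + bv i) :=
      h.continuous.comp (continuous_id.add continuous_const)
    exact ((continuous_coord i).comp h1).sub ((continuous_coord i).comp h.continuous)
  have hDne : ∀ x, D x ≠ 0 := by
    intro x hx
    have e : h (x + bv i) = h x := by
      ext j
      by_cases hj : j = i
      · subst hj; exact sub_eq_zero.mp hx
      · rw [hi _ j hj, hi _ j hj, PiLp.add_apply, bv_ne hj, add_zero]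
    have h1 := h.injective e
    have h2 := congrArg (fun v : EuclideanSpace ℝ (Fin n) => v i) h1
    simp [bv_same] at h2
  have hsign : (∀ w, 0 < D w) ∨ (∀ w, D w < 0) := by
    by_contra hcon
    push Not at hcon
    obtain ⟨⟨w₁, h₁⟩, ⟨w₂, h₂⟩⟩ := hcon
    obtain ⟨w, hw⟩ := mem_range_of_exists_le_of_exists_ge hDc ⟨w₁, h₁⟩ ⟨w₂, h₂⟩
    exact hDne w hw
  rcases hsign with hs | hs
  · exact smooth_approximable_of_pos hi fun x => by have := hs x; simp only [hD] at this; linarith
  · have hr := containsLinear_diffGroup (E := EuclideanSpace ℝ (Fin n)) ∞ (reflAt i)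
    have hrj : ∀ x : EuclideanSpace ℝ (Fin n), ∀ j, j ≠ i → reflAt i x j = x j := by
      intro x j hj
      rw [reflAt_apply, PiLp.sub_apply, PiLp.smul_apply, bv_ne hj, smul_zero, sub_zero]
    have hri : ∀ x : EuclideanSpace ℝ (Fin n), reflAt i x i = - x i := by
      intro x
      rw [reflAt_apply, PiLp.sub_apply, PiLp.smul_apply, bv_same, smul_eq_mul]; ring
    have h1 : Approximable (diffGroup (EuclideanSpace ℝ (Fin n)) ∞)
        ((reflAt i).toHomeomorph * h) := by
      refine smooth_approximable_of_pos (i := i) ?_ ?_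
      · intro x j hj
        change reflAt i (h x) j = x j
        rw [hrj _ j hj, hi x j hj]
      · intro x
        change reflAt i (h x) i < reflAt i (h (x + bv i)) i
        rw [hri, hri]
        have := hs x
        simp only [hD] at this
        linarith
    have h2 := Approximable.mul (approximable_of_mem
      ((diffGroup (EuclideanSpace ℝ (Fin n)) ∞).inv_mem hr)) h1
    rwa [inv_mul_cancel_left] at h2

/-- Limits of elements of the type A group are limits of smooth diffeomorphisms. -/
theorem smooth_approximable_of_groupA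
    {h : EuclideanSpace ℝ (Fin n) ≃ₜ EuclideanSpace ℝ (Fin n)} (hh : Approximable (groupA n) h) :
    Approximable (diffGroup (EuclideanSpace ℝ (Fin n)) ∞) h := by
  refine approximable_trans (fun g hg => ?_) hh
  have : groupA n ≤ approxSubgroup (diffGroup (EuclideanSpace ℝ (Fin n)) ∞) := by
    rw [groupA, Subgroup.closure_le]
    intro f hf
    exact smooth_approximable_of_oneCoordinate hf
  exact this hg

/-- Limits of `C¹` diffeomorphisms are limits of elements of the standard group. -/
theorem stdGroup_approximable_of_diff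
    {h : EuclideanSpace ℝ (Fin n) ≃ₜ EuclideanSpace ℝ (Fin n)}
    (hh : Approximable (diffGroup (EuclideanSpace ℝ (Fin n)) 1) h) :
    Approximable (stdGroup (EuclideanSpace ℝ (Fin n))) h := by
  refine approximable_trans (fun g hg => ?_) hh
  exact approximable_of_contDiff containsSmall_stdGroup containsLinear_stdGroup hg.1 hg.2

/-- Limits of elements of the type A group are limits of elements of the standard group. -/
theorem stdGroup_approximable_of_groupA
    {h : EuclideanSpace ℝ (Fin n) ≃ₜ EuclideanSpace ℝ (Fin n)} (hh : Approximable (groupA n) h) :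
    Approximable (stdGroup (EuclideanSpace ℝ (Fin n))) h :=
  stdGroup_approximable_of_diff ((smooth_approximable_of_groupA hh).mono
    (diffGroup_mono (by simp)))

end onecoord

end Pool.Agent.Helper25
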