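import Pool.Agent.Helper25.Germ

/-!
The standard group of homeomorphisms of a finite-dimensional space, and its behaviour under linear
isomorphisms and products.
-/

open Set Metric Topology Filter
open scoped NNReal

namespace Pool.Agent.Helper25

/-- The group generated by the homeomorphisms `s` with `s - id` Lipschitz with constant `< 1` and
the invertible linear maps. -/
def stdGroup (E : Type*) [NormedAddCommGroup E] [NormedSpace ℝ E] : Subgroup (E ≃ₜ E) :=
  Subgroup.closure ({s | ∃ K : ℝ≥0, K < 1 ∧ LipschitzWith K (fun x => s x - x)} ∪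
    {s | ∃ A : E ≃L[ℝ] E, s = A.toHomeomorph})

section

variable {E : Type*} [NormedAddCommGroup E] [NormedSpace ℝ E]
variable {F : Type*} [NormedAddCommGroup F] [NormedSpace ℝ F]

theorem small_mem_stdGroup {K : ℝ≥0} (hK : K < 1) {s : E ≃ₜ E}
    (hs : LipschitzWith K (fun x => s x - x)) : s ∈ stdGroup E :=
  Subgroup.subset_closure (Or.inl ⟨K, hK, hs⟩)

theorem containsSmall_stdGroup : ContainsSmall (stdGroup E) :=
  ⟨1 / 2, by norm_num, fun _ hs => small_mem_stdGroup (by rw [← NNReal.coe_lt_coe]; norm_num) hs⟩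

theorem containsLinear_stdGroup : ContainsLinear (stdGroup E) :=
  fun A => Subgroup.subset_closure (Or.inr ⟨A, rfl⟩)

theorem translation_mem_stdGroup (c : E) : Homeomorph.addRight c ∈ stdGroup E := by
  refine small_mem_stdGroup (K := 0) (by norm_num) ?_
  have : (fun x : E => (Homeomorph.addRight c) x - x) = fun _ => c := by
    funext x; simp
  rw [this]; exact LipschitzWith.const c

/-- version of `small_decomposition` without bounds on the displacement -/
theorem small_decomposition_lip [CompleteSpace E] {K : ℝ≥0} (hK : K < 1) {s : E ≃ₜ E}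
    (hs : LipschitzWith K (fun x => s x - x)) {κ : ℝ≥0} (hκ : 0 < κ) {H : Subgroup (E ≃ₜ E)}
    (hH : ∀ t : E ≃ₜ E, LipschitzWith κ (fun x => t x - x) → t ∈ H) : s ∈ H := by
  set u : E → E := fun x => s x - x with hu
  have hκ' : (0 : ℝ) < κ := by exact_mod_cast hκ
  obtain ⟨N, hN⟩ : ∃ N : ℕ, (K * (1 - K)⁻¹ : ℝ) / κ < N := exists_nat_gt _
  set N' : ℕ := N + 1 with hN'
  have hN0 : (0 : ℝ) < N' := by positivity
  have hNb : (K * (1 - K)⁻¹ : ℝ) / κ < N' := by
    refine hN.trans ?_
    rw [hN']; push_cast; linarith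
  have hN1 : (K * (1 - K)⁻¹ : ℝ) / N' ≤ κ := by
    rw [div_le_iff₀ hN0]
    rw [div_lt_iff₀ hκ'] at hNb
    linarith [mul_comm (κ : ℝ) N']
  have hex : ∀ j : ℕ, ∃ f : E ≃ₜ E, j ≤ N' → ∀ x, f x = x + ((j : ℝ) / N') • u x := by
    intro j
    by_cases hj : j ≤ N'
    · obtain ⟨f, hf⟩ := exists_path hK hs ((j : ℝ) / N')
        ⟨by positivity, by rw [div_le_one hN0]; exact_mod_cast hj⟩
      exact ⟨f, fun _ => hf⟩
    · exact ⟨1, fun h => absurd h hj⟩
  choose F hF using hex
  have key : ∀ j, j ≤ N' → F j ∈ H := by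
    intro j
    induction j with
    | zero =>
      intro _
      have : F 0 = 1 := by
        ext x; rw [hF 0 (by omega)]; simp
      rw [this]; exact H.one_mem
    | succ j ih =>
      intro hj
      have h1 := ih (by omega)
      have hj' : j ≤ N' := by omega
      have hdisp : ∀ x, F (j + 1) x - F j x = ((1 : ℝ) / N') • u x := by
        intro x
        rw [hF _ hj, hF _ hj', add_sub_add_left_eq_sub, ← sub_smul]
        congr 1
        push_cast
        ring
      have hdisp' : (fun y => (F (j + 1) * (F j)⁻¹) y - y) =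
          fun y => ((1 : ℝ) / N') • u ((F j).symm y) := by
        funext y
        have := hdisp ((F j).symm y)
        rw [Homeomorph.apply_symm_apply] at this
        simpa using this
      have hFs : LipschitzWith K (fun x => F j x - x) := by
        refine LipschitzWith.of_dist_le_mul fun x y => ?_
        have := hs.dist_le_mul x y
        rw [dist_eq_norm] at this ⊢
        rw [hF _ hj', hF _ hj', add_sub_cancel_left, add_sub_cancel_left, ← smul_sub, norm_smul,
          Real.norm_eq_abs, abs_of_nonneg (by positivity)]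
        have h01 : (j : ℝ) / N' ≤ 1 := by rw [div_le_one hN0]; exact_mod_cast hj'
        calc (j : ℝ) / N' * ‖u x - u y‖ ≤ 1 * ‖u x - u y‖ := by gcongr
          _ ≤ _ := by rw [one_mul]; exact this
      have hinv := lipschitz_symm_of_small hK hFs
      have h2 : F (j + 1) * (F j)⁻¹ ∈ H := by
        apply hH
        rw [hdisp']
        refine LipschitzWith.of_dist_le_mul fun x y => ?_
        have e1 := hs.dist_le_mul ((F j).symm x) ((F j).symm y)
        have e2 := hinv.dist_le_mul x y
        rw [dist_eq_norm] at e1 ⊢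
        rw [← smul_sub, norm_smul, Real.norm_eq_abs, abs_of_nonneg (by positivity)]
        calc (1 : ℝ) / N' * ‖u ((F j).symm x) - u ((F j).symm y)‖
            ≤ 1 / N' * (K * (((1 - K)⁻¹ : ℝ≥0) * dist x y)) := by
              gcongr
              exact e1.trans (by gcongr)
          _ = (K * ((1 - K)⁻¹ : ℝ≥0) : ℝ) / N' * dist x y := by ring
          _ ≤ κ * dist x y := by gcongr
      have h4 : F (j + 1) = (F (j + 1) * (F j)⁻¹) * F j := by group
      rw [h4]; exact H.mul_mem h2 h1
  have : F N' = s := by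
    ext x
    rw [hF N' le_rfl, div_self hN0.ne', one_smul]
    simp [hu]
  rw [← this]; exact key N' le_rfl

/-- Conjugation by a linear isomorphism. -/
def conjLin (A : E ≃L[ℝ] F) : (E ≃ₜ E) →* (F ≃ₜ F) where
  toFun h := (A.toHomeomorph.symm.trans h).trans A.toHomeomorph
  map_one' := by ext x; simp
  map_mul' f g := by ext x; simp

theorem conjLin_apply (A : E ≃L[ℝ] F) (h : E ≃ₜ E) (x : F) : conjLin A h x = A (h (A.symm x)) := rfl

theorem conjLin_mem_stdGroup [CompleteSpace E] (A : E ≃L[ℝ] F) {s : E ≃ₜ E}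
    (hs : s ∈ stdGroup E) : conjLin A s ∈ stdGroup F := by
  have hle : stdGroup E ≤ (stdGroup F).comap (conjLin A) := by
    unfold stdGroup
    rw [Subgroup.closure_le]
    rintro s (⟨K, hK, hs⟩ | ⟨B, rfl⟩)
    · set a : ℝ≥0 := ‖(A : E →L[ℝ] F)‖₊ with ha
      set b : ℝ≥0 := ‖(A.symm : F →L[ℝ] E)‖₊ with hb
      refine small_decomposition_lip hK hs (κ := 1 / (2 * (a * b + 1))) (by positivity)
        fun t ht => ?_
      apply small_mem_stdGroup (K := 1 / 2) (by rw [← NNReal.coe_lt_coe]; norm_num)
      refine LipschitzWith.of_dist_le_mul fun x y => ?_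
      rw [conjLin_apply, conjLin_apply]
      have e : ∀ z : F, A (t (A.symm z)) - z = (A : E →L[ℝ] F) (t (A.symm z) - A.symm z) := by
        intro z; simp
      rw [e, e, dist_eq_norm, ← map_sub]
      have h1 := ht.dist_le_mul (A.symm x) (A.symm y)
      rw [dist_eq_norm] at h1
      have h2 : dist (A.symm x) (A.symm y) ≤ b * dist x y := by
        rw [dist_eq_norm, dist_eq_norm, ← map_sub]
        exact (A.symm : F →L[ℝ] E).le_opNorm _
      calc ‖(A : E →L[ℝ] F) (t (A.symm x) - A.symm x - (t (A.symm y) - A.symm y))‖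
          ≤ a * ‖t (A.symm x) - A.symm x - (t (A.symm y) - A.symm y)‖ :=
            (A : E →L[ℝ] F).le_opNorm _
        _ ≤ a * (((1 / (2 * (a * b + 1)) : ℝ≥0) : ℝ) * (b * dist x y)) := by
            gcongr
            exact h1.trans (by gcongr)
        _ = (a * b) / (2 * (a * b + 1)) * dist x y := by push_cast; ring
        _ ≤ ((1 / 2 : ℝ≥0) : ℝ) * dist x y := by
            gcongr
            push_cast
            rw [div_le_div_iff₀ (by positivity) (by norm_num)]
            have : (0 : ℝ) ≤ a * b := by positivity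
            linarith
    · change conjLin A B.toHomeomorph ∈ stdGroup F
      have : conjLin A B.toHomeomorph = ((A.symm.trans B).trans A).toHomeomorph := by
        ext x; rfl
      rw [this]; exact containsLinear_stdGroup _
  exact hle hs

theorem conjLin_approximable [CompleteSpace E] (A : E ≃L[ℝ] F) {h : E ≃ₜ E}
    (hh : Approximable (stdGroup E) h) : Approximable (stdGroup F) (conjLin A h) := by
  intro B hB ε hε
  have hB' : Bornology.IsBounded (A.symm '' B) := by
    obtain ⟨R, hR⟩ := hB.exists_norm_le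
    refine isBounded_iff_forall_norm_le.mpr ⟨‖(A.symm : F →L[ℝ] E)‖ * R, ?_⟩
    rintro _ ⟨x, hx, rfl⟩
    exact ((A.symm : F →L[ℝ] E).le_opNorm x).trans (by gcongr; exact hR x hx)
  set a : ℝ := ‖(A : E →L[ℝ] F)‖ with ha
  have ha0 : 0 ≤ a := norm_nonneg _
  obtain ⟨g, hg, hgd⟩ := hh _ hB' (ε / (a + 1)) (by positivity)
  refine ⟨conjLin A g, conjLin_mem_stdGroup A hg, fun p hp => ?_⟩
  rw [conjLin_apply, conjLin_apply, dist_eq_norm, ← map_sub]
  have h1 := hgd _ (mem_image_of_mem _ hp)
  rw [dist_eq_norm, lt_div_iff₀ (by positivity)] at h1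
  calc ‖A (g (A.symm p) - h (A.symm p))‖ ≤ a * ‖g (A.symm p) - h (A.symm p)‖ :=
        (A : E →L[ℝ] F).le_opNorm _
    _ ≤ ‖g (A.symm p) - h (A.symm p)‖ * (a + 1) := by
        nlinarith [norm_nonneg (g (A.symm p) - h (A.symm p))]
    _ < ε := h1

/-- Product with the identity of the line. -/
def prodId : (F ≃ₜ F) →* ((F × ℝ) ≃ₜ (F × ℝ)) where
  toFun h := h.prodCongr (Homeomorph.refl ℝ)
  map_one' := by ext x <;> simp
  map_mul' f g := by ext x <;> simp

theorem prodId_apply (h : F ≃ₜ F) (x : F × ℝ) : prodId h x = (h x.1, x.2) := rfl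

theorem prodId_mem_stdGroup {s : F ≃ₜ F} (hs : s ∈ stdGroup F) : prodId s ∈ stdGroup (F × ℝ) := by
  have hle : stdGroup F ≤ (stdGroup (F × ℝ)).comap prodId := by
    unfold stdGroup
    rw [Subgroup.closure_le]
    rintro s (⟨K, hK, hs⟩ | ⟨B, rfl⟩)
    · apply small_mem_stdGroup hK
      refine LipschitzWith.of_dist_le_mul fun x y => ?_
      rw [prodId_apply, prodId_apply]
      have h1 := hs.dist_le_mul x.1 y.1
      rw [Prod.dist_eq]
      simp only [Prod.fst_sub, Prod.snd_sub, sub_self, dist_self]
      apply max_le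
      · refine h1.trans ?_
        gcongr
        exact le_max_left _ _
      · positivity
    · change prodId B.toHomeomorph ∈ stdGroup (F × ℝ)
      have : prodId B.toHomeomorph = (B.prodCongr (ContinuousLinearEquiv.refl ℝ ℝ)).toHomeomorph := by
        ext x <;> rfl
      rw [this]; exact containsLinear_stdGroup _
  exact hle hs

theorem prodId_approximable {h : F ≃ₜ F} (hh : Approximable (stdGroup F) h) :
    Approximable (stdGroup (F × ℝ)) (prodId h) := by
  intro B hB ε hε
  have hB' : Bornology.IsBounded (Prod.fst '' B) := hB.image_fst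
  obtain ⟨g, hg, hgd⟩ := hh _ hB' ε hε
  refine ⟨prodId g, prodId_mem_stdGroup hg, fun p hp => ?_⟩
  rw [prodId_apply, prodId_apply, Prod.dist_eq]
  simp only [dist_self]
  exact max_lt (hgd _ (mem_image_of_mem _ hp)) hε

/-- shears -/
def shear (φ : F → ℝ) (hφ : Continuous φ) : (F × ℝ) ≃ₜ (F × ℝ) where
  toFun x := (x.1, x.2 + φ x.1)
  invFun x := (x.1, x.2 - φ x.1)
  left_inv x := by simp
  right_inv x := by simp
  continuous_toFun := by fun_prop
  continuous_invFun := by fun_prop

theorem shear_apply (φ : F → ℝ) (hφ : Continuous φ) (x : F × ℝ) :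
    shear φ hφ x = (x.1, x.2 + φ x.1) := rfl

theorem shear_mem_stdGroup {φ : F → ℝ} {K : ℝ≥0} (hφ : LipschitzWith K φ) :
    shear φ hφ.continuous ∈ stdGroup (F × ℝ) := by
  obtain ⟨N, hN⟩ : ∃ N : ℕ, (K : ℝ) < N := exists_nat_gt _
  have hN0 : (0 : ℝ) < N := lt_of_le_of_lt K.2 hN
  have hc : Continuous (fun x => φ x / N) := hφ.continuous.div_const _
  have h1 : shear (fun x => φ x / N) hc ∈ stdGroup (F × ℝ) := by
    set K' : ℝ≥0 := K / N with hK'
    have hK'1 : K' < 1 := by
      rw [← NNReal.coe_lt_coe, hK']; push_cast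
      rwa [div_lt_one hN0]
    apply small_mem_stdGroup hK'1
    refine LipschitzWith.of_dist_le_mul fun x y => ?_
    have h2 := hφ.dist_le_mul x.1 y.1
    rw [Real.dist_eq] at h2
    rw [Prod.dist_eq, shear_apply, shear_apply]
    simp only [Prod.fst_sub, Prod.snd_sub, sub_self,
      dist_self, add_sub_cancel_left]
    apply max_le
    · positivity
    · rw [Real.dist_eq, ← sub_div, abs_div, abs_of_pos hN0, hK']
      push_cast
      rw [div_mul_eq_mul_div]
      gcongr
      refine h2.trans ?_
      gcongr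
      rw [Prod.dist_eq]; exact le_max_left _ _
  have hpow : ∀ n : ℕ, ∀ x, ((shear (fun x => φ x / N) hc) ^ n) x = (x.1, x.2 + n * (φ x.1 / N)) := by
    intro n
    induction n with
    | zero => intro x; simp
    | succ n ih =>
      intro x
      rw [pow_succ', Homeomorph.mul_apply, ih, shear_apply]
      ext
      · rfl
      · push_cast; ring
  have h3 : shear φ hφ.continuous = (shear (fun x => φ x / N) hc) ^ N := by
    ext x
    · rw [hpow]; rfl
    · rw [hpow, shear_apply]
      simp only
      rw [mul_div_cancel₀ _ hN0.ne']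
  rw [h3]; exact (stdGroup (F × ℝ)).pow_mem h1 N

theorem shear_approximable [ProperSpace F] {φ : F → ℝ} (hφ : Continuous φ) :
    Approximable (stdGroup (F × ℝ)) (shear φ hφ) := by
  intro B hB ε hε
  have hB' : IsCompact (closure (Prod.fst '' B)) := hB.image_fst.isCompact_closure
  obtain ⟨K, M, g, hgL, -, hgd⟩ := exists_lipschitz_approx hB' hφ.continuousOn (half_pos hε)
  refine ⟨shear g hgL.continuous, shear_mem_stdGroup hgL, fun p hp => ?_⟩
  have h1 := hgd p.1 (subset_closure (mem_image_of_mem _ hp))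
  rw [Prod.dist_eq, shear_apply, shear_apply]
  simp only [dist_self]
  apply max_lt hε
  rw [Real.dist_eq, add_sub_add_left_eq_sub]
  linarith

end

end Pool.Agent.Helper25
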