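import Pool.Agent.Helper25.TypeA
import Pool.Agent.Helper25.PL

/-!
The standard group of `E^n` is contained in the type A group.
-/

open Set Metric Topology Filter
open scoped NNReal

namespace Pool.Agent.Helper25

theorem stdGroup_le_groupA (n : ℕ) : stdGroup (EuclideanSpace ℝ (Fin n)) ≤ groupA n := by
  rw [stdGroup, Subgroup.closure_le]
  rintro s (⟨K, hK, hs⟩ | ⟨A, rfl⟩)
  · exact small_mem_groupA n hK hs
  · exact linear_mem_groupA n A

end Pool.Agent.Helper25
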