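import Pool.Agent.Helper25.Local

/-!
Type A generators: homeomorphisms of Euclidean space changing only one coordinate.
-/

open Set Metric Topology Filter
open scoped NNReal

namespace Pool.Agent.Helper25

/-- projection on the first `k` coordinates -/
noncomputable def projFirst (n k : ℕ) (u : EuclideanSpace ℝ (Fin n)) : EuclideanSpace ℝ (Fin n) :=
  WithLp.toLp 2 (fun i => if i.val < k then u i else 0)

theorem norm_projFirst_le (n k : ℕ) (u : EuclideanSpace ℝ (Fin n)) : ‖projFirst n k u‖ ≤ ‖u‖ := by
  rw [EuclideanSpace.norm_eq, EuclideanSpace.norm_eq]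
  apply Real.sqrt_le_sqrt
  apply Finset.sum_le_sum
  intro i _
  simp only [projFirst]
  split_ifs
  · exact le_rfl
  · simp only [norm_zero, ne_eq, OfNat.ofNat_ne_zero, not_false_eq_true, zero_pow]
    positivity

theorem projFirst_sub (n k : ℕ) (u v : EuclideanSpace ℝ (Fin n)) :
    projFirst n k u - projFirst n k v = projFirst n k (u - v) := by
  ext i
  simp only [projFirst, PiLp.sub_apply]
  split_ifs <;> simp

/-- If all the maps `F k` replacing the first `k` coordinates of `x` by those of `h x` are
homeomorphisms then `h` is a product of one-coordinate homeomorphisms. -/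
theorem staircase_mem_groupA (n : ℕ) {h : EuclideanSpace ℝ (Fin n) ≃ₜ EuclideanSpace ℝ (Fin n)}
    {F : ℕ → EuclideanSpace ℝ (Fin n) ≃ₜ EuclideanSpace ℝ (Fin n)}
    (hFi : ∀ k x (i : Fin n), F k x i = if i.val < k then h x i else x i) : h ∈ groupA n := by
  have key : ∀ k, k ≤ n → F k ∈ groupA n := by
    intro k
    induction k with
    | zero =>
      intro _
      have : F 0 = 1 := by
        ext x i; simp [hFi]
      rw [this]; exact (groupA n).one_mem
    | succ k ih =>
      intro hk
      have h1 := ih (by omega)
      have h2 : F (k + 1) * (F k)⁻¹ ∈ groupA n := by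
        apply Subgroup.subset_closure
        refine ⟨⟨k, by omega⟩, fun y j hj => ?_⟩
        have h3 : y = F k ((F k).symm y) := by simp
        set x := (F k).symm y with hx
        simp only [Homeomorph.mul_apply, Homeomorph.inv_apply, ← hx]
        rw [h3, hFi, hFi]
        have hj' : j.val ≠ k := fun hc => hj (Fin.ext hc)
        by_cases hjk : j.val < k
        · rw [if_pos (by omega), if_pos hjk]
        · rw [if_neg (by omega), if_neg hjk]
      have h4 : F (k + 1) = (F (k + 1) * (F k)⁻¹) * F k := by group
      rw [h4]; exact (groupA n).mul_mem h2 h1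
  have : F n = h := by
    ext x i; simp [hFi]
  rw [← this]; exact key n le_rfl

/-- All homeomorphisms `h` with `h - id` Lipschitz with constant `< 1` are products of one-coordinate
homeomorphisms. -/
theorem small_mem_groupA (n : ℕ) {K : ℝ≥0} (hK : K < 1)
    {h : EuclideanSpace ℝ (Fin n) ≃ₜ EuclideanSpace ℝ (Fin n)}
    (hh : LipschitzWith K (fun x => h x - x)) : h ∈ groupA n := by
  have hL : ∀ k, LipschitzWith K (fun x => projFirst n k (h x - x)) := by
    intro k
    refine LipschitzWith.of_dist_le_mul fun x y => ?_
    have := hh.dist_le_mul x y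
    rw [dist_eq_norm] at this ⊢
    rw [projFirst_sub]
    exact (norm_projFirst_le _ _ _).trans this
  choose F hF using fun k => exists_homeo_add hK (hL k)
  have hFi : ∀ k x (i : Fin n), F k x i = if i.val < k then h x i else x i := by
    intro k x i
    rw [hF]
    simp only [PiLp.add_apply, projFirst]
    split_ifs
    · simp
    · simp
  exact staircase_mem_groupA n hFi

theorem containsSmall_groupA (n : ℕ) : ContainsSmall (groupA n) :=
  ⟨1 / 2, by norm_num, fun _ hs => small_mem_groupA n (by
    rw [← NNReal.coe_lt_coe]; norm_num) hs⟩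

/-- Invertible linear maps are products of one-coordinate homeomorphisms. -/
theorem linear_mem_groupA (n : ℕ)
    (A : EuclideanSpace ℝ (Fin n) ≃L[ℝ] EuclideanSpace ℝ (Fin n)) :
    A.toHomeomorph ∈ groupA n := by
  classical
  let P : Matrix (Fin n) (Fin n) ℝ → Prop := fun M =>
    ∃ h ∈ groupA n, ∀ x : EuclideanSpace ℝ (Fin n), ∀ i, h x i = M.mulVec (fun j => x j) i
  have key : ∀ M : Matrix (Fin n) (Fin n) ℝ, M.det ≠ 0 → P M := by
    intro M hM
    refine Matrix.diagonal_transvection_induction_of_det_ne_zero P M hM ?_ ?_ ?_
    · intro D hD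
      have hD0 : ∀ i, D i ≠ 0 := by
        rw [Matrix.det_diagonal] at hD
        intro i; exact Finset.prod_ne_zero_iff.mp hD i (Finset.mem_univ i)
      -- scaling homeomorphisms
      have hsc : ∀ c : Fin n → ℝ, (∀ i, c i ≠ 0) →
          ∃ g : EuclideanSpace ℝ (Fin n) ≃ₜ EuclideanSpace ℝ (Fin n), ∀ x i, g x i = c i * x i := by
        intro c hc
        refine ⟨{ toFun := fun x => WithLp.toLp 2 (fun i => c i * x i)
                  invFun := fun x => WithLp.toLp 2 (fun i => (c i)⁻¹ * x i)
                  left_inv := ?_
                  right_inv := ?_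
                  continuous_toFun := by fun_prop
                  continuous_invFun := by fun_prop }, fun x i => rfl⟩
        · intro x; ext i; simp [hc i]
        · intro x; ext i; simp [hc i]
      obtain ⟨h, hh⟩ := hsc D hD0
      choose F hF using fun k : ℕ => hsc (fun i => if i.val < k then D i else 1)
        (fun i => by
          split_ifs
          · exact hD0 i
          · exact one_ne_zero)
      refine ⟨h, staircase_mem_groupA n (F := F) ?_, fun x i => ?_⟩
      · intro k x i
        rw [hF, hh]
        split_ifs
        · rfl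
        · rw [one_mul]
      · rw [hh, Matrix.mulVec_diagonal]
    · rintro ⟨i, j, hij, c⟩
      obtain ⟨g, hg⟩ : ∃ g : EuclideanSpace ℝ (Fin n) ≃ₜ EuclideanSpace ℝ (Fin n),
          ∀ x k, g x k = x k + if k = i then c * x j else 0 := by
        refine ⟨{ toFun := fun x => WithLp.toLp 2 (fun k => x k + if k = i then c * x j else 0)
                  invFun := fun x => WithLp.toLp 2 (fun k => x k - if k = i then c * x j else 0)
                  left_inv := ?_
                  right_inv := ?_
                  continuous_toFun := ?_
                  continuous_invFun := ?_ }, fun x i => rfl⟩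
        · intro x; ext k
          by_cases hk : k = i
          · simp [hk, hij.symm]
          · simp [hk]
        · intro x; ext k
          by_cases hk : k = i
          · simp [hk, hij.symm]
          · simp [hk]
        · refine (PiLp.continuous_toLp 2 _).comp (continuous_pi fun k => ?_)
          by_cases hk : k = i
          · simp only [hk, if_true]; fun_prop
          · simp only [hk, if_false]; fun_prop
        · refine (PiLp.continuous_toLp 2 _).comp (continuous_pi fun k => ?_)
          by_cases hk : k = i
          · simp only [hk, if_true]; fun_prop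
          · simp only [hk, if_false]; fun_prop
      refine ⟨g, Subgroup.subset_closure ⟨i, fun x k hk => by rw [hg, if_neg hk, add_zero]⟩, ?_⟩
      intro x k
      rw [hg, Matrix.TransvectionStruct.toMatrix_mk, Matrix.transvection, Matrix.add_mulVec,
        Matrix.one_mulVec, Pi.add_apply]
      congr 1
      by_cases hk : k = i
      · subst hk
        simp [Matrix.mulVec, dotProduct, Matrix.single_apply]
      · rw [if_neg hk]
        simp [Matrix.mulVec, dotProduct, Matrix.single_apply, Ne.symm hk]
    · rintro M₁ M₂ _ _ ⟨h₁, hh₁, e₁⟩ ⟨h₂, hh₂, e₂⟩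
      refine ⟨h₁ * h₂, (groupA n).mul_mem hh₁ hh₂, fun x i => ?_⟩
      rw [Homeomorph.mul_apply, e₁, ← Matrix.mulVec_mulVec]
      congr 1
      funext j
      exact e₂ x j
  -- the matrix of `A`
  let L : (Fin n → ℝ) ≃ₗ[ℝ] (Fin n → ℝ) :=
    ((WithLp.linearEquiv 2 ℝ (Fin n → ℝ)).symm.trans A.toLinearEquiv).trans
      (WithLp.linearEquiv 2 ℝ (Fin n → ℝ))
  have hdet : (LinearMap.toMatrix' (L : (Fin n → ℝ) →ₗ[ℝ] (Fin n → ℝ))).det ≠ 0 := by
    rw [LinearMap.det_toMatrix']
    exact (LinearEquiv.isUnit_det' L).ne_zero
  obtain ⟨h, hh, he⟩ := key _ hdet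
  have : A.toHomeomorph = h := by
    ext x i
    rw [he, ← Matrix.toLin'_apply, Matrix.toLin'_toMatrix']
    rfl
  rw [this]; exact hh

end Pool.Agent.Helper25
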