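import Pool.Agent.Helper25.TypeA

/-!
Type B: the closure of the group generated by the homeomorphisms
`(x, y, z) ↦ (f (y, z), g (x, z), k (x, y))` contains all one-coordinate homeomorphisms.
-/

open Set Metric Topology Filter
open scoped NNReal

namespace Pool.Agent.Helper25

section squash

/-- the homeomorphism from the line to `(-1, 1)` -/
noncomputable def sq (u : ℝ) : ℝ := u / (1 + |u|)

/-- the inverse of `sq` -/
noncomputable def un (x : ℝ) : ℝ := x / (1 - |x|)

theorem abs_sq_lt (u : ℝ) : |sq u| < 1 := by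
  have h : 0 < 1 + |u| := by positivity
  rw [sq, abs_div, abs_of_pos h, div_lt_one h]; linarith

theorem un_sq (u : ℝ) : un (sq u) = u := by
  have h : 0 < 1 + |u| := by positivity
  unfold un sq
  rw [abs_div, abs_of_pos h]
  have : 1 - |u| / (1 + |u|) = 1 / (1 + |u|) := by field_simp; ring
  rw [this]; field_simp

theorem sq_un {x : ℝ} (hx : |x| < 1) : sq (un x) = x := by
  have h : 0 < 1 - |x| := by linarith
  unfold un sq
  rw [abs_div, abs_of_pos h]
  have : 1 + |x| / (1 - |x|) = 1 / (1 - |x|) := by field_simp; ring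
  rw [this]; field_simp

theorem sq_lipschitz (u v : ℝ) : |sq u - sq v| ≤ |u - v| := by
  have hu : 0 < 1 + |u| := by positivity
  have hv : 0 < 1 + |v| := by positivity
  have e : sq u - sq v = ((u - v) + (u * |v| - v * |u|)) / ((1 + |u|) * (1 + |v|)) := by
    unfold sq; field_simp; ring
  rw [e, abs_div, abs_of_pos (mul_pos hu hv), div_le_iff₀ (mul_pos hu hv)]
  have h1 : |u - v + (u * |v| - v * |u|)| ≤ |u - v| + |(u * |v| - v * |u|)| := abs_add_le _ _
  have h2 : |(u * |v| - v * |u|)| ≤ |u - v| * |v| + |v| * |u - v| := by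
    have e2 : u * |v| - v * |u| = (u - v) * |v| + v * (|v| - |u|) := by ring
    rw [e2]
    refine (abs_add_le _ _).trans ?_
    rw [abs_mul, abs_mul, abs_abs]
    have := abs_abs_sub_abs_le_abs_sub v u
    rw [abs_sub_comm v u] at this
    nlinarith [abs_nonneg v, abs_nonneg (u - v)]
  have h2' : |(u * |v| - v * |u|)| ≤ |u - v| * |u| + |u| * |u - v| := by
    have e2 : u * |v| - v * |u| = u * (|v| - |u|) + (u - v) * |u| := by ring
    rw [e2]
    refine (abs_add_le _ _).trans ?_
    rw [abs_mul, abs_mul, abs_abs]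
    have := abs_abs_sub_abs_le_abs_sub v u
    rw [abs_sub_comm v u] at this
    nlinarith [abs_nonneg u, abs_nonneg (u - v)]
  have h3 : 0 ≤ |u - v| := abs_nonneg _
  have h4 : 0 ≤ |u| := abs_nonneg _
  have h5 : 0 ≤ |v| := abs_nonneg _
  nlinarith [mul_nonneg h3 h4, mul_nonneg h3 h5, mul_nonneg (mul_nonneg h3 h4) h5]

theorem continuous_sq : Continuous sq := by
  unfold sq
  refine continuous_id.div (by fun_prop) fun u => ?_
  positivity

theorem sq_strictMono : StrictMono sq := by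
  intro u v huv
  have hu : 0 < 1 + |u| := by positivity
  have hv : 0 < 1 + |v| := by positivity
  unfold sq
  rw [div_lt_div_iff₀ hu hv]
  rcases abs_cases u with ⟨h1, h2⟩ | ⟨h1, h2⟩ <;> rcases abs_cases v with ⟨h3, h4⟩ | ⟨h3, h4⟩ <;>
    rw [h1, h3] <;> nlinarith

theorem un_lt_un {x y : ℝ} (hx : |x| < 1) (hy : |y| < 1) (h : x < y) : un x < un y := by
  by_contra hcon
  push Not at hcon
  have := sq_strictMono.monotone hcon
  rw [sq_un hx, sq_un hy] at this
  linarith

theorem continuousAt_un {x : ℝ} (hx : |x| < 1) : ContinuousAt un x := by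
  unfold un
  exact continuousAt_id.div (by fun_prop) (by linarith [abs_nonneg x])

/-- extension of a homeomorphism of the line, transported to `(-1, 1)`, by the identity -/
noncomputable def extFun (φ : ℝ ≃o ℝ) (x : ℝ) : ℝ := if |x| < 1 then sq (φ (un x)) else x

theorem extFun_strictMono (φ : ℝ ≃o ℝ) : StrictMono (extFun φ) := by
  intro x y hxy
  unfold extFun
  have hsq := fun u => abs_lt.mp (abs_sq_lt u)
  split_ifs with hx hy hy
  · exact sq_strictMono (φ.strictMono (un_lt_un hx hy hxy))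
  · rw [abs_lt] at hx
    rw [abs_lt, not_and_or] at hy
    have h1 := (hsq (φ (un x))).2
    rcases hy with hy | hy
    · linarith
    · linarith
  · rw [abs_lt] at hy
    rw [abs_lt, not_and_or] at hx
    have h1 := (hsq (φ (un y))).1
    rcases hx with hx | hx
    · linarith
    · linarith
  · exact hxy

theorem extFun_comp (φ ψ : ℝ ≃o ℝ) (x : ℝ) : extFun φ (extFun ψ x) = extFun (φ * ψ) x := by
  by_cases hx : |x| < 1
  · have h1 : extFun ψ x = sq (ψ (un x)) := if_pos hx
    rw [h1]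
    unfold extFun
    rw [if_pos (abs_sq_lt _), if_pos hx, un_sq]
    rfl
  · have h1 : extFun ψ x = x := if_neg hx
    rw [h1]
    unfold extFun
    rw [if_neg hx, if_neg hx]

theorem extFun_one (x : ℝ) : extFun 1 x = x := by
  unfold extFun
  split_ifs with h
  · exact sq_un h
  · rfl

/-- extension by the identity as a group homomorphism -/
noncomputable def extIso : (ℝ ≃o ℝ) →* (ℝ ≃o ℝ) where
  toFun φ := StrictMono.orderIsoOfRightInverse (extFun φ) (extFun_strictMono φ) (extFun φ⁻¹)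
    (fun x => by rw [extFun_comp, mul_inv_cancel, extFun_one])
  map_one' := by ext x; exact extFun_one x
  map_mul' φ ψ := by ext x; exact (extFun_comp φ ψ x).symm

theorem extIso_apply (φ : ℝ ≃o ℝ) (x : ℝ) : extIso φ x = extFun φ x := rfl

/-- The affine isomorphism `x ↦ m + r x`. -/
noncomputable def affIso (m r : ℝ) (hr : 0 < r) : ℝ ≃o ℝ :=
  StrictMono.orderIsoOfRightInverse (fun x => m + r * x) (fun x y h => by
    simp only; nlinarith) (fun y => (y - m) / r) (fun y => by field_simp; ring)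

theorem affIso_apply (m r : ℝ) (hr : 0 < r) (x : ℝ) : affIso m r hr x = m + r * x := rfl

theorem affIso_inv_apply (m r : ℝ) (hr : 0 < r) (x : ℝ) :
    (affIso m r hr)⁻¹ x = (x - m) / r := rfl

/-- extension by the identity from the interval `(m - r, m + r)` -/
noncomputable def extI (m r : ℝ) (hr : 0 < r) : (ℝ ≃o ℝ) →* (ℝ ≃o ℝ) :=
  (MulAut.conj (affIso m r hr)).toMonoidHom.comp extIso

theorem extI_apply (m r : ℝ) (hr : 0 < r) (φ : ℝ ≃o ℝ) (x : ℝ) :
    extI m r hr φ x = m + r * extFun φ ((x - m) / r) := rfl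

theorem extI_apply_of_outside {m r : ℝ} (hr : 0 < r) (φ : ℝ ≃o ℝ) {x : ℝ} (hx : r ≤ |x - m|) :
    extI m r hr φ x = x := by
  rw [extI_apply, extFun, if_neg]
  · field_simp; ring
  · rw [abs_div, abs_of_pos hr, div_lt_one hr]; linarith

/-- translation as an order isomorphism -/
def trans (c : ℝ) : ℝ ≃o ℝ := OrderIso.addRight c

theorem trans_apply (c x : ℝ) : trans c x = x + c := rfl

theorem trans_add (c d : ℝ) : trans (c + d) = trans c * trans d := by
  ext x; change x + (c + d) = (x + d) + c; ring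

theorem trans_commutator (a : ℝ) {c : ℝ} (hc : 0 < c) :
    trans a * affIso 0 c hc * (trans a)⁻¹ * (affIso 0 c hc)⁻¹ = trans (a * (1 - c)) := by
  ext x
  change (0 + c * ((x - 0) / c + -a)) + a = x + a * (1 - c)
  have := hc.ne'
  field_simp
  ring

theorem extI_trans_dist {m r : ℝ} (hr : 0 < r) (c d x : ℝ) :
    |extI m r hr (trans c) x - extI m r hr (trans d) x| ≤ r * |c - d| := by
  rw [extI_apply, extI_apply]
  have e : m + r * extFun (trans c) ((x - m) / r) - (m + r * extFun (trans d) ((x - m) / r)) =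
    r * (extFun (trans c) ((x - m) / r) - extFun (trans d) ((x - m) / r)) := by ring
  rw [e, abs_mul, abs_of_pos hr]
  refine mul_le_mul_of_nonneg_left ?_ hr.le
  unfold extFun
  split_ifs with h
  · refine (sq_lipschitz _ _).trans ?_
    rw [trans_apply, trans_apply, add_sub_add_left_eq_sub]
  · rw [sub_self, abs_zero]; exact abs_nonneg _

end squash

section families

/-- A family of order isomorphisms of the line depending (pointwise) continuously on two
parameters. -/
def FamCont (Φ : ℝ × ℝ → (ℝ ≃o ℝ)) : Prop := ∀ x : ℝ, Continuous fun w => Φ w x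

theorem FamCont.uncurry {Φ : ℝ × ℝ → (ℝ ≃o ℝ)} (hΦ : FamCont Φ) :
    Continuous fun q : (ℝ × ℝ) × ℝ => Φ q.1 q.2 := by
  rw [continuous_iff_continuousAt]
  rintro ⟨w₀, x₀⟩
  rw [ContinuousAt, Metric.tendsto_nhds]
  intro ε hε
  have hc : Continuous (Φ w₀) := (Φ w₀).continuous
  obtain ⟨δ, hδ, hδε⟩ := Metric.continuous_iff.mp hc x₀ (ε / 2) (by linarith)
  have h1 := hδε (x₀ - δ / 2) (by rw [Real.dist_eq]; rw [abs_lt]; constructor <;> linarith)
  have h2 := hδε (x₀ + δ / 2) (by rw [Real.dist_eq]; rw [abs_lt]; constructor <;> linarith)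
  rw [Real.dist_eq, abs_lt] at h1 h2
  have h3 : ∀ᶠ w in 𝓝 w₀, Φ w₀ x₀ - ε < Φ w (x₀ - δ / 2) :=
    (hΦ (x₀ - δ / 2)).continuousAt.eventually (lt_mem_nhds (by linarith [h1.1]))
  have h4 : ∀ᶠ w in 𝓝 w₀, Φ w (x₀ + δ / 2) < Φ w₀ x₀ + ε :=
    (hΦ (x₀ + δ / 2)).continuousAt.eventually (gt_mem_nhds (by linarith [h2.2]))
  have h5 : ∀ᶠ x in 𝓝 x₀, x ∈ Ioo (x₀ - δ / 2) (x₀ + δ / 2) :=
    Ioo_mem_nhds (by linarith) (by linarith)
  rw [nhds_prod_eq]
  filter_upwards [(h3.and h4).prod_mk h5] with q hq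
  obtain ⟨⟨h6, h7⟩, h8⟩ := hq
  rw [Real.dist_eq, abs_lt]
  have h9 := (Φ q.1).strictMono h8.1
  have h10 := (Φ q.1).strictMono h8.2
  constructor <;> linarith

theorem FamCont.inv {Φ : ℝ × ℝ → (ℝ ≃o ℝ)} (hΦ : FamCont Φ) : FamCont (Φ⁻¹) := by
  intro s
  rw [continuous_iff_continuousAt]
  intro w₀
  rw [ContinuousAt, Metric.tendsto_nhds]
  intro ε hε
  set x₀ := (Φ w₀)⁻¹ s with hx₀
  have hs : Φ w₀ x₀ = s := by rw [hx₀]; exact (Φ w₀).apply_symm_apply s
  have h1 : ∀ᶠ w in 𝓝 w₀, Φ w (x₀ - ε) < s :=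
    (hΦ (x₀ - ε)).continuousAt.eventually (gt_mem_nhds (by
      rw [← hs]; exact (Φ w₀).strictMono (by linarith)))
  have h2 : ∀ᶠ w in 𝓝 w₀, s < Φ w (x₀ + ε) :=
    (hΦ (x₀ + ε)).continuousAt.eventually (lt_mem_nhds (by
      rw [← hs]; exact (Φ w₀).strictMono (by linarith)))
  filter_upwards [h1, h2] with w h3 h4
  have h5 : Φ w ((Φ w)⁻¹ s) = s := (Φ w).apply_symm_apply s
  change dist ((Φ w)⁻¹ s) x₀ < ε
  rw [Real.dist_eq, abs_lt]
  constructor
  · by_contra hcon
    push Not at hcon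
    have := (Φ w).monotone (show (Φ w)⁻¹ s ≤ x₀ - ε by linarith)
    rw [h5] at this; linarith
  · by_contra hcon
    push Not at hcon
    have := (Φ w).monotone (show x₀ + ε ≤ (Φ w)⁻¹ s by linarith)
    rw [h5] at this; linarith

theorem FamCont.mul {Φ Ψ : ℝ × ℝ → (ℝ ≃o ℝ)} (hΦ : FamCont Φ) (hΨ : FamCont Ψ) :
    FamCont (Φ * Ψ) := by
  intro x
  exact hΦ.uncurry.comp (continuous_id.prodMk (hΨ x))

/-- `E^3` -/
abbrev E3 := EuclideanSpace ℝ (Fin 3)

/-- The homeomorphism `(x, y, z) ↦ (Φ (y, z) x, y, z)`. -/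
noncomputable def famHomeo (Φ : ℝ × ℝ → (ℝ ≃o ℝ)) (hΦ : FamCont Φ) : E3 ≃ₜ E3 where
  toFun p := WithLp.toLp 2 ![Φ (p 1, p 2) (p 0), p 1, p 2]
  invFun p := WithLp.toLp 2 ![(Φ (p 1, p 2))⁻¹ (p 0), p 1, p 2]
  left_inv p := by
    ext i
    fin_cases i
    · exact (Φ (p 1, p 2)).symm_apply_apply (p 0)
    · rfl
    · rfl
  right_inv p := by
    ext i
    fin_cases i
    · exact (Φ (p 1, p 2)).apply_symm_apply (p 0)
    · rfl
    · rfl
  continuous_toFun := by
    refine (PiLp.continuous_toLp 2 _).comp (continuous_pi fun i => ?_)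
    fin_cases i
    · exact hΦ.uncurry.comp (by fun_prop : Continuous fun p : E3 => ((p 1, p 2), p 0))
    · change Continuous fun p : E3 => p 1
      fun_prop
    · change Continuous fun p : E3 => p 2
      fun_prop
  continuous_invFun := by
    refine (PiLp.continuous_toLp 2 _).comp (continuous_pi fun i => ?_)
    fin_cases i
    · exact hΦ.inv.uncurry.comp (by fun_prop : Continuous fun p : E3 => ((p 1, p 2), p 0))
    · change Continuous fun p : E3 => p 1
      fun_prop
    · change Continuous fun p : E3 => p 2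
      fun_prop

theorem famHomeo_zero (Φ : ℝ × ℝ → (ℝ ≃o ℝ)) (hΦ : FamCont Φ) (p : E3) :
    famHomeo Φ hΦ p 0 = Φ (p 1, p 2) (p 0) := rfl
theorem famHomeo_one (Φ : ℝ × ℝ → (ℝ ≃o ℝ)) (hΦ : FamCont Φ) (p : E3) :
    famHomeo Φ hΦ p 1 = p 1 := rfl
theorem famHomeo_two (Φ : ℝ × ℝ → (ℝ ≃o ℝ)) (hΦ : FamCont Φ) (p : E3) :
    famHomeo Φ hΦ p 2 = p 2 := rfl

/-- the cyclic permutation `(x, y, z) ↦ (y, z, x)` -/
def cyc : E3 ≃ₜ E3 where
  toFun p := WithLp.toLp 2 ![p 1, p 2, p 0]
  invFun p := WithLp.toLp 2 ![p 2, p 0, p 1]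
  left_inv p := by ext i; fin_cases i <;> rfl
  right_inv p := by ext i; fin_cases i <;> rfl
  continuous_toFun := by
    refine (PiLp.continuous_toLp 2 _).comp (continuous_pi fun i => ?_)
    fin_cases i
    · change Continuous fun p : E3 => p 1
      fun_prop
    · change Continuous fun p : E3 => p 2
      fun_prop
    · change Continuous fun p : E3 => p 0
      fun_prop
  continuous_invFun := by
    refine (PiLp.continuous_toLp 2 _).comp (continuous_pi fun i => ?_)
    fin_cases i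
    · change Continuous fun p : E3 => p 2
      fun_prop
    · change Continuous fun p : E3 => p 0
      fun_prop
    · change Continuous fun p : E3 => p 1
      fun_prop

theorem cyc_mem : cyc ∈ groupB :=
  Subgroup.subset_closure ⟨fun q => q.1, fun q => q.2, fun q => q.1, by fun_prop, by fun_prop,
    by fun_prop, fun _ => ⟨rfl, rfl, rfl⟩⟩

/-- Families depending on the first parameter only. -/
theorem famHomeo_mem_of_fst {α : ℝ → (ℝ ≃o ℝ)} (hα : FamCont (fun w => α w.1)) :
    famHomeo (fun w => α w.1) hα ∈ groupB := by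
  have h1 : famHomeo (fun w => α w.1) hα * cyc ∈ zeroDiagonal := by
    refine ⟨fun q => α q.2 q.1, fun q => q.2, fun q => q.1, ?_, by fun_prop, by fun_prop,
      fun p => ⟨rfl, rfl, rfl⟩⟩
    exact hα.uncurry.comp (by fun_prop : Continuous fun q : ℝ × ℝ => ((q.2, (0 : ℝ)), q.1))
  have h2 := groupB.mul_mem (Subgroup.subset_closure h1) (groupB.inv_mem cyc_mem)
  simpa using h2

/-- Families depending on the second parameter only. -/
theorem famHomeo_mem_of_snd {α : ℝ → (ℝ ≃o ℝ)} (hα : FamCont (fun w => α w.2)) :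
    famHomeo (fun w => α w.2) hα ∈ groupB := by
  have h1 : famHomeo (fun w => α w.2) hα * cyc⁻¹ ∈ zeroDiagonal := by
    refine ⟨fun q => α q.1 q.2, fun q => q.1, fun q => q.2, ?_, by fun_prop, by fun_prop,
      fun p => ⟨rfl, rfl, rfl⟩⟩
    exact hα.uncurry.comp (by fun_prop : Continuous fun q : ℝ × ℝ => (((0 : ℝ), q.1), q.2))
  have h2 := groupB.mul_mem (Subgroup.subset_closure h1) cyc_mem
  simpa using h2

/-- The family is continuous and its homeomorphism is approximable by the type B group. -/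
def Good (Φ : ℝ × ℝ → (ℝ ≃o ℝ)) : Prop :=
  ∃ hΦ : FamCont Φ, Approximable groupB (famHomeo Φ hΦ)

theorem Good.mul {Φ Ψ : ℝ × ℝ → (ℝ ≃o ℝ)} (hΦ : Good Φ) (hΨ : Good Ψ) : Good (Φ * Ψ) := by
  obtain ⟨h1, h2⟩ := hΦ
  obtain ⟨h3, h4⟩ := hΨ
  refine ⟨h1.mul h3, ?_⟩
  have : famHomeo (Φ * Ψ) (h1.mul h3) = famHomeo Φ h1 * famHomeo Ψ h3 := by
    ext p i; fin_cases i <;> rfl
  rw [this]; exact Approximable.mul h2 h4

theorem Good.inv {Φ : ℝ × ℝ → (ℝ ≃o ℝ)} (hΦ : Good Φ) : Good Φ⁻¹ := by
  obtain ⟨h1, h2⟩ := hΦ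
  refine ⟨h1.inv, ?_⟩
  have : famHomeo (Φ⁻¹) h1.inv = (famHomeo Φ h1)⁻¹ := by
    ext p i; fin_cases i <;> rfl
  rw [this]; exact Approximable.inv h2

theorem good_of_fst {α : ℝ → (ℝ ≃o ℝ)} (hα : FamCont (fun w => α w.1)) : Good (fun w => α w.1) :=
  ⟨hα, approximable_of_mem (famHomeo_mem_of_fst hα)⟩

theorem good_of_snd {α : ℝ → (ℝ ≃o ℝ)} (hα : FamCont (fun w => α w.2)) : Good (fun w => α w.2) :=
  ⟨hα, approximable_of_mem (famHomeo_mem_of_snd hα)⟩

theorem good_const (φ : ℝ ≃o ℝ) : Good (fun _ => φ) :=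
  good_of_fst (α := fun _ => φ) (fun _ => continuous_const)

/-- limits of good families -/
theorem good_of_limit {Φ : ℝ × ℝ → (ℝ ≃o ℝ)} (hΦ : FamCont Φ)
    (h : ∀ R : ℝ, 0 < R → ∀ ε : ℝ, 0 < ε → ∃ Ψ, Good Ψ ∧
      ∀ x y z : ℝ, |x| ≤ R → |y| ≤ R → |z| ≤ R → |Ψ (y, z) x - Φ (y, z) x| ≤ ε) : Good Φ := by
  refine ⟨hΦ, approximable_idem fun B hB ε hε => ?_⟩
  obtain ⟨R, hR, hBR⟩ : ∃ R : ℝ, 0 < R ∧ ∀ p ∈ B, ‖p‖ ≤ R := by
    obtain ⟨R, hR⟩ := hB.exists_norm_le
    exact ⟨max R 1, by positivity, fun p hp => (hR p hp).trans (le_max_left _ _)⟩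
  obtain ⟨Ψ, ⟨hΨ1, hΨ2⟩, hd⟩ := h R hR (ε / 2) (by linarith)
  refine ⟨famHomeo Ψ hΨ1, hΨ2, fun p hp => ?_⟩
  have hc : ∀ i, |p i| ≤ R := fun i => by
    have := PiLp.norm_apply_le p i
    rw [Real.norm_eq_abs] at this
    exact this.trans (hBR p hp)
  rw [EuclideanSpace.dist_eq, Fin.sum_univ_three, famHomeo_zero, famHomeo_zero, famHomeo_one,
    famHomeo_one, famHomeo_two, famHomeo_two, dist_self, dist_self]
  have h1 := hd (p 0) (p 1) (p 2) (hc 0) (hc 1) (hc 2)
  rw [← Real.dist_eq] at h1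
  have h2 : √(dist (Ψ (p 1, p 2) (p 0)) (Φ (p 1, p 2) (p 0)) ^ 2 + 0 ^ 2 + 0 ^ 2) =
      dist (Ψ (p 1, p 2) (p 0)) (Φ (p 1, p 2) (p 0)) := by
    rw [zero_pow two_ne_zero, add_zero, add_zero, Real.sqrt_sq dist_nonneg]
  rw [h2]; linarith

end families

section local_moves

variable {m r : ℝ} (hr : 0 < r)

include hr

theorem famCont_extI {Φ : ℝ × ℝ → (ℝ ≃o ℝ)} (hΦ : FamCont Φ) :
    FamCont (fun w => extI m r hr (Φ w)) := by
  intro x
  simp only [extI_apply, extFun]
  split_ifs with h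
  · have := continuous_sq.comp (hΦ (un ((x - m) / r)))
    exact continuous_const.add (continuous_const.mul this)
  · exact continuous_const

/-- local translations by products -/
theorem good_product {a b : ℝ → ℝ} (ha : Continuous a) (hb : Continuous b) {C : ℝ}
    (hC : ∀ z, |b z| ≤ C) : Good (fun w => extI m r hr (trans (a w.1 * b w.2))) := by
  set C' : ℝ := 2 * (|C| + 1) with hC'
  have hC'0 : 0 < C' := by positivity
  have hbC : ∀ z, b z / C' < 1 := by
    intro z
    rw [div_lt_one hC'0]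
    have := (le_abs_self _).trans (hC z)
    have := le_abs_self C
    rw [hC']; linarith [abs_nonneg C]
  have hc0 : ∀ z, 0 < 1 - b z / C' := fun z => by linarith [hbC z]
  set A : ℝ × ℝ → (ℝ ≃o ℝ) := fun w => extI m r hr (trans (a w.1 * C')) with hA
  set Γ : ℝ × ℝ → (ℝ ≃o ℝ) := fun w => extI m r hr (affIso 0 (1 - b w.2 / C') (hc0 w.2)) with hΓ
  have hAg : Good A := by
    refine good_of_fst (α := fun y => extI m r hr (trans (a y * C'))) ?_
    refine famCont_extI hr (Φ := fun w => trans (a w.1 * C')) fun x => ?_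
    simp only [trans_apply]; fun_prop
  have hΓg : Good Γ := by
    refine good_of_snd (α := fun z => extI m r hr (affIso 0 (1 - b z / C') (hc0 z))) ?_
    refine famCont_extI hr (Φ := fun w => affIso 0 (1 - b w.2 / C') (hc0 w.2)) fun x => ?_
    simp only [affIso_apply]; fun_prop
  have h1 : Good (A * Γ * A⁻¹ * Γ⁻¹) := ((hAg.mul hΓg).mul hAg.inv).mul hΓg.inv
  have h2 : A * Γ * A⁻¹ * Γ⁻¹ = fun w => extI m r hr (trans (a w.1 * b w.2)) := by
    funext w
    have h3 := trans_commutator (a w.1 * C') (hc0 w.2)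
    have h4 : a w.1 * C' * (1 - (1 - b w.2 / C')) = a w.1 * b w.2 := by
      have := hC'0.ne'
      field_simp; ring
    rw [h4] at h3
    rw [← h3, map_mul, map_mul, map_mul, map_inv, map_inv]
    rfl
  rw [h2] at h1; exact h1

/-- the class of functions `ψ` for which the local translation by `ψ` is good -/
def GoodShift (ψ : ℝ × ℝ → ℝ) : Prop := Good (fun w => extI m r hr (trans (ψ w)))

theorem GoodShift.add {ψ₁ ψ₂ : ℝ × ℝ → ℝ} (h₁ : GoodShift (m := m) hr ψ₁)
    (h₂ : GoodShift (m := m) hr ψ₂) : GoodShift (m := m) hr (fun w => ψ₁ w + ψ₂ w) := by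
  have h := Good.mul h₁ h₂
  have e : (fun w => extI m r hr (trans (ψ₁ w))) * (fun w => extI m r hr (trans (ψ₂ w))) =
      fun w => extI m r hr (trans (ψ₁ w + ψ₂ w)) := by
    funext w
    rw [trans_add, map_mul]; rfl
  rw [e] at h; exact h

theorem goodShift_product {a b : ℝ → ℝ} (ha : Continuous a) (hb : Continuous b) {C : ℝ}
    (hC : ∀ z, |b z| ≤ C) : GoodShift (m := m) hr (fun w => a w.1 * b w.2) :=
  good_product hr ha hb hC

/-- clamping to `[-R, R]` -/
def clamp (R : ℝ) (z : ℝ) : ℝ := max (-R) (min R z)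

omit hr in
theorem continuous_clamp (R : ℝ) : Continuous (clamp R) := by unfold clamp; fun_prop

omit hr in
theorem clamp_of_abs_le {R z : ℝ} (h : |z| ≤ R) : clamp R z = z := by
  rw [abs_le] at h
  rw [clamp, min_eq_right h.2, max_eq_right h.1]

omit hr in
theorem clamp_mem {R : ℝ} (hR : 0 ≤ R) (z : ℝ) : clamp R z ∈ Icc (-R) R :=
  ⟨le_max_left _ _, max_le (by linarith) (min_le_left _ _)⟩

/-- Every continuous `ψ` gives a good local translation. -/
theorem goodShift_of_continuous {ψ : ℝ × ℝ → ℝ} (hψ : Continuous ψ) :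
    GoodShift (m := m) hr ψ := by
  refine good_of_limit (famCont_extI hr (Φ := fun w => trans (ψ w)) fun x => ?_)
    fun R hR ε hε => ?_
  · simp only [trans_apply]; fun_prop
  -- uniform continuity on a compact square
  have hK : IsCompact (Icc (-R - 1) (R + 1) ×ˢ Icc (-R) R : Set (ℝ × ℝ)) :=
    isCompact_Icc.prod isCompact_Icc
  have huc := hK.uniformContinuousOn_of_continuous hψ.continuousOn
  rw [Metric.uniformContinuousOn_iff] at huc
  obtain ⟨δ₀, hδ₀, huc⟩ := huc (ε / r) (by positivity)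
  set δ : ℝ := min (δ₀ / 2) 1 with hδ
  have hδ0 : 0 < δ := by positivity
  have hδδ₀ : δ < δ₀ := by
    have : δ ≤ δ₀ / 2 := min_le_left _ _
    linarith
  have hδ1 : δ ≤ 1 := min_le_right _ _
  set y : ℕ → ℝ := fun k => -R + k * δ with hy
  have key : ∀ K : ℕ, y K ≤ R + 1 → ∃ ψ' : ℝ × ℝ → ℝ, GoodShift (m := m) hr ψ' ∧
      (∀ w : ℝ × ℝ, w.1 ∈ Icc (-R) (y K) → w.2 ∈ Icc (-R) R → |ψ' w - ψ w| ≤ ε / r) ∧
      ∀ w : ℝ × ℝ, y K ≤ w.1 → ψ' w = ψ (y K, clamp R w.2) := by
    intro K
    induction K with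
    | zero =>
      intro _
      have hb : ∀ z, |ψ (y 0, clamp R z)| ≤
          sSup ((fun z => |ψ (y 0, z)|) '' Icc (-R) R) := by
        intro z
        apply le_csSup
        · exact (isCompact_Icc.image (by fun_prop : Continuous fun z => |ψ (y 0, z)|)).bddAbove
        · exact ⟨clamp R z, clamp_mem hR.le z, rfl⟩
      refine ⟨fun w => 1 * ψ (y 0, clamp R w.2), ?_, ?_, ?_⟩
      · refine goodShift_product hr (a := fun _ => 1) (b := fun z => ψ (y 0, clamp R z))
          continuous_const ?_ hb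
        exact hψ.comp (continuous_const.prodMk (continuous_clamp R))
      · intro w hw1 hw2
        have h1 : w.1 = y 0 := by
          simp only [hy, Nat.cast_zero, zero_mul, add_zero] at hw1 ⊢
          exact le_antisymm hw1.2 hw1.1
        have h2 : clamp R w.2 = w.2 := clamp_of_abs_le (abs_le.mpr hw2)
        simp only
        rw [one_mul, h2, ← h1, sub_self, abs_zero]
        positivity
      · intro w _
        simp only
        rw [one_mul]
    | succ K ih =>
      intro hK1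
      have hyK : y (K + 1) = y K + δ := by simp only [hy]; push_cast; ring
      have hyK' : y K ≤ R + 1 := by linarith
      have hyR : -R ≤ y K := by simp only [hy]; have : 0 ≤ (K : ℝ) * δ := by positivity
                                linarith
      obtain ⟨ψ₀, hg₀, ha₀, hb₀⟩ := ih hyK'
      set s : ℝ → ℝ := fun t => max 0 (min 1 ((t - y K) / δ)) with hs
      have hsc : Continuous s := by simp only [hs]; fun_prop
      have hs0 : ∀ t, t ≤ y K → s t = 0 := by
        intro t ht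
        have : (t - y K) / δ ≤ 0 := div_nonpos_of_nonpos_of_nonneg (by linarith) hδ0.le
        simp only [hs]
        rw [max_eq_left]
        exact (min_le_right _ _).trans this
      have hs1 : ∀ t, y (K + 1) ≤ t → s t = 1 := by
        intro t ht
        have : 1 ≤ (t - y K) / δ := by rw [le_div_iff₀ hδ0]; linarith
        simp only [hs]
        rw [min_eq_left this, max_eq_right zero_le_one]
      have hs01 : ∀ t, 0 ≤ s t ∧ s t ≤ 1 := fun t =>
        ⟨le_max_left _ _, max_le zero_le_one (min_le_left _ _)⟩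
      set d : ℝ → ℝ := fun z => ψ (y (K + 1), clamp R z) - ψ (y K, clamp R z) with hd
      have hdc : Continuous d :=
        (hψ.comp (continuous_const.prodMk (continuous_clamp R))).sub
          (hψ.comp (continuous_const.prodMk (continuous_clamp R)))
      have hdb : ∀ z, |d z| ≤
          sSup ((fun z => |ψ (y (K + 1), z) - ψ (y K, z)|) '' Icc (-R) R) := by
        intro z
        apply le_csSup
        · exact (isCompact_Icc.image
            (by fun_prop : Continuous fun z => |ψ (y (K + 1), z) - ψ (y K, z)|)).bddAbove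
        · exact ⟨clamp R z, clamp_mem hR.le z, rfl⟩
      refine ⟨fun w => ψ₀ w + s w.1 * d w.2, hg₀.add hr (goodShift_product hr hsc hdc hdb), ?_, ?_⟩
      · intro w hw1 hw2
        have h2 : clamp R w.2 = w.2 := clamp_of_abs_le (abs_le.mpr hw2)
        rcases le_total w.1 (y K) with h1 | h1
        · simp only
          rw [hs0 _ h1, zero_mul, add_zero]
          exact ha₀ w ⟨hw1.1, h1⟩ hw2
        · have h3 : ψ₀ w + s w.1 * d w.2 - ψ w =
              (1 - s w.1) * (ψ (y K, w.2) - ψ w) + s w.1 * (ψ (y (K + 1), w.2) - ψ w) := by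
            rw [hb₀ w h1, hd]
            simp only [h2]; ring
          have hwm : w ∈ (Icc (-R - 1) (R + 1) ×ˢ Icc (-R) R : Set (ℝ × ℝ)) :=
            ⟨⟨by linarith [hw1.1], hw1.2.trans hK1⟩, hw2⟩
          have h4 : |ψ (y K, w.2) - ψ w| ≤ ε / r := by
            have h5 := huc (y K, w.2) ⟨⟨by linarith, hyK'⟩, hw2⟩ w hwm (by
              rw [Prod.dist_eq]
              simp only [dist_self]
              apply max_lt _ hδ₀
              rw [Real.dist_eq, abs_lt]
              constructor <;> linarith [hw1.2])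
            rw [Real.dist_eq] at h5; exact h5.le
          have h6 : |ψ (y (K + 1), w.2) - ψ w| ≤ ε / r := by
            have h5 := huc (y (K + 1), w.2) ⟨⟨by linarith, hK1⟩, hw2⟩ w hwm (by
              rw [Prod.dist_eq]
              simp only [dist_self]
              apply max_lt _ hδ₀
              rw [Real.dist_eq, abs_lt]
              constructor <;> linarith [hw1.2])
            rw [Real.dist_eq] at h5; exact h5.le
          simp only
          rw [h3]
          obtain ⟨h7, h8⟩ := hs01 w.1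
          calc |(1 - s w.1) * (ψ (y K, w.2) - ψ w) + s w.1 * (ψ (y (K + 1), w.2) - ψ w)|
              ≤ |(1 - s w.1) * (ψ (y K, w.2) - ψ w)| + |s w.1 * (ψ (y (K + 1), w.2) - ψ w)| :=
                abs_add_le _ _
            _ = (1 - s w.1) * |ψ (y K, w.2) - ψ w| + s w.1 * |ψ (y (K + 1), w.2) - ψ w| := by
                rw [abs_mul, abs_mul, abs_of_nonneg h7, abs_of_nonneg (by linarith : 0 ≤ 1 - s w.1)]
            _ ≤ (1 - s w.1) * (ε / r) + s w.1 * (ε / r) := by
                have : 0 ≤ 1 - s w.1 := by linarith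
                gcongr
            _ = ε / r := by ring
      · intro w hw
        simp only
        rw [hb₀ w (by linarith), hs1 _ hw, one_mul, hd]
        simp only; ring
  obtain ⟨K, hK⟩ : ∃ K : ℕ, R ≤ y K ∧ y K ≤ R + 1 := by
    obtain ⟨K, hK1, hK2⟩ : ∃ K : ℕ, 2 * R / δ ≤ K ∧ (K : ℝ) < 2 * R / δ + 1 :=
      ⟨⌈2 * R / δ⌉₊, Nat.le_ceil _, Nat.ceil_lt_add_one (by positivity)⟩
    refine ⟨K, ?_, ?_⟩
    · rw [div_le_iff₀ hδ0] at hK1
      simp only [hy]; linarith
    · have : (K : ℝ) * δ < (2 * R / δ + 1) * δ := by gcongr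
      have e : (2 * R / δ + 1) * δ = 2 * R + δ := by have := hδ0.ne'; field_simp
      simp only [hy]; linarith
  obtain ⟨ψ', hg, ha, -⟩ := key K hK.2
  refine ⟨fun w => extI m r hr (trans (ψ' w)), hg, fun x y' z _ hy' hz => ?_⟩
  rw [abs_le] at hy' hz
  refine (extI_trans_dist hr _ _ _).trans ?_
  have h1 := ha (y', z) ⟨hy'.1, hy'.2.trans hK.1⟩ hz
  calc r * |ψ' (y', z) - ψ (y', z)| ≤ r * (ε / r) := by gcongr
    _ = ε := by have := hr.ne'; field_simp

end local_moves

end Pool.Agent.Helper25
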