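import Pool.Agent.Helper25.TypeB

/-!
Type B, continued: every one-coordinate homeomorphism of `E^3` is a limit of elements of the
type B group.
-/

open Set Metric Topology Filter
open scoped NNReal

namespace Pool.Agent.Helper25

theorem extI_trans_center {m r : ℝ} (hr : 0 < r) {v : ℝ} (hv : |(v - m) / r| < 1) :
    extI m r hr (trans (un ((v - m) / r))) m = v := by
  rw [extI_apply, sub_self, zero_div, extFun, if_pos (by rw [abs_zero]; exact one_pos)]
  have h0 : un 0 = 0 := by unfold un; simp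
  rw [h0, trans_apply, zero_add, sq_un hv]
  field_simp; ring

/-- The node argument: every continuous family is good. -/
theorem good_of_famCont {Φ : ℝ × ℝ → (ℝ ≃o ℝ)} (hΦ : FamCont Φ) : Good Φ := by
  refine good_of_limit hΦ fun R hR ε hε => ?_
  have hK : IsCompact ((Icc (-R) R ×ˢ Icc (-R) R) ×ˢ Icc (-R) (R + 1) : Set ((ℝ × ℝ) × ℝ)) :=
    (isCompact_Icc.prod isCompact_Icc).prod isCompact_Icc
  obtain ⟨Q, hQ⟩ : ∃ Q : ℝ, ∀ q ∈ ((Icc (-R) R ×ˢ Icc (-R) R) ×ˢ Icc (-R) (R + 1) :
      Set ((ℝ × ℝ) × ℝ)), |Φ q.1 q.2| ≤ Q := by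
    obtain ⟨Q, hQ⟩ := hK.exists_bound_of_continuousOn hΦ.uncurry.continuousOn
    exact ⟨Q, fun q hq => hQ q hq⟩
  have huc := hK.uniformContinuousOn_of_continuous hΦ.uncurry.continuousOn
  rw [Metric.uniformContinuousOn_iff] at huc
  obtain ⟨δ₀, hδ₀, huc⟩ := huc ε hε
  have hQ0 : 0 ≤ Q := (abs_nonneg _).trans (hQ ((0, 0), 0)
    ⟨⟨⟨by simpa using hR.le, hR.le⟩, ⟨by simpa using hR.le, hR.le⟩⟩,
      ⟨by simpa using hR.le, by simp only; linarith⟩⟩)
  set δ : ℝ := min (δ₀ / 2) 1 with hδ
  have hδ0 : 0 < δ := by positivity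
  have hδδ₀ : δ < δ₀ := by
    have : δ ≤ δ₀ / 2 := min_le_left _ _
    linarith
  have hδ1 : δ ≤ 1 := min_le_right _ _
  set x : ℕ → ℝ := fun k => -R + k * δ with hx
  have hxs : ∀ k, x (k + 1) = x k + δ := fun k => by simp only [hx]; push_cast; ring
  have hx0 : x 0 = -R := by simp only [hx]; push_cast; ring
  have hxm : ∀ j k, j ≤ k → x j ≤ x k := fun j k hjk => by
    simp only [hx]
    have : (j : ℝ) ≤ k := by exact_mod_cast hjk
    have := mul_le_mul_of_nonneg_right this hδ0.le
    linarith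
  have hxd : ∀ j k, j < k → x j + δ ≤ x k := fun j k hjk => by
    rw [← hxs]; exact hxm _ _ hjk
  set cl : ℝ × ℝ → ℝ × ℝ := fun w => (clamp R w.1, clamp R w.2) with hcl
  have hclc : Continuous cl := by
    have := continuous_clamp R
    exact (this.comp continuous_fst).prodMk (this.comp continuous_snd)
  set f : ℕ → ℝ × ℝ → ℝ := fun k w => Φ (cl w) (x k) with hf
  have hfc : ∀ k, Continuous (f k) := fun k => (hΦ (x k)).comp hclc
  have hfQ : ∀ k, x k ≤ R + 1 → ∀ w, |f k w| ≤ Q := fun k hk w =>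
    hQ (cl w, x k) ⟨⟨clamp_mem hR.le _, clamp_mem hR.le _⟩, ⟨by
      rw [← hx0]; exact hxm 0 k (Nat.zero_le _), hk⟩⟩
  have hfm : ∀ j k, j < k → ∀ w, f j w < f k w := fun j k hjk w =>
    (Φ (cl w)).strictMono (by have := hxd j k hjk; linarith)
  have hC : 0 < (2 * Q + 2) / δ := by positivity
  set Φ₀ : ℝ ≃o ℝ := affIso ((Q + 1) + (2 * Q + 2) / δ * R) ((2 * Q + 2) / δ) hC with hΦ₀
  have hΦ₀a : ∀ t, Φ₀ t = (Q + 1) + (2 * Q + 2) / δ * (t - x 0) := fun t => by
    rw [hΦ₀, affIso_apply, hx0]; ring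
  have hΦ₀1 : Φ₀ (x 0) = Q + 1 := by rw [hΦ₀a]; ring
  have hΦ₀2 : Φ₀ (x 0 - δ) = -(Q + 1) := by
    rw [hΦ₀a]
    have := hδ0.ne'
    field_simp; ring
  -- the induction
  have key : ∀ k : ℕ, x k ≤ R + 1 + δ → ∃ Ψ : ℝ × ℝ → (ℝ ≃o ℝ), Good Ψ ∧
      (∀ j, j < k → ∀ w, Ψ w (x j) = f j w) ∧ (∀ w t, x k ≤ t → Ψ w t = Φ₀ t) ∧
      (∀ w t, t ≤ x 0 - δ → Ψ w t = Φ₀ t) := by
    intro k
    induction k with
    | zero =>
      intro _
      exact ⟨fun _ => Φ₀, good_const Φ₀, fun j hj => absurd hj (Nat.not_lt_zero _),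
        fun _ _ _ => rfl, fun _ _ _ => rfl⟩
    | succ k ih =>
      intro hk
      have hkR : x k ≤ R + 1 := by rw [hxs] at hk; linarith
      obtain ⟨Ψ, hg, ha, hb, hc⟩ := ih (by linarith)
      obtain ⟨hFC, -⟩ := id hg
      set v : ℝ × ℝ → ℝ := fun w => (Ψ w)⁻¹ (f k w) with hv
      have hvc : Continuous v := hFC.inv.uncurry.comp (continuous_id.prodMk (hfc k))
      have hvf : ∀ w, Ψ w (v w) = f k w := fun w => (Ψ w).apply_symm_apply (f k w)
      have hv1 : ∀ w, v w < x k := by
        intro w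
        rw [← (Ψ w).lt_iff_lt, hvf, hb w (x k) le_rfl]
        have h1 : Φ₀ (x 0) ≤ Φ₀ (x k) := Φ₀.monotone (hxm 0 k (Nat.zero_le _))
        have h2 := (abs_le.mp (hfQ k hkR w)).2
        linarith
      have hv2 : ∀ w, x k - δ < v w := by
        intro w
        rw [← (Ψ w).lt_iff_lt, hvf]
        rcases Nat.eq_zero_or_pos k with h0 | h0
        · subst h0
          rw [hc w _ le_rfl, hΦ₀2]
          have h2 := (abs_le.mp (hfQ 0 hkR w)).1
          linarith
        · obtain ⟨j, rfl⟩ : ∃ j, k = j + 1 := ⟨k - 1, by omega⟩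
          have : x (j + 1) - δ = x j := by rw [hxs]; ring
          rw [this, ha j (Nat.lt_succ_self j) w]
          exact hfm j (j + 1) (Nat.lt_succ_self j) w
      have hv3 : ∀ w, |(v w - x k) / δ| < 1 := by
        intro w
        rw [abs_div, abs_of_pos hδ0, div_lt_one hδ0, abs_lt]
        constructor <;> linarith [hv1 w, hv2 w]
      set ψ : ℝ × ℝ → ℝ := fun w => un ((v w - x k) / δ) with hψ
      have hψc : Continuous ψ := by
        rw [continuous_iff_continuousAt]
        intro w
        have h1 : ContinuousAt (fun w => (v w - x k) / δ) w := by fun_prop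
        exact ContinuousAt.comp (f := fun w => (v w - x k) / δ) (g := un)
          (continuousAt_un (hv3 w)) h1
      have hgs : Good (fun w => extI (x k) δ hδ0 (trans (ψ w))) :=
        goodShift_of_continuous hδ0 hψc
      refine ⟨Ψ * fun w => extI (x k) δ hδ0 (trans (ψ w)), hg.mul hgs, ?_, ?_, ?_⟩
      · intro j hj w
        change Ψ w (extI (x k) δ hδ0 (trans (ψ w)) (x j)) = f j w
        rcases Nat.lt_succ_iff_lt_or_eq.mp hj with h | h
        · rw [extI_apply_of_outside, ha j h w]
          have := hxd j k h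
          rw [abs_sub_comm, abs_of_nonneg] <;> linarith
        · subst h
          rw [hψ]
          simp only
          rw [extI_trans_center hδ0 (hv3 w), hvf]
      · intro w t ht
        change Ψ w (extI (x k) δ hδ0 (trans (ψ w)) t) = Φ₀ t
        rw [hxs] at ht
        rw [extI_apply_of_outside, hb w t (by linarith)]
        rw [abs_of_nonneg] <;> linarith
      · intro w t ht
        change Ψ w (extI (x k) δ hδ0 (trans (ψ w)) t) = Φ₀ t
        have := hxm 0 k (Nat.zero_le _)
        rw [extI_apply_of_outside, hc w t ht]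
        rw [abs_sub_comm, abs_of_nonneg] <;> linarith
  set N : ℕ := ⌊2 * R / δ⌋₊ + 1 with hN
  have hN1 : R < x N := by
    have h1 : 2 * R / δ < N := by rw [hN]; push_cast; exact Nat.lt_floor_add_one _
    rw [div_lt_iff₀ hδ0] at h1
    simp only [hx]; linarith
  have hN2 : x N ≤ R + 1 := by
    have h1 : ((⌊2 * R / δ⌋₊ : ℕ) : ℝ) ≤ 2 * R / δ := Nat.floor_le (by positivity)
    rw [le_div_iff₀ hδ0] at h1
    simp only [hx, hN]; push_cast; linarith
  obtain ⟨Ψ, hg, ha, -, -⟩ := key (N + 1) (by rw [hxs]; linarith)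
  refine ⟨Ψ, hg, fun t y z ht hy hz => ?_⟩
  have hclw : cl (y, z) = (y, z) := by
    simp only [hcl, clamp_of_abs_le hy, clamp_of_abs_le hz]
  rw [abs_le] at ht hy hz
  set j : ℕ := ⌊(t + R) / δ⌋₊ with hj
  have hj1 : x j ≤ t := by
    have h1 : ((⌊(t + R) / δ⌋₊ : ℕ) : ℝ) ≤ (t + R) / δ :=
      Nat.floor_le (div_nonneg (by linarith) hδ0.le)
    rw [le_div_iff₀ hδ0] at h1
    simp only [hx, hj]; linarith
  have hj2 : t < x (j + 1) := by
    have h1 : (t + R) / δ < ((⌊(t + R) / δ⌋₊ : ℕ) : ℝ) + 1 := Nat.lt_floor_add_one _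
    rw [div_lt_iff₀ hδ0] at h1
    simp only [hx, hj]; push_cast; linarith
  have hjN : j < N := by
    by_contra hcon
    push Not at hcon
    have := hxm N j hcon
    linarith [ht.2]
  have e1 : Ψ (y, z) (x j) = Φ (y, z) (x j) := by
    rw [ha j (by omega), hf]
    simp only
    rw [hclw]
  have e2 : Ψ (y, z) (x (j + 1)) = Φ (y, z) (x (j + 1)) := by
    rw [ha (j + 1) (by omega), hf]
    simp only
    rw [hclw]
  have m1 : Ψ (y, z) (x j) ≤ Ψ (y, z) t := (Ψ (y, z)).monotone hj1
  have m2 : Ψ (y, z) t ≤ Ψ (y, z) (x (j + 1)) := (Ψ (y, z)).monotone hj2.le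
  have m3 : Φ (y, z) (x j) ≤ Φ (y, z) t := (Φ (y, z)).monotone hj1
  have m4 : Φ (y, z) t ≤ Φ (y, z) (x (j + 1)) := (Φ (y, z)).monotone hj2.le
  have hxj1 : x (j + 1) ≤ R + 1 := (hxm (j + 1) N hjN).trans hN2
  have hxj0 : -R ≤ x j := by rw [← hx0]; exact hxm 0 j (Nat.zero_le _)
  have m5 := huc ((y, z), x (j + 1))
    ⟨⟨hy, hz⟩, ⟨by have := hxs j; simp only; linarith, hxj1⟩⟩ ((y, z), x j)
    ⟨⟨hy, hz⟩, ⟨hxj0, by have := hxs j; simp only; linarith⟩⟩ (by
      rw [Prod.dist_eq]
      simp only [dist_self]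
      apply max_lt hδ₀
      rw [Real.dist_eq, hxs, add_sub_cancel_left, abs_of_pos hδ0]
      exact hδδ₀)
  rw [Real.dist_eq, abs_lt] at m5
  simp only at m5
  rw [e1] at m1
  rw [e2] at m2
  rw [abs_le]
  constructor <;> linarith [m5.2]

/-- the reflection `(x, y, z) ↦ (-x, y, z)` -/
def reflZero : E3 ≃ₜ E3 where
  toFun p := WithLp.toLp 2 ![-p 0, p 1, p 2]
  invFun p := WithLp.toLp 2 ![-p 0, p 1, p 2]
  left_inv p := by ext i; fin_cases i <;> simp
  right_inv p := by ext i; fin_cases i <;> simp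
  continuous_toFun := by
    refine (PiLp.continuous_toLp 2 _).comp (continuous_pi fun i => ?_)
    fin_cases i
    · change Continuous fun p : E3 => -p 0
      fun_prop
    · change Continuous fun p : E3 => p 1
      fun_prop
    · change Continuous fun p : E3 => p 2
      fun_prop
  continuous_invFun := by
    refine (PiLp.continuous_toLp 2 _).comp (continuous_pi fun i => ?_)
    fin_cases i
    · change Continuous fun p : E3 => -p 0
      fun_prop
    · change Continuous fun p : E3 => p 1
      fun_prop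
    · change Continuous fun p : E3 => p 2
      fun_prop

theorem reflZero_mem : reflZero ∈ groupB := by
  have h1 : reflZero * cyc ∈ zeroDiagonal := by
    refine ⟨fun q => -q.1, fun q => q.2, fun q => q.1, by fun_prop, by fun_prop, by fun_prop,
      fun p => ⟨rfl, rfl, rfl⟩⟩
  have h2 := groupB.mul_mem (Subgroup.subset_closure h1) (groupB.inv_mem cyc_mem)
  simpa using h2

/-- Orientation-preserving homeomorphisms changing only the coordinate `0`. -/
theorem approximable_zero_of_pos {h : E3 ≃ₜ E3} (hh : ∀ x j, j ≠ 0 → h x j = x j)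
    (hpos : ∀ w : ℝ × ℝ, h (WithLp.toLp 2 ![0, w.1, w.2]) 0 < h (WithLp.toLp 2 ![1, w.1, w.2]) 0) :
    Approximable groupB h := by
  set F : ℝ × ℝ → ℝ → ℝ := fun w t => h (WithLp.toLp 2 ![t, w.1, w.2]) 0 with hF
  have hpt : Continuous fun q : (ℝ × ℝ) × ℝ =>
      (WithLp.toLp 2 ![q.2, q.1.1, q.1.2] : E3) := by
    refine (PiLp.continuous_toLp 2 _).comp (continuous_pi fun i => ?_)
    fin_cases i
    · change Continuous fun q : (ℝ × ℝ) × ℝ => q.2
      fun_prop
    · change Continuous fun q : (ℝ × ℝ) × ℝ => q.1.1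
      fun_prop
    · change Continuous fun q : (ℝ × ℝ) × ℝ => q.1.2
      fun_prop
  have hFc : Continuous fun q : (ℝ × ℝ) × ℝ => F q.1 q.2 := by
    have h0 : Continuous fun p : E3 => p 0 := by fun_prop
    exact h0.comp (h.continuous.comp hpt)
  have h1 : ∀ w t, h (WithLp.toLp 2 ![t, w.1, w.2]) = WithLp.toLp 2 ![F w t, w.1, w.2] := by
    intro w t
    ext j
    fin_cases j
    · rfl
    · exact hh _ 1 (by decide)
    · exact hh _ 2 (by decide)
  have hinj : ∀ w, Function.Injective (F w) := by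
    intro w s t hst
    have := h.injective ((h1 w s).trans ((congrArg
      (fun u => (WithLp.toLp 2 ![u, w.1, w.2] : E3)) hst).trans (h1 w t).symm))
    have := congrArg (fun p : E3 => p 0) this
    simpa using this
  have hsurj : ∀ w, Function.Surjective (F w) := by
    intro w s
    set p : E3 := h.symm (WithLp.toLp 2 ![s, w.1, w.2]) with hp
    have e : h p = WithLp.toLp 2 ![s, w.1, w.2] := h.apply_symm_apply _
    have e1 : p 1 = w.1 := by rw [← hh p 1 (by decide), e]; rfl
    have e2 : p 2 = w.2 := by rw [← hh p 2 (by decide), e]; rfl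
    refine ⟨p 0, ?_⟩
    have e3 : (WithLp.toLp 2 ![p 0, w.1, w.2] : E3) = p := by
      ext j
      fin_cases j
      · rfl
      · exact e1.symm
      · exact e2.symm
    simp only [hF]
    rw [e3, e]; rfl
  have hmono : ∀ w, StrictMono (F w) := by
    intro w
    have hc : Continuous (F w) := hFc.comp (continuous_const.prodMk continuous_id)
    rcases hc.strictMono_of_inj (hinj w) with h2 | h2
    · exact h2
    · exfalso
      have h3 := h2 (show (0 : ℝ) < 1 from one_pos)
      exact absurd (hpos w) (not_lt.mpr h3.le)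
  set Φ : ℝ × ℝ → (ℝ ≃o ℝ) := fun w => (hmono w).orderIsoOfSurjective _ (hsurj w) with hΦ
  have hΦa : ∀ w t, Φ w t = F w t := fun w t => rfl
  have hΦc : FamCont Φ := by
    intro t
    simp only [hΦa]
    exact hFc.comp (continuous_id.prodMk continuous_const)
  obtain ⟨hc, hgood⟩ := good_of_famCont hΦc
  have : famHomeo Φ hc = h := by
    ext p j
    have e3 : (WithLp.toLp 2 ![p 0, p 1, p 2] : E3) = p := by
      ext j
      fin_cases j <;> rfl
    fin_cases j
    · change F (p 1, p 2) (p 0) = h p 0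
      simp only [hF]
      rw [e3]
    · exact (hh p 1 (by decide)).symm
    · exact (hh p 2 (by decide)).symm
  rw [← this]; exact hgood

/-- Homeomorphisms changing only the coordinate `0`. -/
theorem approximable_zero {h : E3 ≃ₜ E3} (hh : ∀ x j, j ≠ 0 → h x j = x j) :
    Approximable groupB h := by
  have hpt : ∀ t : ℝ, Continuous fun w : ℝ × ℝ =>
      (WithLp.toLp 2 ![t, w.1, w.2] : E3) := by
    intro t
    refine (PiLp.continuous_toLp 2 _).comp (continuous_pi fun i => ?_)
    fin_cases i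
    · change Continuous fun q : ℝ × ℝ => t
      fun_prop
    · change Continuous fun q : ℝ × ℝ => q.1
      fun_prop
    · change Continuous fun q : ℝ × ℝ => q.2
      fun_prop
  set D : ℝ × ℝ → ℝ := fun w =>
    h (WithLp.toLp 2 ![1, w.1, w.2]) 0 - h (WithLp.toLp 2 ![0, w.1, w.2]) 0 with hD
  have h0 : Continuous fun p : E3 => p 0 := by fun_prop
  have hDc : Continuous D :=
    (h0.comp (h.continuous.comp (hpt 1))).sub (h0.comp (h.continuous.comp (hpt 0)))
  have hDne : ∀ w, D w ≠ 0 := by
    intro w hw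
    have e : h (WithLp.toLp 2 ![1, w.1, w.2]) = h (WithLp.toLp 2 ![0, w.1, w.2]) := by
      ext j
      fin_cases j
      · exact sub_eq_zero.mp hw
      · exact (hh (WithLp.toLp 2 ![1, w.1, w.2]) 1 (by decide)).trans
          (hh (WithLp.toLp 2 ![0, w.1, w.2]) 1 (by decide)).symm
      · exact (hh (WithLp.toLp 2 ![1, w.1, w.2]) 2 (by decide)).trans
          (hh (WithLp.toLp 2 ![0, w.1, w.2]) 2 (by decide)).symm
    have := congrArg (fun p : E3 => p 0) (h.injective e)
    simp at this
  have hsign : (∀ w, 0 < D w) ∨ (∀ w, D w < 0) := by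
    by_contra hcon
    push Not at hcon
    obtain ⟨⟨w₁, h₁⟩, ⟨w₂, h₂⟩⟩ := hcon
    obtain ⟨w, hw⟩ := mem_range_of_exists_le_of_exists_ge hDc ⟨w₁, h₁⟩ ⟨w₂, h₂⟩
    exact hDne w hw
  rcases hsign with hs | hs
  · exact approximable_zero_of_pos hh fun w => by have := hs w; simp only [hD] at this; linarith
  · have h1 : Approximable groupB (reflZero * h) := by
      refine approximable_zero_of_pos ?_ ?_
      · intro p j hj
        fin_cases j
        · exact absurd rfl hj
        · exact hh p 1 (by decide)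
        · exact hh p 2 (by decide)
      · intro w
        have := hs w
        simp only [hD] at this
        change -(h (WithLp.toLp 2 ![0, w.1, w.2]) 0) < -(h (WithLp.toLp 2 ![1, w.1, w.2]) 0)
        linarith
    have h2 := Approximable.mul (approximable_of_mem (groupB.inv_mem reflZero_mem)) h1
    rwa [inv_mul_cancel_left] at h2

/-- Every one-coordinate homeomorphism of `E^3` is approximable by the type B group. -/
theorem approximable_oneCoordinate {h : E3 ≃ₜ E3} (hh : h ∈ oneCoordinate 3) :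
    Approximable groupB h := by
  obtain ⟨i, hi⟩ := hh
  have hcyc : ∀ g : E3 ≃ₜ E3, Approximable groupB (cyc * g * cyc⁻¹) → Approximable groupB g := by
    intro g hg
    have := Approximable.mul (Approximable.mul
      (approximable_of_mem (groupB.inv_mem cyc_mem)) hg) (approximable_of_mem cyc_mem)
    simpa [mul_assoc] using this
  have hcyc' : ∀ g : E3 ≃ₜ E3, Approximable groupB (cyc⁻¹ * g * cyc) → Approximable groupB g := by
    intro g hg
    have := Approximable.mul (Approximable.mul
      (approximable_of_mem cyc_mem) hg) (approximable_of_mem (groupB.inv_mem cyc_mem))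
    simpa [mul_assoc] using this
  fin_cases i
  · exact approximable_zero hi
  · refine hcyc h (approximable_zero ?_)
    intro p j hj
    fin_cases j
    · exact absurd rfl hj
    · exact hi (cyc⁻¹ p) 2 (by decide)
    · exact hi (cyc⁻¹ p) 0 (by decide)
  · refine hcyc' h (approximable_zero ?_)
    intro p j hj
    fin_cases j
    · exact absurd rfl hj
    · exact hi (cyc p) 0 (by decide)
    · exact hi (cyc p) 1 (by decide)

/-- Every element of the type A group of `E^3` is approximable by the type B group. -/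
theorem approximable_groupB_of_groupA {h : E3 ≃ₜ E3} (hh : Approximable (groupA 3) h) :
    Approximable groupB h := by
  refine approximable_trans (fun g hg => ?_) hh
  have : groupA 3 ≤ approxSubgroup groupB := by
    rw [groupA, Subgroup.closure_le]
    intro f hf
    exact approximable_oneCoordinate hf
  exact this hg

end Pool.Agent.Helper25
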